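import Pool.Agent.Lib.MP_e9e3a0_an.Ramp

set_option autoImplicit false

namespace Pool.Agent.Lib.MP_e9e3a0_an

open MvPolynomial

/-- Zero sets of optimal polynomial approximants on the bidisk: all degrees for the Hardy space
(by duality on the torus), and all lines for every `α ≥ 0`. -/
theorem allFacts :
    (∀ n, Curves 0 n =
      {C | ∃ p, 0 < p.totalDegree ∧ p.totalDegree ≤ n ∧ NoCert n p ∧ C = Z p}) ∧
    (∀ α n, Curves 0 n ⊆ Curves α n) ∧
    (∀ n (p : MvPolynomial (Fin 2) ℂ), 0 < p.totalDegree → p.totalDegree ≤ n →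
      (∀ z : Fin 2 → ℂ, (∀ i, ‖z i‖ ≤ 1) → eval z p ≠ 0) → Z p ∈ Curves 0 n) ∧
    (∀ α n a b c, Line a b c ∈ Curves α n ↔ Line a c b ∈ Curves α n) ∧
    (∀ α n a b c, (b ≠ 0 ∨ c ≠ 0) → ∀ C ∈ Curves α n, Line a b c ⊆ C →
      Line a b c ∈ Curves α 1) ∧
    (∀ a b c, (b ≠ 0 ∨ c ≠ 0) → (Line a b c ∈ Curves 0 1 ↔ |‖b‖ - ‖c‖| < ‖a‖)) ∧
    (∀ α, 0 ≤ α → ∀ a b c, b ≠ 0 → ‖c‖ ≤ ‖b‖ →
      (Line a b c ∈ Curves α 1 ↔ ∀ β γ, Cert1 α a b c β γ → β = 0 ∧ γ = 0) ∧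
      (Line a b c ∈ Curves α 1 → ‖b‖ < ‖a‖ + 2 ^ (α / 2) * ‖c‖) ∧
      (0 < α → a ≠ 0 → c ≠ 0 → ‖b‖ ≤ ‖a‖ + ‖c‖ → Line a b c ∈ Curves α 1)) := by
  have hne : ∀ {p : MvPolynomial (Fin 2) ℂ}, 0 < p.totalDegree → p ≠ 0 := by
    rintro p h rfl; simp at h
  have hsw : ∀ α n a b c, Line a b c ∈ Curves α n → Line a c b ∈ Curves α n := by
    intro α n a b c h
    convert swap_mem h using 1
    ext z
    simp only [Line, Set.mem_ofPred_eq, Function.comp, Equiv.swap_apply_left,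
      Equiv.swap_apply_right]
    rw [add_right_comm]
  have hbd : ∀ α, 0 ≤ α → ∀ a b c, (b ≠ 0 ∨ c ≠ 0) → Line a b c ∈ Curves α 1 →
      ‖b‖ < ‖a‖ + 2 ^ (α / 2) * ‖c‖ ∧ ‖c‖ < ‖a‖ + 2 ^ (α / 2) * ‖b‖ := by
    rintro α hα a b c hbc ⟨f, p, hf, hf0, h, hd, e⟩
    exact line_bound hα hf hf0 h (hne hd) hbc e.subset
  have hin : ∀ α a b c, (b ≠ 0 ∨ c ≠ 0) → |‖b‖ - ‖c‖| < ‖a‖ → Line a b c ∈ Curves α 1 := by
    intro α a b c hbc h
    rw [← Z_lin]
    exact mem_curves_of_noCert α (by rw [deg_lin hbc]; exact one_pos) (deg_lin_le a b c)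
      (noCert_lin h)
  refine ⟨fun n => ?_, ?_, fun n p h0 hp h => mem_curves_of_noCert 0 h0 hp (noCert_of_stable h),
    fun α n a b c => ⟨hsw α n a b c, hsw α n a c b⟩, ?_, fun a b c hbc => ⟨fun h => ?_,
      hin 0 a b c hbc⟩, fun α hα a b c hb hcb => ⟨⟨fun h β γ hC => ?_,
      line_mem_of_noCert1 α (Or.inl hb)⟩, fun h => (hbd α hα a b c (Or.inl hb) h).1,
      fun h0 ha hc hle => ?_⟩⟩
  · ext C
    constructor
    · rintro ⟨f, p, hf, hf0, h, hd, rfl⟩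
      exact ⟨p, hd, h.1, noCert_of_isOPA hf hf0 h (hne hd), rfl⟩
    · rintro ⟨p, hd, hp, h, rfl⟩
      exact mem_curves_of_noCert 0 hd hp h
  · rintro α n C ⟨f, p, hf, hf0, h, hd, rfl⟩
    exact mem_curves_of_noCert α hd h.1 (noCert_of_isOPA hf hf0 h (hne hd))
  · rintro α n a b c hbc C ⟨f, p, hf, hf0, h, hd, rfl⟩ hl
    obtain ⟨g, rfl⟩ := lin_dvd hbc hl
    have hp0 := hne hd
    obtain ⟨hpc, hfc⟩ := h.ne hf hf0 hp0
    rw [coeff_zero_mul] at hpc
    have hL := left_ne_zero_of_mul hp0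
    have hdp := h.1
    rw [totalDegree_mul_of_isDomain hL (right_ne_zero_of_mul hp0), deg_lin hbc] at hdp
    have hF0 : MvPowerSeries.coeff 0 ((g : PS) * f) ≠ 0 := by
      rw [coeff_zero_poly_mul]; exact mul_ne_zero (right_ne_zero_of_mul hpc) hfc
    obtain ⟨t, ht, hopa⟩ := isOPA_of_Phi (n := 1) (hf.poly_mul g) hF0 (deg_lin_le a b c) hL (by
      funext s
      have hs : (monomial s.1 (1 : ℂ)).totalDegree ≤ 1 :=
        (totalDegree_monomial_le _ _).trans s.2.2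
      have h1 := h.lam hf (q := monomial s.1 1 * g) ((totalDegree_mul _ _).trans (by omega))
      rw [coeff_zero_mul, coeff_monomial, if_neg s.2.1, zero_mul, zero_mul, map_zero, Lam, coe_mul,
        coe_mul, mul_assoc, mul_assoc] at h1
      exact h1)
    refine ⟨_, _, hf.poly_mul g, fun e => hF0 (by rw [e, map_zero]), hopa, ?_, ?_⟩
    · rw [totalDegree_mul_of_isDomain (by simpa using ht) hL, deg_lin hbc]; omega
    · rw [← Z_lin]; ext z; simp [Z, ht]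
  · have := hbd 0 le_rfl a b c hbc h
    simp only [zero_div, Real.rpow_zero, one_mul] at this
    exact abs_sub_lt_iff.2 ⟨by linarith [this.1], by linarith [this.2]⟩
  · rcases hα.eq_or_lt with rfl | h0
    · have h1 := (hbd 0 le_rfl a b c (Or.inl hb) h).1
      simp only [zero_div, Real.rpow_zero, one_mul] at h1
      have h2 := noCert_lin (a := a) (b := b) (c := c) (by rw [abs_of_nonneg] <;> linarith)
        (lin 0 β γ) (deg_lin_le _ _ _) (coeff_lin _ _ _).1 fun z hz => hC.torus hz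
      have h3 := coeff_lin 0 β γ
      rw [h2] at h3
      exact ⟨by simpa using h3.2.1.symm, by simpa using h3.2.2.symm⟩
    · obtain ⟨f, p, hf, hf0, h, hd, e⟩ := h
      exact noCert1_of_line h0 hf hf0 h (hne hd) hb hcb e.subset hC
  · rcases hle.eq_or_lt with h | h
    · exact line_mem_of_noCert1 α (Or.inl hb) fun β γ hC => boundary h0 ha hc h.symm hC
    · exact hin α a b c (Or.inl hb) (by rw [abs_of_nonneg] <;> linarith)

end Pool.Agent.Lib.MP_e9e3a0_an
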