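import Pool.Agent.Lib.MP_e9e3a0_an.Defs

set_option autoImplicit false

namespace Pool.Agent.Lib.MP_e9e3a0_an

open ComplexConjugate Filter Topology

abbrev PS := MvPowerSeries (Fin 2) ℂ
abbrev Po := MvPolynomial (Fin 2) ℂ
abbrev Ex := Fin 2 →₀ ℕ
noncomputable abbrev H := lp (fun _ : Ex => ℂ) 2

lemma wt_pos (α : ℝ) (d : Ex) : 0 < wt α d := by unfold wt; positivity

@[simp] lemma wt_zero (α : ℝ) : wt α 0 = 1 := by simp [wt]

@[simp] lemma wt_hardy (d : Ex) : wt 0 d = 1 := by simp [wt]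

/-- weighted coefficient sequence -/
noncomputable def sq (α : ℝ) (f : PS) (d : Ex) : ℂ :=
  MvPowerSeries.coeff d f * (Real.sqrt (wt α d) : ℂ)

lemma norm_sq_sq (α : ℝ) (f : PS) (d : Ex) :
    ‖sq α f d‖ ^ (2 : ENNReal).toReal = ‖MvPowerSeries.coeff d f‖ ^ 2 * wt α d := by
  have h := (wt_pos α d).le
  simp only [sq, norm_mul, ENNReal.toReal_ofNat, Real.rpow_two, Complex.norm_real,
    Real.norm_eq_abs, mul_pow, sq_abs, Real.sq_sqrt h]

lemma memD_iff (α : ℝ) (f : PS) : MemD α f ↔ Memℓp (sq α f) 2 := by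
  rw [memℓp_gen_iff (by norm_num)]
  simp only [norm_sq_sq, MemD]

open Classical in
noncomputable def J (α : ℝ) (f : PS) : H :=
  if h : MemD α f then ⟨sq α f, (memD_iff α f).1 h⟩ else 0

lemma J_apply {α : ℝ} {f : PS} (h : MemD α f) (d : Ex) : (J α f : Ex → ℂ) d = sq α f d := by
  simp [J, h]

lemma MemD.add {α : ℝ} {f g : PS} (hf : MemD α f) (hg : MemD α g) : MemD α (f + g) := by
  rw [memD_iff] at *
  convert hf.add hg using 1
  ext d; simp [sq, add_mul]

lemma MemD.smul {α : ℝ} {f : PS} (c : ℂ) (hf : MemD α f) : MemD α (c • f) := by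
  rw [memD_iff] at *
  convert hf.const_smul c using 1
  ext d; simp [sq, mul_assoc]

lemma MemD.sub {α : ℝ} {f g : PS} (hf : MemD α f) (hg : MemD α g) : MemD α (f - g) := by
  have := hf.add (hg.smul (-1))
  simpa [sub_eq_add_neg] using this

lemma memD_zero (α : ℝ) : MemD α 0 := by simp [MemD, summable_zero]

lemma J_add {α : ℝ} {f g : PS} (hf : MemD α f) (hg : MemD α g) :
    J α (f + g) = J α f + J α g := by
  ext d
  simp [J_apply, hf, hg, hf.add hg, sq, add_mul]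

lemma J_smul {α : ℝ} {f : PS} (c : ℂ) (hf : MemD α f) : J α (c • f) = c • J α f := by
  ext d
  simp [J_apply, hf, hf.smul c, sq, mul_assoc]

lemma J_sub {α : ℝ} {f g : PS} (hf : MemD α f) (hg : MemD α g) :
    J α (f - g) = J α f - J α g := by
  ext d
  simp [J_apply, hf, hg, hf.sub hg, sq, sub_mul]

lemma J_zero (α : ℝ) : J α 0 = 0 := by
  ext d
  simp [J_apply, memD_zero, sq]

lemma J_eq_zero {α : ℝ} {f : PS} (hf : MemD α f) (h : J α f = 0) : f = 0 := by
  ext d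
  have h1 := J_apply hf d
  rw [h] at h1
  have h2 : (Real.sqrt (wt α d) : ℂ) ≠ 0 := by
    exact_mod_cast (Real.sqrt_pos.2 (wt_pos α d)).ne'
  simpa [sq, h2] using h1.symm

lemma ip_eq {α : ℝ} {f g : PS} (hf : MemD α f) (hg : MemD α g) :
    ip α f g = inner ℂ (J α g) (J α f) := by
  rw [lp.inner_eq_tsum]
  refine tsum_congr fun d => ?_
  have h : ((Real.sqrt (wt α d) : ℂ)) * (Real.sqrt (wt α d) : ℂ) = (wt α d : ℂ) := by
    exact_mod_cast Real.mul_self_sqrt (wt_pos α d).le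
  simp only [J_apply hf, J_apply hg, sq, RCLike.inner_apply, map_mul, Complex.conj_ofReal]
  rw [← h]; ring

lemma norm_J_sq {α : ℝ} {f : PS} (hf : MemD α f) :
    ‖J α f‖ ^ 2 = ∑' d, ‖MvPowerSeries.coeff d f‖ ^ 2 * wt α d := by
  have := lp.norm_rpow_eq_tsum (p := 2) (by norm_num) (J α f)
  simp only [J_apply hf, norm_sq_sq] at this
  simpa using this

lemma coeff_shift_eq_zero (s : Ex) (f : PS) (d : Ex) (hd : d ∉ Set.range fun e => s + e) :
    MvPowerSeries.coeff d (MvPowerSeries.monomial s (1 : ℂ) * f) = 0 := by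
  rw [MvPowerSeries.coeff_monomial_mul, if_neg]
  intro h
  exact hd ⟨d - s, add_tsub_cancel_of_le h⟩

lemma ip_shift (α : ℝ) (s : Ex) (f g : PS) :
    ip α (MvPowerSeries.monomial s 1 * f) (MvPowerSeries.monomial s 1 * g) =
      ∑' d, MvPowerSeries.coeff d f * conj (MvPowerSeries.coeff d g) * (wt α (s + d) : ℂ) := by
  unfold ip
  rw [← (add_right_injective s).tsum_eq]
  · simp [MvPowerSeries.coeff_add_monomial_mul]
  · intro d hd
    by_contra h
    exact hd (by simp [coeff_shift_eq_zero s f d h])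

lemma memD_shift_iff (α : ℝ) (s : Ex) (f : PS) :
    MemD α (MvPowerSeries.monomial s 1 * f) ↔
      Summable fun d => ‖MvPowerSeries.coeff d f‖ ^ 2 * wt α (s + d) := by
  unfold MemD
  rw [← (add_right_injective s).summable_iff]
  · simp [Function.comp_def, MvPowerSeries.coeff_add_monomial_mul]
  · intro d hd
    simp [coeff_shift_eq_zero s f d hd]

lemma tsum_shift (α : ℝ) (s : Ex) (f : PS) :
    ∑' d, ‖MvPowerSeries.coeff d (MvPowerSeries.monomial s (1 : ℂ) * f)‖ ^ 2 * wt α d =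
      ∑' d, ‖MvPowerSeries.coeff d f‖ ^ 2 * wt α (s + d) := by
  rw [← (add_right_injective s).tsum_eq]
  · simp [MvPowerSeries.coeff_add_monomial_mul]
  · intro d hd
    by_contra h
    exact hd (by simp [coeff_shift_eq_zero s f d h])

lemma base_le (i : Fin 2) (d : Ex) :
    ((d 0 : ℝ) + 1) * ((d 1 : ℝ) + 1) ≤
      (((Finsupp.single i 1 + d : Ex) 0 : ℝ) + 1) * (((Finsupp.single i 1 + d : Ex) 1 : ℝ) + 1) ∧
    (((Finsupp.single i 1 + d : Ex) 0 : ℝ) + 1) * (((Finsupp.single i 1 + d : Ex) 1 : ℝ) + 1) ≤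
      2 * (((d 0 : ℝ) + 1) * ((d 1 : ℝ) + 1)) := by
  have h0 : (0 : ℝ) ≤ d 0 := Nat.cast_nonneg _
  have h1 : (0 : ℝ) ≤ d 1 := Nat.cast_nonneg _
  fin_cases i <;> simp <;> constructor <;> nlinarith

lemma wt_step_ge {α : ℝ} (hα : 0 ≤ α) (i : Fin 2) (d : Ex) :
    wt α d ≤ wt α (Finsupp.single i 1 + d) :=
  Real.rpow_le_rpow (by positivity) (base_le i d).1 hα

lemma wt_step_le {α : ℝ} (hα : 0 ≤ α) (i : Fin 2) (d : Ex) :
    wt α (Finsupp.single i 1 + d) ≤ 2 ^ α * wt α d := by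
  unfold wt
  rw [← Real.mul_rpow (by norm_num) (by positivity)]
  exact Real.rpow_le_rpow (by positivity) (base_le i d).2 hα

lemma wt_step (α : ℝ) (i : Fin 2) (d : Ex) :
    wt α (Finsupp.single i 1 + d) ≤ (max 1 (2 ^ α)) * wt α d := by
  have := wt_pos α d
  rcases le_total 0 α with h | h
  · exact (wt_step_le h i d).trans (by gcongr; exact le_max_right _ _)
  · have h1 : wt α (Finsupp.single i 1 + d) ≤ wt α d :=
      Real.rpow_le_rpow_of_nonpos (by positivity) (base_le i d).1 h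
    exact h1.trans (le_mul_of_one_le_left this.le (le_max_left _ _))

lemma X_eq (i : Fin 2) :
    (MvPowerSeries.X i : PS) = MvPowerSeries.monomial (Finsupp.single i 1) 1 := rfl

lemma X_bound {α K : ℝ} {i : Fin 2} (hK : ∀ d, wt α (Finsupp.single i 1 + d) ≤ K * wt α d)
    {f : PS} (hf : MemD α f) :
    MemD α (MvPowerSeries.X i * f) ∧ ‖J α (MvPowerSeries.X i * f)‖ ^ 2 ≤ K * ‖J α f‖ ^ 2 := by
  have hle : ∀ d, ‖MvPowerSeries.coeff d f‖ ^ 2 * wt α (Finsupp.single i 1 + d) ≤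
      K * (‖MvPowerSeries.coeff d f‖ ^ 2 * wt α d) := fun d => by
    nlinarith [hK d, sq_nonneg ‖MvPowerSeries.coeff d f‖]
  have hs : Summable fun d => ‖MvPowerSeries.coeff d f‖ ^ 2 * wt α (Finsupp.single i 1 + d) :=
    Summable.of_nonneg_of_le (fun d => mul_nonneg (sq_nonneg _) (wt_pos _ _).le) hle
      (Summable.mul_left K hf)
  have hm : MemD α (MvPowerSeries.X i * f) := by rw [X_eq, memD_shift_iff]; exact hs
  refine ⟨hm, ?_⟩
  rw [norm_J_sq hm, norm_J_sq hf, X_eq, tsum_shift, ← tsum_mul_left]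
  exact hs.tsum_le_tsum hle (Summable.mul_left K hf)

lemma MemD.X_mul {α : ℝ} {f : PS} (hf : MemD α f) (i : Fin 2) : MemD α (MvPowerSeries.X i * f) :=
  (X_bound (wt_step α i) hf).1

lemma norm_X_le {α : ℝ} (hα : 0 ≤ α) (i : Fin 2) {f : PS} (hf : MemD α f) :
    ‖J α (MvPowerSeries.X i * f)‖ ≤ 2 ^ (α / 2) * ‖J α f‖ := by
  have h := (X_bound (wt_step_le hα i) hf).2
  have e : (2 : ℝ) ^ α = (2 ^ (α / 2)) ^ 2 := by
    rw [← Real.rpow_natCast, ← Real.rpow_mul (by norm_num)]; congr 1; push_cast; ring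
  rw [e, ← mul_pow] at h
  exact (sq_le_sq₀ (norm_nonneg _) (by positivity)).1 h

lemma norm_X_ge {α : ℝ} (hα : 0 ≤ α) (i : Fin 2) {f : PS} (hf : MemD α f) :
    ‖J α f‖ ≤ ‖J α (MvPowerSeries.X i * f)‖ := by
  have hm := hf.X_mul i
  refine (sq_le_sq₀ (norm_nonneg _) (norm_nonneg _)).1 ?_
  rw [norm_J_sq hm, norm_J_sq hf, X_eq, tsum_shift]
  rw [X_eq, memD_shift_iff] at hm
  exact Summable.tsum_le_tsum (fun d => by gcongr; exact wt_step_ge hα i d) hf hm

lemma poly_bound (α : ℝ) (p : Po) : ∃ K : ℝ, 0 ≤ K ∧ ∀ f : PS, MemD α f →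
    MemD α ((p : PS) * f) ∧ ‖J α ((p : PS) * f)‖ ≤ K * ‖J α f‖ := by
  induction p using MvPolynomial.induction_on with
  | C a =>
    refine ⟨‖a‖, norm_nonneg _, fun f hf => ?_⟩
    have e : ((MvPolynomial.C a : Po) : PS) * f = a • f := by
      rw [MvPolynomial.coe_C, MvPowerSeries.smul_eq_C_mul]
    rw [e, J_smul a hf, norm_smul]
    exact ⟨hf.smul a, le_rfl⟩
  | add p q hp hq =>
    obtain ⟨K, hK, h1⟩ := hp
    obtain ⟨L, hL, h2⟩ := hq
    refine ⟨K + L, by positivity, fun f hf => ?_⟩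
    rw [MvPolynomial.coe_add, add_mul, J_add (h1 f hf).1 (h2 f hf).1]
    refine ⟨(h1 f hf).1.add (h2 f hf).1, (norm_add_le _ _).trans ?_⟩
    linarith [(h1 f hf).2, (h2 f hf).2]
  | mul_X p i hp =>
    obtain ⟨K, hK, h1⟩ := hp
    refine ⟨K * Real.sqrt (max 1 (2 ^ α)), by positivity, fun f hf => ?_⟩
    rw [MvPolynomial.coe_mul, MvPolynomial.coe_X, mul_assoc]
    obtain ⟨h2, h3⟩ := X_bound (wt_step α i) hf
    refine ⟨(h1 _ h2).1, (h1 _ h2).2.trans ?_⟩
    rw [mul_assoc]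
    refine mul_le_mul_of_nonneg_left ?_ hK
    refine (sq_le_sq₀ (norm_nonneg _) (by positivity)).1 ?_
    rw [mul_pow, Real.sq_sqrt (by positivity)]
    exact h3

lemma MemD.poly_mul {α : ℝ} {f : PS} (hf : MemD α f) (p : Po) : MemD α ((p : PS) * f) :=
  ((poly_bound α p).choose_spec.2 f hf).1

lemma memD_one (α : ℝ) : MemD α 1 := by
  refine summable_of_ne_finset_zero (s := {0}) fun d hd => ?_
  have : d ≠ 0 := by simpa using hd
  simp [MvPowerSeries.coeff_one, this]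

lemma memD_poly (α : ℝ) (p : Po) : MemD α (p : PS) := by
  simpa using (memD_one α).poly_mul p

lemma ip_one_left (α : ℝ) (g : PS) : ip α 1 g = conj (MvPowerSeries.coeff 0 g) := by
  unfold ip
  rw [tsum_eq_single 0]
  · simp
  · intro d hd
    simp [MvPowerSeries.coeff_one, hd]

lemma exists_poly_tendsto {α : ℝ} {f : PS} (hf : MemD α f) :
    Tendsto (fun F : Finset Ex =>
      J α ((∑ d ∈ F, MvPolynomial.monomial d (MvPowerSeries.coeff d f) : Po) : PS)) atTop
      (𝓝 (J α f)) := by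
  classical
  have h := lp.hasSum_single (p := 2) (by norm_num) (J α f)
  refine h.congr fun F => ?_
  ext d
  rw [J_apply (memD_poly _ _), lp.coeFn_sum, Finset.sum_apply]
  simp only [sq, MvPolynomial.coeff_coe, MvPolynomial.coeff_sum, MvPolynomial.coeff_monomial,
    lp.single_apply, Pi.single_apply, J_apply hf, Finset.sum_mul]
  refine Finset.sum_congr rfl fun e _ => ?_
  by_cases hd : d = e
  · subst hd; simp
  · simp [hd, Ne.symm hd]

lemma tendsto_poly_mul {α : ℝ} {f : PS} (hf : MemD α f) {ι : Type} {l : Filter ι} {g : ι → PS}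
    (hg : ∀ k, MemD α (g k)) (h : Tendsto (fun k => J α (g k)) l (𝓝 (J α f))) (p : Po) :
    Tendsto (fun k => J α ((p : PS) * g k)) l (𝓝 (J α ((p : PS) * f))) := by
  obtain ⟨K, hK, hb⟩ := poly_bound α p
  rw [tendsto_iff_norm_sub_tendsto_zero] at h ⊢
  refine squeeze_zero (fun _ => norm_nonneg _) (fun k => ?_) (by simpa using h.const_mul K)
  rw [← J_sub ((hg k).poly_mul p) (hf.poly_mul p), ← mul_sub, ← J_sub (hg k) hf]
  exact (hb _ ((hg k).sub hf)).2

end Pool.Agent.Lib.MP_e9e3a0_an
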