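import Mathlib

/-! Optimal polynomial approximants in the spaces D_α of the bidisk. A holomorphic function on the
bidisk is identified with its power series. -/

set_option autoImplicit false

namespace Pool.Agent.Lib.MP_e9e3a0_an

open ComplexConjugate

/-- The weight `((j+1)(k+1))^α` of the monomial with exponent `d = (j,k)`. -/
noncomputable def wt (α : ℝ) (d : Fin 2 →₀ ℕ) : ℝ := (((d 0 : ℝ) + 1) * ((d 1 : ℝ) + 1)) ^ α

/-- The power series `f` lies in `D_α`. -/
def MemD (α : ℝ) (f : MvPowerSeries (Fin 2) ℂ) : Prop :=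
  Summable fun d => ‖MvPowerSeries.coeff d f‖ ^ 2 * wt α d

/-- The inner product of `D_α`. -/
noncomputable def ip (α : ℝ) (f g : MvPowerSeries (Fin 2) ℂ) : ℂ :=
  ∑' d, MvPowerSeries.coeff d f * conj (MvPowerSeries.coeff d g) * (wt α d : ℂ)

/-- `p` is the optimal approximant of degree `n` to `1/f` in `D_α`: it has total degree at most
`n` and `p f - 1` is orthogonal to `q f` for all `q` of total degree at most `n`. -/
def IsOPA (α : ℝ) (n : ℕ) (f : MvPowerSeries (Fin 2) ℂ) (p : MvPolynomial (Fin 2) ℂ) : Prop :=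
  p.totalDegree ≤ n ∧ ∀ q : MvPolynomial (Fin 2) ℂ, q.totalDegree ≤ n →
    ip α ((p : MvPowerSeries (Fin 2) ℂ) * f - 1) ((q : MvPowerSeries (Fin 2) ℂ) * f) = 0

/-- The zero set of a polynomial. -/
def Z (p : MvPolynomial (Fin 2) ℂ) : Set (Fin 2 → ℂ) := {z | MvPolynomial.eval z p = 0}

/-- The zero sets of the nonconstant optimal approximants of degree `n` in `D_α`. -/
def Curves (α : ℝ) (n : ℕ) : Set (Set (Fin 2 → ℂ)) :=
  {C | ∃ f p, MemD α f ∧ f ≠ 0 ∧ IsOPA α n f p ∧ 0 < p.totalDegree ∧ C = Z p}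

/-- No nonzero `q` of total degree at most `n` with `q(0) = 0` has `Re (p * conj q) ≥ 0` on the
torus. -/
def NoCert (n : ℕ) (p : MvPolynomial (Fin 2) ℂ) : Prop :=
  ∀ q : MvPolynomial (Fin 2) ℂ, q.totalDegree ≤ n → q.coeff 0 = 0 →
    (∀ z : Fin 2 → ℂ, (∀ i, ‖z i‖ = 1) →
      0 ≤ (MvPolynomial.eval z p * conj (MvPolynomial.eval z q)).re) → q = 0

/-- The line `a + b z₁ + c z₂ = 0`. -/
def Line (a b c : ℂ) : Set (Fin 2 → ℂ) := {z | a + b * z 0 + c * z 1 = 0}

/-- The inner product of the one-variable space `D_α`, on polynomials. -/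
noncomputable def ip1 (α : ℝ) (u v : Polynomial ℂ) : ℂ :=
  ∑' k, u.coeff k * conj (v.coeff k) * ((((k : ℝ) + 1) ^ α : ℝ) : ℂ)

open Polynomial in
/-- For all unimodular `ζ` and all polynomials `g` in one variable `w`, the real part of the inner
product of `(a + b ζ + c w) g` and `(β ζ + γ w) g` in the one-variable space `D_α` is `≥ 0`. -/
def Cert1 (α : ℝ) (a b c β γ : ℂ) : Prop :=
  ∀ ζ : ℂ, ‖ζ‖ = 1 → ∀ g : Polynomial ℂ,
    0 ≤ (ip1 α ((C (a + b * ζ) + C c * X) * g) ((C (β * ζ) + C γ * X) * g)).re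

end Pool.Agent.Lib.MP_e9e3a0_an
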