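import Pool.Agent.Lib.MP_e9e3a0_an.Hardy

set_option autoImplicit false

namespace Pool.Agent.Lib.MP_e9e3a0_an

open ComplexConjugate Filter Topology MvPolynomial

/-- nonconstant monomials of degree at most `n` -/
def Ix (n : ℕ) : Type := {s : Ex // s ≠ 0 ∧ (s.sum fun _ e => e) ≤ n}

instance (n : ℕ) : Finite (Ix n) :=
  ((Finsupp.finite_of_degree_le (σ := Fin 2) n).subset
    (t := {s : Ex | s ≠ 0 ∧ (s.sum fun _ e => e) ≤ n}) fun _ hs => hs.2).to_subtype

noncomputable instance (n : ℕ) : Fintype (Ix n) := Fintype.ofFinite _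
noncomputable instance (n : ℕ) : DecidableEq (Ix n) := Classical.decEq _

noncomputable def Phi (α : ℝ) (n : ℕ) (p : Po) (f : PS) : Ix n → ℂ :=
  fun s => Lam α f p (monomial s.1 1)

noncomputable def qOf {n : ℕ} (c : Ix n → ℂ) : Po := ∑ s, monomial s.1 (conj (c s))

lemma coeff_qOf {n : ℕ} (c : Ix n → ℂ) (s : Ix n) : (qOf c).coeff s.1 = conj (c s) := by
  rw [qOf, coeff_sum, Finset.sum_eq_single s]
  · simp
  · intro t _ ht
    rw [coeff_monomial, if_neg fun e => ht (Subtype.ext e)]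
  · simp

lemma coeff_qOf_of_not {n : ℕ} (c : Ix n → ℂ) {d : Ex} (hd : ¬ (d ≠ 0 ∧ (d.sum fun _ e => e) ≤ n)) :
    (qOf c).coeff d = 0 := by
  rw [qOf, coeff_sum]
  refine Finset.sum_eq_zero fun t _ => ?_
  rw [coeff_monomial, if_neg fun e : t.1 = d => hd (e ▸ t.2)]

lemma deg_qOf {n : ℕ} (c : Ix n → ℂ) : (qOf c).totalDegree ≤ n :=
  totalDegree_finsetSum_le fun s _ => (totalDegree_monomial_le _ _).trans s.2.2

lemma eq_qOf {n : ℕ} {q : Po} (hq : q.totalDegree ≤ n) :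
    q = C (q.coeff 0) * 1 + qOf fun s : Ix n => conj (q.coeff s.1) := by
  ext d
  rw [coeff_add, mul_one, coeff_C]
  by_cases hd : d ≠ 0 ∧ (d.sum fun _ e => e) ≤ n
  · rw [coeff_qOf _ ⟨d, hd⟩, if_neg hd.1.symm]; simp
  · rw [coeff_qOf_of_not _ hd, add_zero]
    by_cases h0 : 0 = d
    · simp [h0]
    · rw [if_neg h0]
      refine coeff_eq_zero_of_totalDegree_lt (hq.trans_lt ?_)
      exact not_le.1 fun h => hd ⟨Ne.symm h0, h⟩

lemma Lam_add_right {α : ℝ} {f : PS} (hf : MemD α f) (r s t : Po) :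
    Lam α f r (s + t) = Lam α f r s + Lam α f r t := by
  rw [Lam, coe_add, add_mul, ip_add_right (hf.poly_mul _) (hf.poly_mul _) (hf.poly_mul _)]; rfl

lemma Lam_C_mul_right {α : ℝ} {f : PS} (hf : MemD α f) (c : ℂ) (r s : Po) :
    Lam α f r (C c * s) = conj c * Lam α f r s := by
  rw [Lam, coe_C_mul, smul_mul_assoc, ip_smul_right c (hf.poly_mul _) (hf.poly_mul _), Lam]

lemma Lam_qOf {α : ℝ} {n : ℕ} {f : PS} (hf : MemD α f) (p : Po) (c : Ix n → ℂ) :
    Lam α f p (qOf c) = ∑ s, c s * Phi α n p f s := by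
  unfold qOf
  induction (Finset.univ : Finset (Ix n)) using Finset.induction_on with
  | empty => simp [Lam]
  | insert a F ha ih =>
    rw [Finset.sum_insert ha, Finset.sum_insert ha, Lam_add_right hf, ih]
    congr 1
    rw [show monomial a.1 (conj (c a)) = C (conj (c a)) * monomial a.1 1 by
      rw [C_mul_monomial, mul_one], Lam_C_mul_right hf, Complex.conj_conj, Phi]

lemma isOPA_of_Phi {α : ℝ} {n : ℕ} {f : PS} {p : Po} (hf : MemD α f)
    (hf0 : MvPowerSeries.coeff 0 f ≠ 0) (hp : p.totalDegree ≤ n) (hp0 : p ≠ 0)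
    (h : Phi α n p f = 0) : ∃ c : ℂ, c ≠ 0 ∧ IsOPA α n f (C c * p) := by
  have key : ∀ q : Po, q.totalDegree ≤ n → Lam α f p q = conj (q.coeff 0) * Lam α f p 1 := by
    intro q hq
    conv_lhs => rw [eq_qOf hq]
    rw [Lam_add_right hf, Lam_C_mul_right hf, Lam_qOf hf, h]; simp
  have hfne : f ≠ 0 := by rintro rfl; simp at hf0
  have h1 : Lam α f p 1 ≠ 0 := fun e => Lam_self_ne hf hfne hp0 (by rw [key p hp, e]; simp)
  refine ⟨conj (MvPowerSeries.coeff 0 f) / Lam α f p 1,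
    div_ne_zero ((map_ne_zero _).2 hf0) h1, (totalDegree_mul _ _).trans (by simpa using hp),
    fun q hq => ?_⟩
  rw [ip_sub_left (hf.poly_mul _) (memD_one _) (hf.poly_mul _), ip_one_left, coeff_zero_poly_mul]
  change Lam α f _ q - _ = 0
  rw [Lam_C_mul hf, key q hq, map_mul]
  field_simp
  ring

lemma orth (α : ℝ) {a b : Po} {M : ℕ} (ha : a.totalDegree < M) (hb : X 0 ^ M ∣ b) :
    ip α (a : PS) (b : PS) = 0 ∧ ip α (b : PS) (a : PS) = 0 := by
  have key : ∀ d, a.coeff d = 0 ∨ b.coeff d = 0 := by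
    intro d
    by_cases hd : M ≤ d 0
    · left
      by_contra h
      have := (monomial_le_degreeOf 0 (mem_support_iff.2 h)).trans (degreeOf_le_totalDegree a 0)
      omega
    · right
      obtain ⟨c, rfl⟩ := hb
      rw [X_pow_eq_monomial, coeff_monomial_mul', if_neg]
      intro h
      exact hd (by simpa using h 0)
  have h1 : ip α (a : PS) (b : PS) = 0 := by
    unfold ip
    convert tsum_zero with d
    rcases key d with h | h <;> simp [coeff_coe, h]
  exact ⟨h1, by rw [← ip_conj, h1, map_zero]⟩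

lemma Phi_add (α : ℝ) {n : ℕ} {p g h : Po} {M : ℕ} (hp : p.totalDegree ≤ n)
    (hg : g.totalDegree + n < M) (hh : X 0 ^ M ∣ h) :
    Phi α n p ((g + h : Po) : PS) = Phi α n p g + Phi α n p h := by
  funext s
  have hs : (monomial s.1 (1 : ℂ)).totalDegree ≤ n := (totalDegree_monomial_le _ _).trans s.2.2
  simp only [Phi, Lam, Pi.add_apply, ← coe_mul, mul_add]
  rw [coe_add, coe_add, ip_add_left (memD_poly _ _) (memD_poly _ _)
    ((memD_poly _ _).add (memD_poly _ _)),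
    ip_add_right (memD_poly _ _) (memD_poly _ _) (memD_poly _ _),
    ip_add_right (memD_poly _ _) (memD_poly _ _) (memD_poly _ _),
    (orth α (a := p * g) (M := M) ((totalDegree_mul _ _).trans_lt (by omega))
      (hh.mul_left _)).1,
    (orth α (a := monomial s.1 1 * g) (M := M) ((totalDegree_mul _ _).trans_lt (by omega))
      (hh.mul_left _)).2]
  ring

lemma Phi_smul (α : ℝ) (n : ℕ) (p g : Po) {t : ℝ} (ht : 0 ≤ t) :
    Phi α n p ((C (Real.sqrt t : ℂ) * g : Po) : PS) = t • Phi α n p g := by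
  funext s
  have h : (Real.sqrt t : ℂ) * (Real.sqrt t : ℂ) = t := by exact_mod_cast Real.mul_self_sqrt ht
  simp only [Phi, Lam, Pi.smul_apply, coe_C_mul, mul_smul_comm, Complex.real_smul]
  rw [ip_smul_left _ ((memD_poly _ _).poly_mul _) (((memD_poly _ _).poly_mul _).smul _),
    ip_smul_right _ ((memD_poly _ _).poly_mul _) ((memD_poly _ _).poly_mul _), Complex.conj_ofReal,
    ← mul_assoc, h]

/-- the asymptotic range -/
def Asym (α : ℝ) (n : ℕ) (p : Po) : Set (Ix n → ℂ) :=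
  {v | ∀ M : ℕ, ∀ ε : ℝ, 0 < ε → ∃ g : Po, X 0 ^ M ∣ g ∧ ‖Phi α n p g - v‖ < ε}

lemma Asym.smul {α : ℝ} {n : ℕ} {p : Po} {v : Ix n → ℂ} (hv : v ∈ Asym α n p) {t : ℝ}
    (ht : 0 < t) : t • v ∈ Asym α n p := by
  intro M ε hε
  obtain ⟨g, h1, h2⟩ := hv M (ε / t) (div_pos hε ht)
  refine ⟨C (Real.sqrt t : ℂ) * g, h1.mul_left _, ?_⟩
  rw [Phi_smul α n p g ht.le, ← smul_sub, norm_smul, Real.norm_of_nonneg ht.le]
  rwa [lt_div_iff₀' ht] at h2

lemma hull {α : ℝ} {n : ℕ} {p : Po} (hp : p.totalDegree ≤ n) {ε : ℝ} (hε : 0 < ε) (M : ℕ)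
    (F : Finset (Asym α n p)) : ∃ (B : ℕ) (S : Set (Ix n → ℂ)), S.Finite ∧ 0 ∈ S ∧
      (∀ t ∈ F, ∃ s ∈ S, ‖s - t.1‖ < ε) ∧ ∀ x ∈ convexHull ℝ S,
        ∃ g : Po, X 0 ^ M ∣ g ∧ g.totalDegree ≤ B ∧ Phi α n p g = x := by
  classical
  induction F using Finset.induction_on with
  | empty =>
    refine ⟨0, {0}, Set.finite_singleton _, rfl, by simp, fun x hx => ⟨0, dvd_zero _, by simp, ?_⟩⟩
    rw [convexHull_singleton] at hx
    rw [hx]; funext s; simp [Phi, Lam]
  | insert t F _ ih =>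
    obtain ⟨B, S, hS, h0, h1, h2⟩ := ih
    obtain ⟨h, hh1, hh2⟩ := t.2 (max M (B + n + 1)) ε hε
    refine ⟨max B h.totalDegree, insert (Phi α n p h) S, hS.insert _, Or.inr h0, ?_, ?_⟩
    · intro u hu
      rcases Finset.mem_insert.1 hu with rfl | hu
      · exact ⟨_, Or.inl rfl, hh2⟩
      · obtain ⟨s, hs, hs'⟩ := h1 u hu
        exact ⟨s, Or.inr hs, hs'⟩
    · intro x hx
      rw [convexHull_insert ⟨0, h0⟩, mem_convexJoin] at hx
      obtain ⟨_, rfl, y, hy, a, b, ha, hb, -, rfl⟩ := hx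
      obtain ⟨g, hg1, hg2, rfl⟩ := h2 y hy
      have d1 : (C (Real.sqrt b : ℂ) * g).totalDegree ≤ B :=
        (totalDegree_mul _ _).trans (by simpa using hg2)
      have d2 : (C (Real.sqrt a : ℂ) * h).totalDegree ≤ h.totalDegree :=
        (totalDegree_mul _ _).trans (by simp)
      refine ⟨C (Real.sqrt b : ℂ) * g + C (Real.sqrt a : ℂ) * h, dvd_add (hg1.mul_left _)
        (((pow_dvd_pow _ (le_max_left _ _)).trans hh1).mul_left _),
        (totalDegree_add _ _).trans (max_le_max d1 d2), ?_⟩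
      rw [Phi_add α hp (M := B + n + 1) (by omega)
        (((pow_dvd_pow _ (le_max_right _ _)).trans hh1).mul_left _), Phi_smul _ _ _ _ ha,
        Phi_smul _ _ _ _ hb, add_comm]

noncomputable def pair {n : ℕ} (c v : Ix n → ℂ) : ℝ := (∑ s, c s * v s).re

lemma pair_le {n : ℕ} (c v : Ix n → ℂ) : |pair c v| ≤ Fintype.card (Ix n) * (‖c‖ * ‖v‖) := by
  refine (Complex.abs_re_le_norm _).trans ((norm_sum_le _ _).trans ?_)
  refine (Finset.sum_le_card_nsmul _ _ (‖c‖ * ‖v‖) fun s _ => ?_).trans (by simp)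
  rw [norm_mul]
  exact mul_le_mul (norm_le_pi_norm c s) (norm_le_pi_norm v s) (norm_nonneg _) (norm_nonneg _)

lemma pair_sub {n : ℕ} (c v w : Ix n → ℂ) : pair c (v - w) = pair c v - pair c w := by
  simp [pair, mul_sub, Finset.sum_sub_distrib]

lemma pair_smul_right {n : ℕ} (c v : Ix n → ℂ) (t : ℝ) : pair c (t • v) = t * pair c v := by
  simp only [pair, Pi.smul_apply, Complex.real_smul, ← Complex.re_ofReal_mul, Finset.mul_sum]
  congr 1
  exact Finset.sum_congr rfl fun s _ => by ring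

lemma pair_smul_left {n : ℕ} (c v : Ix n → ℂ) (t : ℝ) : pair (t • c) v = t * pair c v := by
  simp only [pair, Pi.smul_apply, Complex.real_smul, ← Complex.re_ofReal_mul, Finset.mul_sum]
  congr 1
  exact Finset.sum_congr rfl fun s _ => by ring

theorem exists_opa {α : ℝ} {n : ℕ} {p : Po} (hp : p.totalDegree ≤ n) (hp0 : p ≠ 0)
    (hV : ∀ c : Ix n → ℂ, c ≠ 0 → ∃ v ∈ Asym α n p, pair c v < 0) :
    ∃ (f : PS) (c : ℂ), MemD α f ∧ f ≠ 0 ∧ c ≠ 0 ∧ IsOPA α n f (C c * p) := by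
  have hcov : Metric.sphere (0 : Ix n → ℂ) 1 ⊆ ⋃ v : Asym α n p, {c | pair c v.1 < -1} := by
    intro c hc
    have hc0 : c ≠ 0 := by rintro rfl; simp at hc
    obtain ⟨v, hv, hlt⟩ := hV c hc0
    have hpos : 0 < 2 / -pair c v := div_pos two_pos (neg_pos.2 hlt)
    refine Set.mem_iUnion.2 ⟨⟨_, Asym.smul hv hpos⟩, ?_⟩
    have : 2 / -pair c v * pair c v = -2 := by
      have := hlt.ne
      field_simp
    simp only [Set.mem_ofPred_eq, pair_smul_right, this]; norm_num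
  obtain ⟨F, hF⟩ := (isCompact_sphere (0 : Ix n → ℂ) 1).elim_finite_subcover _
    (fun v => isOpen_lt (by unfold pair; fun_prop) continuous_const) hcov
  set K : ℝ := (Fintype.card (Ix n) : ℝ) with hK
  have hK0 : 0 ≤ K := Nat.cast_nonneg _
  obtain ⟨B, S, hS, h0, h1, h2⟩ := hull hp (ε := 1 / (2 * (K + 1))) (by positivity) (n + 1) F
  set w := Phi α n p ((1 : Po) : PS) with hw
  set δ : ℝ := 1 / (2 * (K + 1) * (‖w‖ + 1)) with hδ
  have hδ0 : 0 < δ := by positivity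
  have hmem : (-δ) • w ∈ convexHull ℝ S := by
    by_contra hn
    obtain ⟨L, u, hu1, hu2⟩ := RCLike.geometric_hahn_banach_point_closed (𝕜 := ℂ)
      (convex_convexHull ℝ S) (hS.isClosed_convexHull ℝ) hn
    let c : Ix n → ℂ := fun s => L (Pi.single s 1)
    have hL : ∀ v, RCLike.re (L v) = pair c v := fun v => by
      have := LinearMap.pi_apply_eq_sum_univ (L : (Ix n → ℂ) →ₗ[ℂ] ℂ) v
      simp only [ContinuousLinearMap.coe_coe, smul_eq_mul] at this
      rw [this, pair, RCLike.re_to_complex]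
      congr 1
      refine Finset.sum_congr rfl fun s _ => ?_
      rw [mul_comm]
      congr 2
      funext j
      simp [Pi.single_apply, eq_comm]
    simp only [hL] at hu1 hu2
    have hc0 : c ≠ 0 := by
      intro e
      have := hu2 0 (subset_convexHull _ _ h0)
      simp [e, pair] at hu1 this
      linarith
    have hcn : 0 < ‖c‖ := norm_pos_iff.2 hc0
    have hc1 : ‖(‖c‖⁻¹ : ℝ) • c‖ = 1 := by
      rw [norm_smul, norm_inv, norm_norm, inv_mul_cancel₀ hcn.ne']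
    obtain ⟨t, ht⟩ := Set.mem_iUnion.1 (hF (mem_sphere_zero_iff_norm.2 hc1))
    obtain ⟨htF, ht⟩ := Set.mem_iUnion.1 ht
    obtain ⟨s, hs, hst⟩ := h1 t htF
    have a1 : pair c ((-δ) • w) < pair c s := hu1.trans (hu2 s (subset_convexHull _ _ hs))
    have a2 : pair ((‖c‖⁻¹ : ℝ) • c) ((-δ) • w) < pair ((‖c‖⁻¹ : ℝ) • c) s := by
      rw [pair_smul_left, pair_smul_left]
      exact mul_lt_mul_of_pos_left a1 (inv_pos.2 hcn)
    have a3 := pair_le ((‖c‖⁻¹ : ℝ) • c) (s - t.1)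
    have a4 := pair_le ((‖c‖⁻¹ : ℝ) • c) ((-δ) • w)
    rw [hc1, one_mul, ← hK] at a3 a4
    rw [pair_sub] at a3
    rw [norm_smul, norm_neg, Real.norm_of_nonneg hδ0.le] at a4
    have a5 : K * ‖s - t.1‖ ≤ 1 / 2 := by
      rw [lt_div_iff₀ (by positivity)] at hst
      nlinarith [norm_nonneg (s - t.1)]
    have a6 : K * (δ * ‖w‖) ≤ 1 / 2 := by
      have : δ * (2 * (K + 1) * (‖w‖ + 1)) = 1 := by rw [hδ]; field_simp
      nlinarith [norm_nonneg w, mul_nonneg hδ0.le hK0, mul_nonneg hδ0.le (norm_nonneg w)]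
    have a7 : pair ((‖c‖⁻¹ : ℝ) • c) t.1 < -1 := ht
    linarith [(abs_le.1 a3).2, (abs_le.1 a4).1]
  obtain ⟨g, hg1, -, hg2⟩ := h2 _ hmem
  have hPhi : Phi α n p ((C (Real.sqrt δ : ℂ) * 1 + g : Po) : PS) = 0 := by
    rw [Phi_add α hp (M := n + 1) (by simp) hg1, Phi_smul _ _ _ _ hδ0.le, hg2, ← hw, neg_smul,
      add_neg_cancel]
  have hc : MvPowerSeries.coeff 0 ((C (Real.sqrt δ : ℂ) * 1 + g : Po) : PS) ≠ 0 := by
    obtain ⟨k, rfl⟩ := hg1
    rw [coeff_coe, coeff_add, coeff_zero_mul (X 0 ^ _), pow_succ, coeff_zero_mul (X 0 ^ _)]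
    simpa using (Real.sqrt_pos.2 hδ0).ne'
  obtain ⟨c, hc0, hopa⟩ := isOPA_of_Phi (memD_poly α _) hc hp hp0 hPhi
  exact ⟨_, c, memD_poly α _, fun e => hc (by rw [e, map_zero]), hc0, hopa⟩

/-- inner product with a general weight -/
noncomputable def ipw (ω : Ex → ℝ) (f g : PS) : ℂ :=
  ∑' d, MvPowerSeries.coeff d f * conj (MvPowerSeries.coeff d g) * (ω d : ℂ)

lemma mem_asym (α : ℝ) (n : ℕ) (p g : Po) (σ : ℕ → Ex) (hσ : ∀ N, N ≤ σ N 0) (ω : Ex → ℝ)
    (hω : ∀ d, Tendsto (fun N => (wt α (σ N))⁻¹ * wt α (σ N + d)) atTop (𝓝 (ω d))) :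
    (fun s : Ix n => ipw ω ((p * g : Po) : PS) ((monomial s.1 1 * g : Po) : PS)) ∈
      Asym α n p := by
  intro M ε hε
  have hlim : Tendsto (fun N => Phi α n p
      ((C (Real.sqrt (wt α (σ N))⁻¹ : ℂ) * (monomial (σ N) 1 * g) : Po) : PS)) atTop
      (𝓝 fun s : Ix n => ipw ω ((p * g : Po) : PS) ((monomial s.1 1 * g : Po) : PS)) := by
    refine tendsto_pi_nhds.2 fun s => ?_
    have e : ∀ N, Phi α n p
        ((C (Real.sqrt (wt α (σ N))⁻¹ : ℂ) * (monomial (σ N) 1 * g) : Po) : PS) s =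
        ∑ d ∈ (p * g).support, (p * g).coeff d * conj ((monomial s.1 1 * g).coeff d) *
          (((wt α (σ N))⁻¹ * wt α (σ N + d) : ℝ) : ℂ) := fun N => by
      rw [Phi_smul _ _ _ _ (inv_pos.2 (wt_pos _ _)).le]
      simp only [Pi.smul_apply, Phi, Lam, coe_mul, coe_monomial]
      rw [mul_left_comm, mul_left_comm (MvPowerSeries.monomial s.1 1), ip_shift,
        tsum_eq_sum (s := (p * g).support), Complex.real_smul, Finset.mul_sum]
      · refine Finset.sum_congr rfl fun d _ => ?_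
        rw [← coe_monomial, ← coe_mul, ← coe_mul, coeff_coe, coeff_coe]
        push_cast; ring
      · intro d hd
        rw [← coe_mul, coeff_coe, notMem_support_iff.1 hd]; simp
    simp only [e]
    rw [ipw, tsum_eq_sum (s := (p * g).support)]
    · refine tendsto_finsetSum _ fun d _ => ?_
      rw [coeff_coe, coeff_coe]
      exact ((Complex.continuous_ofReal.tendsto _).comp (hω d)).const_mul _
    · intro d hd
      rw [coeff_coe, notMem_support_iff.1 hd]; simp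
  rw [tendsto_iff_norm_sub_tendsto_zero] at hlim
  obtain ⟨N, h1, h2⟩ := ((hlim.eventually (gt_mem_nhds hε)).and (eventually_ge_atTop M)).exists
  refine ⟨_, Dvd.dvd.mul_left (Dvd.dvd.mul_right ?_ _) _, h1⟩
  rw [X_pow_eq_monomial]
  refine (monomial_dvd_monomial).2 ⟨Or.inr ?_, dvd_refl _⟩
  exact Finsupp.single_le_iff.2 (h2.trans (hσ N))

lemma tendsto_ratio (k : ℕ) :
    Tendsto (fun N : ℕ => (((N + k : ℕ) : ℝ) + 1) / ((N : ℝ) + 1)) atTop (𝓝 1) := by
  have h := (tendsto_one_div_add_atTop_nhds_zero_nat (𝕜 := ℝ)).const_mul (k : ℝ)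
  have h2 := h.const_add 1
  simp only [mul_zero, add_zero] at h2
  refine h2.congr fun N => ?_
  push_cast
  field_simp
  ring

lemma tendsto_diag (α : ℝ) (d : Ex) :
    Tendsto (fun N => (wt α (Nn N))⁻¹ * wt α (Nn N + d)) atTop (𝓝 (wt 0 d)) := by
  have h := ((tendsto_ratio (d 0)).mul (tendsto_ratio (d 1))).rpow_const (p := α)
    (Or.inl (by norm_num))
  simp only [mul_one, Real.one_rpow] at h
  rw [wt_hardy]
  refine h.congr fun N => ?_
  rw [div_mul_div_comm, Real.div_rpow (by positivity) (by positivity), div_eq_inv_mul]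
  simp [wt, Nn]

theorem exists_opa_of_noCert (α : ℝ) {n : ℕ} {p : Po} (hp : p.totalDegree ≤ n) (hp0 : p ≠ 0)
    (h : NoCert n p) :
    ∃ (f : PS) (c : ℂ), MemD α f ∧ f ≠ 0 ∧ c ≠ 0 ∧ IsOPA α n f (C c * p) := by
  refine exists_opa hp hp0 fun c hc => ?_
  have hq : qOf c ≠ 0 := by
    intro e
    refine hc (funext fun s => ?_)
    have := coeff_qOf c s
    rw [e, coeff_zero] at this
    simpa using this.symm
  have := mt (h (qOf c) (deg_qOf c) (coeff_qOf_of_not c (by simp))) hq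
  push Not at this
  obtain ⟨z, hz, hlt⟩ := this
  obtain ⟨g, hg⟩ := exists_poly_neg p (qOf c) hz hlt
  refine ⟨_, mem_asym α n p g Nn (fun N => by simp [Nn]) _ (tendsto_diag α), ?_⟩
  rw [Lam_qOf (memD_poly _ _)] at hg
  simpa only [pair, Phi, Lam, coe_mul, ip, ipw] using hg

end Pool.Agent.Lib.MP_e9e3a0_an
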