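import Pool.Agent.Lib.MP_e9e3a0_an.Lines

/-! Polynomials on the exterior of the bidisk: no certificate exists when every irreducible factor
has a zero there. -/

set_option autoImplicit false

namespace Pool.Agent.Lib.MP_e9e3a0_an

open ComplexConjugate Filter Topology MvPolynomial

/-- the exterior of the bidisk -/
def Ext : Set (Fin 2 → ℂ) := {z | ∀ i, 1 < ‖z i‖}

lemma isOpen_Ext : IsOpen Ext := by
  have : Ext = ⋂ i, {z : Fin 2 → ℂ | 1 < ‖z i‖} := by ext z; simp [Ext]
  rw [this]
  exact isOpen_iInter_of_finite fun i => isOpen_lt continuous_const (by fun_prop)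

lemma diff_eval (p : Po) : Differentiable ℂ (fun z : Fin 2 → ℂ => eval z p) := fun z =>
  (AnalyticOnNhd.eval_mvPolynomial p z (Set.mem_univ z)).differentiableAt

lemma inf_nhds {a : ℂ} {s : Set ℂ} (h : s ∈ 𝓝 a) : s.Infinite :=
  _root_.infinite_of_mem_nhds a h

lemma poly_zero_of_eventually {r : Po} {z : Fin 2 → ℂ} (h : ∀ᶠ y in 𝓝 z, eval y r = 0) :
    r = 0 := by
  obtain ⟨ε, hε, hb⟩ := Metric.eventually_nhds_iff_ball.1 h
  refine funext_set (fun i => Metric.ball (z i) ε)
    (fun i => inf_nhds (Metric.ball_mem_nhds _ hε)) fun y hy => ?_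
  rw [map_zero]
  refine hb y ?_
  rw [ball_pi _ hε]
  exact hy

lemma nonneg_of_dense {φ : (Fin 2 → ℂ) → ℝ} (hφ : Continuous φ) {r : Po} (hr : r ≠ 0)
    (h : ∀ z ∈ Ext, eval z r ≠ 0 → 0 ≤ φ z) : ∀ z ∈ Ext, 0 ≤ φ z := by
  intro z hz
  by_contra hneg
  refine hr (poly_zero_of_eventually (z := z) ?_)
  filter_upwards [isOpen_Ext.mem_nhds hz,
    (hφ.tendsto z).eventually (gt_mem_nhds (not_le.1 hneg))] with y h1 h2
  by_contra h3
  exact absurd (h y h1 h3) (not_le.2 h2)

lemma zero_of_zero {p q : Po} (hp : p ≠ 0)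
    (h : ∀ z ∈ Ext, 0 ≤ (eval z p * conj (eval z q)).re) {z : Fin 2 → ℂ} (hz : z ∈ Ext)
    (h0 : eval z p = 0) : eval z q = 0 := by
  by_contra hq
  have hne : ∀ᶠ y in 𝓝 z, eval y p + eval y q ≠ 0 := by
    refine ContinuousAt.eventually_ne
      ((diff_eval p).continuous.add (diff_eval q).continuous).continuousAt ?_
    simpa [h0] using hq
  have hz1 : eval z q / (eval z p + eval z q) = 1 := by rw [h0, zero_add, div_self hq]
  have key := Complex.eventually_eq_of_isLocalMax_norm
    (f := fun y => eval y q / (eval y p + eval y q)) (c := z)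
    (hne.mono fun y hy => by
      have h1 : DifferentiableAt ℂ (fun y : Fin 2 → ℂ => eval y p + eval y q) y :=
        (diff_eval p y).add (diff_eval q y)
      simp only [div_eq_mul_inv]
      exact (diff_eval q y).mul (h1.inv hy)) (by
      filter_upwards [isOpen_Ext.mem_nhds hz, hne] with y h1 h2
      simp only [Function.comp, hz1, norm_one, norm_div]
      rw [div_le_one (norm_pos_iff.2 h2), ← sq_le_sq₀ (norm_nonneg _) (norm_nonneg _),
        Complex.sq_norm, Complex.sq_norm, Complex.normSq_add]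
      have := h y h1
      have := Complex.normSq_nonneg (eval y p)
      linarith)
  refine hp (poly_zero_of_eventually (z := z) ?_)
  filter_upwards [key, hne] with y h1 h2
  rw [hz1, div_eq_one_iff_eq h2] at h1
  linear_combination -h1

/-- zeros persist under a small change of a parameter -/
lemma persist {F : ℂ → ℂ → ℂ} (hc : Continuous fun x : ℂ × ℂ => F x.1 x.2)
    (hd : ∀ w, Differentiable ℂ fun t => F t w) {a b : ℂ} (h0 : F a b = 0)
    (hne : ∃ t, F t b ≠ 0) {ε : ℝ} (hε : 0 < ε) :
    ∀ᶠ w in 𝓝 b, ∃ t ∈ Metric.ball a ε, F t w = 0 := by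
  have han : AnalyticOnNhd ℂ (fun t => F t b) Set.univ :=
    (hd b).differentiableOn.analyticOnNhd isOpen_univ
  have hiso : ∀ᶠ t in 𝓝[≠] a, F t b ≠ 0 := by
    refine ((han a trivial).eventually_eq_zero_or_eventually_ne_zero).resolve_left fun h => ?_
    obtain ⟨t, ht⟩ := hne
    exact ht (han.eqOn_zero_of_preconnected_of_eventuallyEq_zero isPreconnected_univ
      (Set.mem_univ a) h (Set.mem_univ t))
  obtain ⟨δ₀, hδ₀, hb⟩ := Metric.eventually_nhds_iff.1 (eventually_nhdsWithin_iff.1 hiso)
  set δ := min ε δ₀ / 2 with hδ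
  have hm : 0 < min ε δ₀ := lt_min hε hδ₀
  have hδ0 : 0 < δ := by positivity
  have hδ1 : δ < ε := by have := min_le_left ε δ₀; linarith
  have hδ2 : δ < δ₀ := by have := min_le_right ε δ₀; linarith
  have hcb : Continuous fun t => ‖F t b‖ := (hd b).continuous.norm
  obtain ⟨t₀, ht₀, hmin⟩ := (isCompact_sphere a δ).exists_isMinOn
    (NormedSpace.sphere_nonempty.2 hδ0.le) hcb.continuousOn
  have hm0 : 0 < ‖F t₀ b‖ := by
    rw [Metric.mem_sphere] at ht₀
    refine norm_pos_iff.2 (hb (by rw [ht₀]; exact hδ2) ?_)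
    rintro rfl
    rw [dist_self] at ht₀
    exact hδ0.ne ht₀
  set m := ‖F t₀ b‖ / 2 with hmdef
  have hmpos : 0 < m := by positivity
  have h1 : ∀ᶠ w in 𝓝 b, ∀ t ∈ Metric.sphere a δ, m < ‖F t w‖ := by
    refine (isCompact_sphere a δ).eventually_forall_of_forall_eventually fun t ht => ?_
    have hc2 : Continuous fun x : ℂ × ℂ => ‖F x.2 x.1‖ := (hc.comp continuous_swap).norm
    refine (hc2.tendsto (b, t)).eventually (lt_mem_nhds ?_)
    have : ‖F t₀ b‖ ≤ ‖F t b‖ := hmin ht
    change m < ‖F t b‖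
    linarith
  have h2 : ∀ᶠ w in 𝓝 b, ‖F a w‖ < m := by
    have hc2 : Continuous fun w => ‖F a w‖ :=
      (hc.comp (continuous_const.prodMk continuous_id)).norm
    refine (hc2.tendsto b).eventually (gt_mem_nhds ?_)
    rw [h0, norm_zero]; exact hmpos
  filter_upwards [h1, h2] with w h1 h2
  by_contra hno
  have hnz : ∀ t ∈ Metric.closedBall a δ, F t w ≠ 0 := fun t ht e =>
    hno ⟨t, Metric.closedBall_subset_ball hδ1 ht, e⟩
  have hdc : DiffContOnCl ℂ (fun t => (F t w)⁻¹) (Metric.ball a δ) := by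
    refine DifferentiableOn.diffContOnCl ?_
    rw [closure_ball _ hδ0.ne']
    exact (hd w).differentiableOn.inv hnz
  have h3 := Complex.norm_le_of_forall_mem_frontier_norm_le Metric.isBounded_ball hdc (C := m⁻¹)
    (fun t ht => by
      rw [frontier_ball _ hδ0.ne'] at ht
      rw [norm_inv]
      exact inv_anti₀ hmpos (h1 t ht).le) (subset_closure (Metric.mem_ball_self hδ0))
  rw [norm_inv, inv_le_inv₀ (norm_pos_iff.2 (hnz a (Metric.mem_closedBall_self hδ0.le))) hmpos]
    at h3
  linarith

lemma persist₀ (P : Po) {a b : ℂ} (h0 : eval ![a, b] P = 0) (hne : ∃ t, eval ![t, b] P ≠ 0)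
    {ε : ℝ} (hε : 0 < ε) : ∀ᶠ w in 𝓝 b, ∃ t ∈ Metric.ball a ε, eval ![t, w] P = 0 := by
  refine persist (F := fun t w => eval ![t, w] P) ((diff_eval P).continuous.comp ?_)
    (fun w => (diff_eval P).comp ?_) h0 hne hε
  · exact continuous_pi fun i => by fin_cases i <;> simp <;> fun_prop
  · exact differentiable_pi.2 fun i => by fin_cases i <;> simp

lemma persist₁ (P : Po) {a b : ℂ} (h0 : eval ![b, a] P = 0) (hne : ∃ t, eval ![b, t] P ≠ 0)
    {ε : ℝ} (hε : 0 < ε) : ∀ᶠ w in 𝓝 b, ∃ t ∈ Metric.ball a ε, eval ![w, t] P = 0 := by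
  refine persist (F := fun t w => eval ![w, t] P) ((diff_eval P).continuous.comp ?_)
    (fun w => (diff_eval P).comp ?_) h0 hne hε
  · exact continuous_pi fun i => by fin_cases i <;> simp <;> fun_prop
  · exact differentiable_pi.2 fun i => by fin_cases i <;> simp

lemma slice_zero {F : ℂ → ℂ} (hd : Differentiable ℂ F) {a : ℂ} (h : ∀ᶠ t in 𝓝[≠] a, F t = 0)
    (t : ℂ) : F t = 0 :=
  (hd.differentiableOn.analyticOnNhd isOpen_univ).eqOn_zero_of_preconnected_of_frequently_eq_zero
    isPreconnected_univ (Set.mem_univ a) h.frequently (Set.mem_univ t)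

lemma diff_slice₀ (P : Po) (w : ℂ) : Differentiable ℂ fun t => eval ![t, w] P :=
  (diff_eval P).comp (differentiable_pi.2 fun i => by fin_cases i <;> simp)

lemma diff_slice₁ (P : Po) (w : ℂ) : Differentiable ℂ fun t => eval ![w, t] P :=
  (diff_eval P).comp (differentiable_pi.2 fun i => by fin_cases i <;> simp)

lemma vec_eta (z : Fin 2 → ℂ) : z = ![z 0, z 1] := by
  funext i; fin_cases i <;> rfl

lemma eval_cons (t w : ℂ) (P : Po) : eval ![t, w] P =
    Polynomial.eval t (Polynomial.map (eval ![w]) (finSuccEquiv ℂ 1 P)) :=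
  eval_eq_eval_mv_eval' ![w] t P

lemma dvd_of_zeros {r q : Po} (hr : Irreducible r) {z : Fin 2 → ℂ} (hz : z ∈ Ext)
    (h0 : eval z r = 0) (h : ∀ y ∈ Ext, eval y r = 0 → eval y q = 0) : r ∣ q := by
  have hball : ∀ᶠ t in 𝓝 (z 0), 1 < ‖t‖ :=
    (continuous_norm.tendsto _).eventually (lt_mem_nhds (hz 0))
  by_cases hs : ∃ t, eval ![t, z 1] r ≠ 0
  · obtain ⟨ε, hε, hb⟩ := Metric.eventually_nhds_iff_ball.1 hball
    have hper := persist₀ r (a := z 0) (b := z 1) (by rw [← vec_eta z]; exact h0) hs hε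
    have hw : ∀ᶠ w in 𝓝 (z 1), 1 < ‖w‖ :=
      (continuous_norm.tendsto _).eventually (lt_mem_nhds (hz 1))
    set A := MvPolynomial (Fin 1) ℂ
    set r' := finSuccEquiv ℂ 1 r with hr'
    set q' := finSuccEquiv ℂ 1 q with hq'
    have hirr : Irreducible r' := (MulEquiv.irreducible_iff (finSuccEquiv ℂ 1).toMulEquiv).2 hr
    have hdeg : r'.natDegree ≠ 0 := by
      intro e
      obtain ⟨t, ht⟩ := hs
      refine ht ?_
      rw [vec_eta z, eval_cons, ← hr', Polynomial.eq_C_of_natDegree_eq_zero e] at h0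
      rw [eval_cons, ← hr', Polynomial.eq_C_of_natDegree_eq_zero e]
      simpa using h0
    obtain ⟨u, v, -, -, huv⟩ := Polynomial.exists_mul_add_mul_eq_C_resultant r' q' le_rfl le_rfl
      (Or.inl hdeg)
    have hres : r'.resultant q' r'.natDegree q'.natDegree = 0 := by
      refine funext_set (fun _ => {w | ∃ t ∈ Metric.ball (z 0) ε, eval ![t, w] r = 0} ∩
        {w | 1 < ‖w‖}) (fun _ => inf_nhds (inter_mem hper hw)) fun x hx => ?_
      obtain ⟨⟨t, ht, h1⟩, h2⟩ := hx 0 trivial
      have h3 : eval ![t, x 0] q = 0 := h _ (fun i => by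
        fin_cases i
        · exact hb t ht
        · exact h2) h1
      have ex : x = ![x 0] := by funext i; fin_cases i; rfl
      have h4 := congrArg (fun P => Polynomial.eval t (Polynomial.map (eval ![x 0]) P)) huv
      simp only [Polynomial.map_add, Polynomial.map_mul, Polynomial.eval_add, Polynomial.eval_mul,
        Polynomial.map_C, Polynomial.eval_C] at h4
      rw [eval_cons] at h1 h3
      rw [h1, h3, zero_mul, zero_mul, add_zero] at h4
      rw [ex, ← h4, map_zero]
    have hprim := hirr.isPrimitive hdeg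
    have hinj := IsFractionRing.injective A (FractionRing A)
    have hirr2 := (hprim.irreducible_iff_irreducible_map_fraction_map (K := FractionRing A)).1 hirr
    have hnc : ¬ IsCoprime (r'.map (algebraMap A (FractionRing A)))
        (q'.map (algebraMap A (FractionRing A))) := by
      refine (Polynomial.resultant_eq_zero_iff.1 ?_).2
      rw [Polynomial.natDegree_map_eq_of_injective hinj,
        Polynomial.natDegree_map_eq_of_injective hinj, Polynomial.resultant_map_map, hres, map_zero]
    have hdvd : r' ∣ q' := hprim.dvd_of_fraction_map_dvd_fraction_map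
      (hirr2.dvd_iff_not_isCoprime.2 hnc)
    exact (map_dvd_iff (finSuccEquiv ℂ 1).toMulEquiv).1 hdvd
  · push Not at hs
    have hl : ∀ P : Po, (∀ t, eval ![t, z 1] P = 0) → lin (-z 1) 0 1 ∣ P := fun P hP =>
      lin_dvd (Or.inr one_ne_zero) fun y hy => by
        have : y 1 = z 1 := by
          simp only [Line, Set.mem_ofPred_eq] at hy
          linear_combination hy
        change eval y P = 0
        rw [vec_eta y, this]
        exact hP _
    have hq : ∀ t, eval ![t, z 1] q = 0 := slice_zero (diff_slice₀ q _) (a := z 0)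
      ((hball.filter_mono nhdsWithin_le_nhds).mono fun t ht => h _ (fun i => by
        fin_cases i
        · exact ht
        · exact hz 1) (hs t))
    obtain ⟨c, hc⟩ := hl r hs
    have hu : IsUnit c := (hr.isUnit_or_isUnit hc).resolve_left fun hu => by
      have h1 := deg_lin (a := -z 1) (b := 0) (c := 1) (Or.inr one_ne_zero)
      rw [(isUnit_iff_totalDegree_of_isReduced.1 hu).2] at h1
      exact zero_ne_one h1
    rw [hc]
    exact hu.mul_right_dvd.2 (hl q hq)

lemma dvd_of_cert (p : Po) : p ≠ 0 → (∀ r, Irreducible r → r ∣ p → ∃ z ∈ Ext, eval z r = 0) →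
    ∀ q : Po, (∀ z ∈ Ext, 0 ≤ (eval z p * conj (eval z q)).re) → p ∣ q := by
  induction p using UniqueFactorizationMonoid.induction_on_prime with
  | h₁ => exact fun h => absurd rfl h
  | h₂ x hx => exact fun _ _ q _ => hx.dvd
  | h₃ a r ha hr ih =>
    intro hp hf q hq
    obtain ⟨z, hz, h0⟩ := hf r hr.irreducible (dvd_mul_right _ _)
    obtain ⟨q', rfl⟩ := dvd_of_zeros (q := q) hr.irreducible hz h0 fun y hy h1 =>
      zero_of_zero hp hq hy (by rw [map_mul, h1, zero_mul])
    refine mul_dvd_mul_left r (ih ha (fun s hs hd => hf s hs (hd.mul_left _)) q' ?_)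
    refine nonneg_of_dense (Complex.continuous_re.comp ((diff_eval a).continuous.mul
      (Complex.continuous_conj.comp (diff_eval q').continuous))) hr.ne_zero fun y hy hne => ?_
    have h1 := hq y hy
    have e : eval y (r * a) * conj (eval y (r * q')) =
        (Complex.normSq (eval y r) : ℂ) * (eval y a * conj (eval y q')) := by
      rw [map_mul, map_mul, map_mul, ← Complex.mul_conj]; ring
    rw [e, Complex.re_ofReal_mul] at h1
    exact nonneg_of_mul_nonneg_right h1 (Complex.normSq_pos.2 hne)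

/-- dilation of the variables -/
noncomputable def sc (a : Fin 2 → ℂ) : Po →ₐ[ℂ] Po := aeval fun i => C (a i) * X i

lemma sc_monomial (a : Fin 2 → ℂ) (s : Ex) (c : ℂ) :
    sc a (monomial s c) = monomial s (c * ∏ i, a i ^ s i) := by
  rw [sc, aeval_monomial, monomial_eq, Finsupp.prod_fintype _ _ (by simp),
    Finsupp.prod_fintype _ _ (by simp)]
  simp only [mul_pow, Finset.prod_mul_distrib, algebraMap_eq, map_mul, map_prod, map_pow]
  ring

lemma coeff_sc (a : Fin 2 → ℂ) (p : Po) (d : Ex) :
    (sc a p).coeff d = p.coeff d * ∏ i, a i ^ d i := by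
  induction p using MvPolynomial.induction_on' with
  | monomial s c =>
    rw [sc_monomial, coeff_monomial, coeff_monomial]
    split_ifs with h
    · rw [h]
    · rw [zero_mul]
  | add p q hp hq => rw [map_add, coeff_add, coeff_add, hp, hq, add_mul]

lemma eval_sc (a z : Fin 2 → ℂ) (p : Po) : eval z (sc a p) = eval (a * z) p := by
  induction p using MvPolynomial.induction_on with
  | C c => simp [sc]
  | add p q hp hq => simp only [map_add, hp, hq]
  | mul_X p i hp => simp only [map_mul, hp]; simp [sc]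

theorem noCertExt {p q : Po} (hp0 : p.coeff 0 ≠ 0)
    (hf : ∀ r, Irreducible r → r ∣ p → ∃ z ∈ Ext, eval z r = 0) (hq0 : q.coeff 0 = 0)
    (hq : ∀ z ∈ Ext, 0 ≤ (eval z p * conj (eval z q)).re) : q = 0 := by
  have hp : p ≠ 0 := by rintro rfl; simp at hp0
  obtain ⟨s, rfl⟩ := dvd_of_cert p hp hf q hq
  rw [coeff_zero_mul] at hq0
  have hs0 : s.coeff 0 = 0 := (mul_eq_zero.1 hq0).resolve_left hp0
  have hs : ∀ z ∈ Ext, 0 ≤ (conj (eval z s)).re := by
    refine nonneg_of_dense (Complex.continuous_re.comp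
      (Complex.continuous_conj.comp (diff_eval s).continuous)) hp fun y hy hne => ?_
    have h1 := hq y hy
    rw [map_mul, map_mul, ← mul_assoc, Complex.mul_conj, Complex.re_ofReal_mul] at h1
    exact nonneg_of_mul_nonneg_right h1 (Complex.normSq_pos.2 hne)
  have h2 : sc (fun _ => 2) s = 0 := by
    refine noCert_of_stable (n := (sc (fun _ => 2) s).totalDegree) (p := 1) (by simp) _ le_rfl
      (by rw [coeff_sc, hs0, zero_mul]) fun z hz => ?_
    rw [map_one, one_mul, eval_sc]
    exact hs _ fun i => by simp [hz i]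
  have h3 : s = 0 := by
    ext d
    have := coeff_sc (fun _ => 2) s d
    rw [h2, coeff_zero] at this
    exact (mul_eq_zero.1 this.symm).resolve_right
      (Finset.prod_ne_zero_iff.2 fun i _ => pow_ne_zero _ two_ne_zero)
  rw [h3, mul_zero]

end Pool.Agent.Lib.MP_e9e3a0_an
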