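import Pool.Agent.Lib.MP_e9e3a0_an.ExtA

/-! Division by a polynomial without zeros on the closed bidisk in the Hardy space, and positivity
of truncated forms. -/

set_option autoImplicit false

namespace Pool.Agent.Lib.MP_e9e3a0_an

open ComplexConjugate Filter Topology MvPolynomial

/-- the power series with a given square summable coefficient family -/
def toPS (v : H) : PS := fun d => (v : Ex → ℂ) d

lemma sq_toPS (v : H) : sq 0 (toPS v) = (v : Ex → ℂ) := by
  funext d
  simp only [sq, wt_hardy, Real.sqrt_one, Complex.ofReal_one, mul_one]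
  rfl

lemma memD_toPS (v : H) : MemD 0 (toPS v) := by
  rw [memD_iff, sq_toPS]
  exact lp.memℓp v

lemma J_toPS (v : H) : J 0 (toPS v) = v := by
  ext d
  rw [J_apply (memD_toPS v), sq_toPS]

lemma toPS_J {f : PS} (hf : MemD 0 f) : toPS (J 0 f) = f := by
  ext d
  change (J 0 f : Ex → ℂ) d = _
  rw [J_apply hf]
  simp [sq]

lemma toPS_add (v w : H) : toPS (v + w) = toPS v + toPS w := rfl

lemma toPS_smul (c : ℂ) (v : H) : toPS (c • v) = c • toPS v := rfl

/-- multiplication by a polynomial on the Hardy space -/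
noncomputable def mulOp (p : Po) : H →L[ℂ] H :=
  LinearMap.mkContinuousOfExistsBound
    { toFun := fun v => J 0 ((p : PS) * toPS v)
      map_add' := fun v w => by
        rw [toPS_add, mul_add, J_add ((memD_toPS v).poly_mul p) ((memD_toPS w).poly_mul p)]
      map_smul' := fun c v => by
        rw [toPS_smul, mul_smul_comm, J_smul c ((memD_toPS v).poly_mul p)]; rfl }
    (by
      obtain ⟨K, -, hK⟩ := poly_bound 0 p
      refine ⟨K, fun v => ?_⟩
      have := (hK _ (memD_toPS v)).2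
      rwa [J_toPS] at this)

lemma mulOp_apply (p : Po) (v : H) : mulOp p v = J 0 ((p : PS) * toPS v) := rfl

/-- multiplication operators as an algebra homomorphism -/
noncomputable def mulHom : Po →ₐ[ℂ] (H →L[ℂ] H) where
  toFun := mulOp
  map_one' := by
    ext1 v
    rw [mulOp_apply, coe_one, one_mul, J_toPS]; rfl
  map_mul' p q := by
    ext1 v
    rw [mul_apply_eq_comp, mulOp_apply, mulOp_apply, mulOp_apply,
      toPS_J ((memD_toPS v).poly_mul q), coe_mul, mul_assoc]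
  map_zero' := by
    ext1 v
    rw [mulOp_apply, coe_zero, zero_mul, J_zero]; rfl
  map_add' p q := by
    ext1 v
    rw [add_apply, mulOp_apply, mulOp_apply, mulOp_apply, coe_add, add_mul,
      J_add ((memD_toPS v).poly_mul p) ((memD_toPS v).poly_mul q)]
  commutes' c := by
    ext1 v
    rw [mulOp_apply, algebraMap_eq, coe_C, ← MvPowerSeries.smul_eq_C_mul,
      J_smul c (memD_toPS v), J_toPS, Algebra.algebraMap_eq_smul_one]
    rfl

lemma norm_mulHom_X (i : Fin 2) : ‖mulHom (X i)‖ ≤ 1 := by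
  refine ContinuousLinearMap.opNorm_le_bound _ zero_le_one fun v => ?_
  have := norm_X_le (α := 0) le_rfl i (memD_toPS v)
  rw [J_toPS, zero_div, Real.rpow_zero] at this
  change ‖J 0 (((X i : Po) : PS) * toPS v)‖ ≤ _
  rwa [coe_X]

lemma gelfand_comm {A : Type} [NormedCommRing A] [NormedAlgebra ℂ A] [CompleteSpace A]
    (ι : Po →ₐ[ℂ] A) (h1 : ‖(1 : A)‖ ≤ 1) (hX : ∀ i, ‖ι (X i)‖ ≤ 1) {B : Po}
    (hB : ∀ z : Fin 2 → ℂ, (∀ i, ‖z i‖ ≤ 1) → eval z B ≠ 0) : IsUnit (ι B) := by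
  by_contra hn
  obtain ⟨χ, hχ⟩ := WeakDual.CharacterSpace.exists_apply_eq_zero hn
  have hev : ∀ p : Po, χ (ι p) = eval (fun i => χ (ι (X i))) p := by
    intro p
    induction p using MvPolynomial.induction_on with
    | C c =>
      rw [eval_C, ← algebraMap_eq, ι.commutes, AlgHomClass.commutes]
      rfl
    | add p q hp hq => rw [map_add, map_add, map_add, hp, hq]
    | mul_X p i hp => rw [map_mul, map_mul, map_mul, hp, eval_X]
  refine hB _ (fun i => ?_) ((hev B).symm.trans hχ)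
  exact (AlgHom.norm_apply_le_self_mul_norm_one χ _).trans
    (mul_le_one₀ (hX i) (norm_nonneg _) h1)

lemma gelfand {R : Type} [NormedRing R] [NormedAlgebra ℂ R] [CompleteSpace R]
    (φ : Po →ₐ[ℂ] R) (h1 : ‖(1 : R)‖ ≤ 1) (hX : ∀ i, ‖φ (X i)‖ ≤ 1) {B : Po}
    (hB : ∀ z : Fin 2 → ℂ, (∀ i, ‖z i‖ ≤ 1) → eval z B ≠ 0) : ∃ T : R, φ B * T = 1 := by
  let A : Subalgebra ℂ R := φ.range.topologicalClosure
  have hcomm : ∀ x y : φ.range, x * y = y * x := by
    rintro ⟨_, p, rfl⟩ ⟨_, q, rfl⟩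
    apply Subtype.ext
    change φ p * φ q = φ q * φ p
    rw [← map_mul, ← map_mul, mul_comm]
  have hc : ∀ x y : A, x * y = y * x := fun x y =>
    (φ.range.commRingTopologicalClosure hcomm).mul_comm x y
  let _ : NormedCommRing A := { (inferInstance : NormedRing A) with mul_comm := hc }
  have : CompleteSpace A := (φ.range.isClosed_topologicalClosure).completeSpace_coe
  obtain ⟨T, hT⟩ := (gelfand_comm (A := A)
    (φ.codRestrict A fun p => φ.range.le_topologicalClosure ⟨p, rfl⟩) h1 hX hB).exists_right_inv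
  exact ⟨T, congrArg Subtype.val hT⟩

theorem exists_div {B : Po} (hB : ∀ z : Fin 2 → ℂ, (∀ i, ‖z i‖ ≤ 1) → eval z B ≠ 0) (u : Po) :
    ∃ y : PS, MemD 0 y ∧ (B : PS) * y = u := by
  obtain ⟨T, h1⟩ := gelfand mulHom ContinuousLinearMap.norm_id_le norm_mulHom_X hB
  have h2 : mulOp B (T (J 0 u)) = J 0 u := congrArg (fun S : H →L[ℂ] H => S (J 0 u)) h1
  refine ⟨toPS (T (J 0 u)), memD_toPS _, ?_⟩
  rw [mulOp_apply] at h2
  have h3 := congrArg toPS h2
  rwa [toPS_J ((memD_toPS _).poly_mul B), toPS_J (memD_poly 0 u)] at h3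

lemma head_mul {K : Ex} {f : PS} (hf : ∀ d ≤ K, MvPowerSeries.coeff d f = 0) (g : PS) :
    ∀ d ≤ K, MvPowerSeries.coeff d (g * f) = 0 := by
  classical
  intro d hd
  rw [MvPowerSeries.coeff_mul]
  refine Finset.sum_eq_zero fun x hx => ?_
  rw [hf x.2 (le_trans (by rw [← Finset.HasAntidiagonal.mem_antidiagonal.1 hx]; exact le_add_self) hd), mul_zero]

theorem head_closed {A B : Po} (hB : ∀ z : Fin 2 → ℂ, (∀ i, ‖z i‖ ≤ 1) → eval z B ≠ 0)
    (hA : ∀ z : Fin 2 → ℂ, (∀ i, ‖z i‖ = 1) → 0 ≤ (eval z A * conj (eval z B)).re) (g : Po)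
    (K : Ex) : 0 ≤ ∑ d ∈ Finset.Iic K, ((A * g).coeff d * conj ((B * g).coeff d)).re := by
  classical
  set u : Po := ∑ d ∈ Finset.Iic K, monomial d ((B * g).coeff d) with hu
  have hcu : ∀ d, u.coeff d = if d ≤ K then (B * g).coeff d else 0 := fun d => by
    rw [hu, coeff_sum]
    simp only [coeff_monomial, Finset.sum_ite_eq', Finset.mem_Iic]
  obtain ⟨y, hy, hBy⟩ := exists_div hB u
  have hB0 : MvPowerSeries.constantCoeff (B : PS) ≠ 0 := by
    have := hB 0 (by simp)
    rw [eval_zero, constantCoeff_eq] at this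
    rwa [← MvPowerSeries.coeff_zero_eq_constantCoeff_apply, coeff_coe]
  have h1 : ∀ d ≤ K, MvPowerSeries.coeff d ((B : PS) * (y - (g : PS))) = 0 := fun d hd => by
    rw [mul_sub, hBy, ← coe_mul, map_sub, coeff_coe, coeff_coe, hcu, if_pos hd, sub_self]
  have h2 : ∀ d ≤ K, MvPowerSeries.coeff d ((A : PS) * (y - (g : PS))) = 0 := by
    have := head_mul h1 ((A : PS) * (B : PS)⁻¹)
    rwa [mul_assoc, ← mul_assoc (B : PS)⁻¹, MvPowerSeries.inv_mul_cancel _ hB0, one_mul] at this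
  have h3 := transfer_nonneg hy ![A] ![B] (fun z hz => by simpa using hA z hz)
  simp only [Fin.sum_univ_succ, Fin.sum_univ_zero, add_zero, Matrix.cons_val_zero] at h3
  rw [Lam, hBy, ip, tsum_eq_sum (s := Finset.Iic K), Complex.re_sum] at h3
  · refine h3.trans_eq (Finset.sum_congr rfl fun d hd => ?_)
    have hd' := Finset.mem_Iic.1 hd
    have h4 := h2 d hd'
    rw [mul_sub, map_sub, sub_eq_zero, ← coe_mul, coeff_coe] at h4
    rw [h4, coeff_coe, hcu, if_pos hd', wt_hardy, Complex.ofReal_one, mul_one]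
  · intro d hd
    rw [coeff_coe, hcu, if_neg (by simpa using hd), map_zero, mul_zero, zero_mul]

theorem head_open {A B : Po} (hB : ∀ z : Fin 2 → ℂ, (∀ i, ‖z i‖ < 1) → eval z B ≠ 0)
    (hA : ∀ z : Fin 2 → ℂ, (∀ i, ‖z i‖ < 1) → 0 ≤ (eval z A * conj (eval z B)).re) (g : Po)
    (K : Ex) : 0 ≤ ∑ d ∈ Finset.Iic K, ((A * g).coeff d * conj ((B * g).coeff d)).re := by
  have key : ∀ ρ : ℝ, 0 < ρ → ρ < 1 → 0 ≤ ∑ d ∈ Finset.Iic K,
      ((A * g).coeff d * conj ((B * g).coeff d)).re * (∏ i, ρ ^ d i) ^ 2 := by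
    intro ρ h0 h1
    have hz : ∀ z : Fin 2 → ℂ, (∀ i, ‖z i‖ ≤ 1) → ∀ i, ‖((fun _ => (ρ : ℂ)) * z : Fin 2 → ℂ) i‖ < 1 :=
      fun z hz i => by
        rw [Pi.mul_apply, norm_mul, Complex.norm_real, Real.norm_of_nonneg h0.le]
        nlinarith [hz i, norm_nonneg (z i)]
    have := head_closed (A := sc (fun _ => (ρ : ℂ)) A) (B := sc (fun _ => (ρ : ℂ)) B)
      (fun z h => by rw [eval_sc]; exact hB _ (hz z h))
      (fun z h => by rw [eval_sc, eval_sc]; exact hA _ (hz z fun i => (h i).le))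
      (sc (fun _ => (ρ : ℂ)) g) K
    refine this.trans_eq (Finset.sum_congr rfl fun d _ => ?_)
    rw [← map_mul, ← map_mul, coeff_sc, coeff_sc, ← Complex.re_mul_ofReal]
    congr 1
    simp only [map_mul, map_prod, map_pow, Complex.conj_ofReal]
    push_cast
    ring
  have hc : Continuous fun ρ : ℝ => ∑ d ∈ Finset.Iic K,
      ((A * g).coeff d * conj ((B * g).coeff d)).re * (∏ i, ρ ^ d i) ^ 2 := by fun_prop
  have ht := (hc.tendsto 1).mono_left (nhdsWithin_le_nhds (s := Set.Iio 1))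
  have := ge_of_tendsto ht (by
    filter_upwards [Ioo_mem_nhdsLT (show (0 : ℝ) < 1 by norm_num)] with ρ h using key ρ h.1 h.2)
  simpa using this

end Pool.Agent.Lib.MP_e9e3a0_an
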