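import Pool.Agent.Lib.MP_e9e3a0_an.ExtB

/-! Necessity: every irreducible factor of an optimal approximant has a zero in the exterior of
the bidisk. -/

set_option autoImplicit false

namespace Pool.Agent.Lib.MP_e9e3a0_an

open ComplexConjugate Filter Topology MvPolynomial

/-- all exponents are bounded by `N` -/
def Bd (N : Ex) (p : Po) : Prop := ∀ s ∈ p.support, s ≤ N

/-- the reversed polynomial -/
noncomputable def rev (N : Ex) (p : Po) : Po := ∑ s ∈ p.support, monomial (N - s) (p.coeff s)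

/-- the bidegree -/
noncomputable def bideg (p : Po) : Ex := Finsupp.equivFunOnFinite.symm fun i => p.degreeOf i

lemma bideg_apply (p : Po) (i : Fin 2) : bideg p i = p.degreeOf i := rfl

lemma bd_bideg (p : Po) : Bd (bideg p) p := fun _ hs i => monomial_le_degreeOf i hs

lemma Bd.coeff {N : Ex} {p : Po} (h : Bd N p) {d : Ex} (hd : ¬ d ≤ N) : p.coeff d = 0 := by
  by_contra hne
  exact hd (h d (mem_support_iff.2 hne))

lemma Bd.mul {N M : Ex} {p q : Po} (hp : Bd N p) (hq : Bd M q) : Bd (N + M) (p * q) := by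
  classical
  intro s hs
  obtain ⟨a, ha, b, hb, rfl⟩ := Finset.mem_add.1 (support_mul p q hs)
  exact add_le_add (hp a ha) (hq b hb)

lemma coeff_rev {N : Ex} {p : Po} (h : Bd N p) (d : Ex) :
    (rev N p).coeff d = if d ≤ N then p.coeff (N - d) else 0 := by
  classical
  rw [rev, coeff_sum]
  split_ifs with hd
  · rw [Finset.sum_eq_single (N - d)]
    · rw [tsub_tsub_cancel_of_le hd, coeff_monomial, if_pos rfl]
    · intro s hs hne
      rw [coeff_monomial, if_neg]
      rintro rfl
      exact hne (tsub_tsub_cancel_of_le (h s hs)).symm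
    · intro hn
      rw [notMem_support_iff.1 hn, monomial_zero, coeff_zero]
  · refine Finset.sum_eq_zero fun s _ => ?_
    rw [coeff_monomial, if_neg]
    rintro rfl
    exact hd tsub_le_self

lemma bd_rev {N : Ex} {p : Po} (h : Bd N p) : Bd N (rev N p) := fun s hs => by
  by_contra hn
  exact mem_support_iff.1 hs (by rw [coeff_rev h, if_neg hn])

lemma eval_rev {N : Ex} {p : Po} (h : Bd N p) {z : Fin 2 → ℂ} (hz : ∀ i, z i ≠ 0) :
    eval z (rev N p) = (∏ i, z i ^ N i) * eval z⁻¹ p := by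
  rw [rev, map_sum, eval_eq' z⁻¹ p, Finset.mul_sum]
  refine Finset.sum_congr rfl fun s hs => ?_
  have h1 : (∏ i, z i ^ s i) * ∏ i, z⁻¹ i ^ s i = 1 := by
    rw [← Finset.prod_mul_distrib]
    refine Finset.prod_eq_one fun i _ => ?_
    rw [← mul_pow, Pi.inv_apply, mul_inv_cancel₀ (hz i), one_pow]
  rw [eval_mono, zpow_split z (h s hs)]
  linear_combination (-(coeff s p * ∏ i, z i ^ (N - s) i)) * h1

lemma rev_mul {N M : Ex} {p q : Po} (hp : Bd N p) (hq : Bd M q) :
    rev (N + M) (p * q) = rev N p * rev M q := by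
  refine funext_set (fun _ => ({0}ᶜ : Set ℂ)) (fun _ => (Set.finite_singleton _).infinite_compl)
    fun z hz => ?_
  have hz' : ∀ i, z i ≠ 0 := fun i => hz i trivial
  rw [map_mul, eval_rev (hp.mul hq) hz', eval_rev hp hz', eval_rev hq hz', map_mul]
  simp only [Finsupp.add_apply, pow_add, Finset.prod_mul_distrib]
  ring

lemma coeff_euler (i : Fin 2) (p : Po) (d : Ex) :
    (X i * pderiv i p).coeff d = (d i : ℂ) * p.coeff d := by
  classical
  induction p using MvPolynomial.induction_on' with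
  | monomial s c =>
    rw [X_mul_pderiv_monomial, coeff_smul, coeff_monomial]
    split_ifs with h
    · rw [h, nsmul_eq_mul]
    · simp
  | add p q hp hq => rw [map_add, mul_add, coeff_add, coeff_add, hp, hq, mul_add]

lemma rev_axis {r : Po} (hr : r ≠ 0) (i : Fin 2) : ¬ X i ∣ rev (bideg r) r := by
  classical
  rintro ⟨c, hc⟩
  obtain ⟨s, hs, he⟩ := Finset.exists_mem_eq_sup r.support (support_nonempty.2 hr) fun m => m i
  have h1 := coeff_rev (bd_bideg r) (bideg r - s)
  rw [if_pos tsub_le_self, tsub_tsub_cancel_of_le (bd_bideg r s hs), hc, coeff_X_mul', if_neg] at h1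
  · exact mem_support_iff.1 hs h1.symm
  · rw [Finsupp.mem_support_iff, Finsupp.tsub_apply, bideg_apply, degreeOf_eq_sup, he]
    simp

theorem rev_ne_zero {r : Po} (hr : r ≠ 0) (h : ∀ z ∈ Ext, eval z r ≠ 0) {z : Fin 2 → ℂ}
    (hz : ∀ i, ‖z i‖ < 1) : eval z (rev (bideg r) r) ≠ 0 := by
  set B := rev (bideg r) r with hB
  have h1 : ∀ x w : ℂ, ‖x‖ < 1 → ‖w‖ < 1 → x ≠ 0 → w ≠ 0 → eval ![x, w] B ≠ 0 := by
    intro x w hx hw hx0 hw0
    have hne : ∀ i, (![x, w] : Fin 2 → ℂ) i ≠ 0 := fun i => by fin_cases i <;> assumption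
    have hlt : ∀ i, ‖(![x, w] : Fin 2 → ℂ) i‖ < 1 := fun i => by fin_cases i <;> assumption
    rw [hB, eval_rev (bd_bideg r) hne]
    refine mul_ne_zero (Finset.prod_ne_zero_iff.2 fun i _ => pow_ne_zero _ (hne i)) (h _ fun i => ?_)
    rw [Pi.inv_apply, norm_inv]
    exact (one_lt_inv₀ (norm_pos_iff.2 (hne i))).2 (hlt i)
  have ha : ∃ w, eval ![0, w] B ≠ 0 := by
    by_contra hn
    push Not at hn
    refine rev_axis hr 0 ?_
    have := lin_dvd (a := 0) (b := 1) (c := 0) (Or.inl one_ne_zero) (p := B) fun y hy => by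
      have : y 0 = 0 := by simpa [Line] using hy
      change eval y B = 0
      rw [vec_eta y, this]
      exact hn _
    simpa [lin] using this
  have hb : ∃ x, eval ![x, 0] B ≠ 0 := by
    by_contra hn
    push Not at hn
    refine rev_axis hr 1 ?_
    have := lin_dvd (a := 0) (b := 0) (c := 1) (Or.inr one_ne_zero) (p := B) fun y hy => by
      have : y 1 = 0 := by simpa [Line] using hy
      change eval y B = 0
      rw [vec_eta y, this]
      exact hn _
    simpa [lin] using this
  have hsm : ∀ᶠ x in 𝓝 (0 : ℂ), ‖x‖ < 1 :=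
    (continuous_norm.tendsto _).eventually (gt_mem_nhds (by simp))
  have hball : ∀ a : ℂ, ‖a‖ < 1 → ∀ t ∈ Metric.ball a (1 - ‖a‖), ‖t‖ < 1 := fun a _ t ht => by
    have h2 := norm_sub_norm_le t a
    rw [Metric.mem_ball, dist_eq_norm] at ht
    linarith
  intro h0
  rw [vec_eta z] at h0
  by_cases hz0 : z 0 = 0
  · rw [hz0] at h0
    obtain ⟨x, hx⟩ := hb
    refine hx (slice_zero (diff_slice₀ B 0) (a := 0) ?_ x)
    filter_upwards [(persist₁ B h0 ha (sub_pos.2 (hz 1))).filter_mono nhdsWithin_le_nhds,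
      hsm.filter_mono nhdsWithin_le_nhds, self_mem_nhdsWithin] with x ⟨t, ht, h2⟩ h3 h4
    by_cases ht0 : t = 0
    · rwa [ht0] at h2
    · exact absurd h2 (h1 x t h3 (hball _ (hz 1) t ht) h4 ht0)
  by_cases hz1 : z 1 = 0
  · rw [hz1] at h0
    obtain ⟨x, hx⟩ := ha
    refine hx (slice_zero (diff_slice₁ B 0) (a := 0) ?_ x)
    filter_upwards [(persist₀ B h0 hb (sub_pos.2 (hz 0))).filter_mono nhdsWithin_le_nhds,
      hsm.filter_mono nhdsWithin_le_nhds, self_mem_nhdsWithin] with x ⟨t, ht, h2⟩ h3 h4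
    by_cases ht0 : t = 0
    · rwa [ht0] at h2
    · exact absurd h2 (h1 t x (hball _ (hz 0) t ht) h3 ht0 h4)
  exact h1 _ _ (hz 0) (hz 1) hz0 hz1 h0

lemma re_div_le {x y : ℂ} (h : ‖x‖ ≤ ‖y‖) : (x * (1 / (x - y))).re ≤ 1 / 2 := by
  by_cases hxy : x - y = 0
  · rw [hxy]; simp
  have h1 : Complex.normSq x ≤ Complex.normSq y := by
    rw [← Complex.sq_norm, ← Complex.sq_norm]
    exact pow_le_pow_left₀ (norm_nonneg _) h 2
  have h2 : 0 < Complex.normSq (x - y) := Complex.normSq_pos.2 hxy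
  rw [mul_one_div, Complex.div_re, ← add_div, div_le_iff₀ h2]
  simp only [Complex.normSq_apply, Complex.sub_re, Complex.sub_im] at h1 ⊢
  nlinarith

lemma logder_le {b : Polynomial ℂ} {m : ℕ} (hm : b.natDegree ≤ m) {x : ℂ} (hx : b.eval x ≠ 0)
    (h : ∀ y, b.eval y = 0 → ‖x‖ ≤ ‖y‖) :
    0 ≤ (((m : ℂ) * b.eval x - 2 * (x * b.derivative.eval x)) * conj (b.eval x)).re := by
  have hs := (IsAlgClosed.splits b).eval_derivative_eq_eval_mul_sum hx
  have h1 : (x * (b.roots.map fun z => 1 / (x - z)).sum).re ≤ m / 2 := by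
    rw [← Multiset.sum_map_mul_left, ← Complex.coe_reAddGroupHom, map_multiset_sum,
      Multiset.map_map]
    refine (Multiset.sum_le_card_nsmul _ (1 / 2) ?_).trans ?_
    · intro t ht
      obtain ⟨y, hy, rfl⟩ := Multiset.mem_map.1 ht
      exact re_div_le (h y (Polynomial.isRoot_of_mem_roots hy))
    · have : (b.roots.card : ℝ) ≤ m := by exact_mod_cast (Polynomial.card_roots' b).trans hm
      rw [Multiset.card_map, nsmul_eq_mul]
      linarith
  have e : ((m : ℂ) * b.eval x - 2 * (x * b.derivative.eval x)) * conj (b.eval x) =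
      (Complex.normSq (b.eval x) : ℂ) *
        ((m : ℂ) - 2 * (x * (b.roots.map fun z => 1 / (x - z)).sum)) := by
    rw [hs, ← Complex.mul_conj]; ring
  rw [e, Complex.re_ofReal_mul]
  refine mul_nonneg (Complex.normSq_nonneg _) ?_
  generalize x * (b.roots.map fun z => 1 / (x - z)).sum = u at h1
  simp only [Complex.sub_re, Complex.natCast_re, Complex.mul_re, Complex.re_ofNat,
    Complex.im_ofNat]
  linarith

/-- restriction to a coordinate line -/
noncomputable def sl (i : Fin 2) (z : Fin 2 → ℂ) : Po →ₐ[ℂ] Polynomial ℂ :=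
  aeval fun j => if j = i then Polynomial.X else Polynomial.C (z j)

lemma eval_sl (i : Fin 2) (z : Fin 2 → ℂ) (t : ℂ) (P : Po) :
    (sl i z P).eval t = eval (Function.update z i t) P := by
  induction P using MvPolynomial.induction_on with
  | C c => simp [sl]
  | add p q hp hq => simp only [map_add, Polynomial.eval_add, hp, hq]
  | mul_X p j hp =>
    simp only [map_mul, Polynomial.eval_mul, hp, eval_X]
    congr 1
    by_cases h : j = i <;> simp [sl, h]

lemma deriv_sl (i : Fin 2) (z : Fin 2 → ℂ) (P : Po) :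
    (sl i z P).derivative = sl i z (pderiv i P) := by
  induction P using MvPolynomial.induction_on with
  | C c => simp [sl]
  | add p q hp hq => simp only [map_add, hp, hq]
  | mul_X p j hp =>
    have hX : (sl i z (X j)).derivative = sl i z (pderiv i (X j)) := by
      by_cases h : j = i
      · rw [h, pderiv_X_self, map_one, sl, aeval_X, if_pos rfl, Polynomial.derivative_X]
      · rw [pderiv_X_of_ne h, map_zero, sl, aeval_X, if_neg h, Polynomial.derivative_C]
    rw [map_mul, Polynomial.derivative_mul, hp, pderiv_mul, map_add, map_mul, map_mul, hX]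

lemma natDegree_sl (i : Fin 2) (z : Fin 2 → ℂ) {N : Ex} {P : Po} (h : Bd N P) :
    (sl i z P).natDegree ≤ N i := by
  rw [P.as_sum, map_sum]
  refine Polynomial.natDegree_sum_le_of_forall_le _ _ fun s hs => le_trans ?_ (h s hs i)
  rw [sl, aeval_monomial, Finsupp.prod_fintype _ _ (by simp), Polynomial.algebraMap_eq]
  refine (Polynomial.natDegree_C_mul_le _ _).trans ((Polynomial.natDegree_prod_le _ _).trans ?_)
  rw [Finset.sum_eq_single i]
  · simp
  · intro j _ hj
    simp [hj]
  · simp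

lemma pos_disc {B : Po} {N : Ex} (hN : Bd N B)
    (hB : ∀ z : Fin 2 → ℂ, (∀ i, ‖z i‖ < 1) → eval z B ≠ 0) (i : Fin 2) (z : Fin 2 → ℂ)
    (hz : ∀ i, ‖z i‖ < 1) :
    0 ≤ (eval z (C (N i : ℂ) * B - C 2 * (X i * pderiv i B)) * conj (eval z B)).re := by
  have h := logder_le (natDegree_sl i z hN) (x := z i)
    (by rw [eval_sl, Function.update_eq_self]; exact hB z hz) fun y hy => by
      by_contra hlt
      rw [eval_sl] at hy
      refine hB _ (fun j => ?_) hy
      by_cases hj : j = i
      · rw [hj, Function.update_self]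
        exact (not_le.1 hlt).trans (hz i)
      · rw [Function.update_of_ne hj]
        exact hz j
  rw [deriv_sl, eval_sl, eval_sl, Function.update_eq_self] at h
  simpa only [map_sub, map_mul, eval_C, eval_X] using h

lemma tail_eq (t : Ex → ℝ) {κ N : Ex} (h : κ ≤ N) :
    ∑ e ∈ (Finset.Iic N).filter (κ ≤ ·), t e = ∑ d ∈ Finset.Iic (N - κ), t (N - d) := by
  refine Finset.sum_nbij' (fun e => N - e) (fun d => N - d) ?_ ?_ ?_ ?_ ?_
  · intro e he
    simp only [Finset.mem_filter, Finset.mem_Iic] at he ⊢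
    exact tsub_le_tsub_left he.2 N
  · intro d hd
    simp only [Finset.mem_filter, Finset.mem_Iic] at hd ⊢
    refine ⟨tsub_le_self, fun i => ?_⟩
    have h1 := hd i
    have h2 := h i
    rw [Finsupp.tsub_apply] at h1 ⊢
    omega
  · intro e he
    simp only [Finset.mem_filter, Finset.mem_Iic] at he
    exact tsub_tsub_cancel_of_le he.1
  · intro d hd
    exact tsub_tsub_cancel_of_le ((Finset.mem_Iic.1 hd).trans tsub_le_self)
  · intro e he
    simp only [Finset.mem_filter, Finset.mem_Iic] at he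
    rw [tsub_tsub_cancel_of_le he.1]

lemma exists_incr {w : ℕ → ℝ} (h0 : 0 ≤ w 0) (hw : Monotone w) : ∃ δ : ℕ → ℝ, (∀ k, 0 ≤ δ k) ∧
    ∀ j N, j ≤ N → w j = ∑ k ∈ Finset.range (N + 1), if k ≤ j then δ k else 0 := by
  refine ⟨fun k => Nat.casesOn k (w 0) fun k => w (k + 1) - w k, fun k => ?_, fun j N hj => ?_⟩
  · cases k with
    | zero => exact h0
    | succ k => exact sub_nonneg.2 (hw (Nat.le_succ k))
  · rw [← Finset.sum_filter, show (Finset.range (N + 1)).filter (· ≤ j) = Finset.range (j + 1) by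
      ext k; simp only [Finset.mem_filter, Finset.mem_range]; omega, Finset.sum_range_succ']
    simp only [Finset.sum_range_sub]
    exact (sub_add_cancel _ _).symm

lemma abel {t : Ex → ℝ} {N : Ex} {w : ℕ → ℝ} (h0 : 0 ≤ w 0) (hw : Monotone w)
    (h : ∀ K, 0 ≤ ∑ d ∈ Finset.Iic K, if d ≤ N then t (N - d) else 0) :
    0 ≤ ∑ e ∈ Finset.Iic N, t e * (w (e 0) * w (e 1)) := by
  classical
  obtain ⟨δ, hδ, hs⟩ := exists_incr h0 hw
  have e1 : ∑ e ∈ Finset.Iic N, t e * (w (e 0) * w (e 1)) =
      ∑ k ∈ Finset.range (N 0 + 1), ∑ l ∈ Finset.range (N 1 + 1), δ k * δ l *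
        ∑ e ∈ (Finset.Iic N).filter (Finsupp.equivFunOnFinite.symm ![k, l] ≤ ·), t e := by
    simp only [Finset.sum_filter, Finset.mul_sum]
    rw [Finset.sum_congr rfl fun k _ => Finset.sum_comm, Finset.sum_comm]
    refine Finset.sum_congr rfl fun e he => ?_
    have he' := Finset.mem_Iic.1 he
    rw [hs (e 0) (N 0) (he' 0), hs (e 1) (N 1) (he' 1), Finset.sum_mul_sum, Finset.mul_sum]
    refine Finset.sum_congr rfl fun k _ => ?_
    rw [Finset.mul_sum]
    refine Finset.sum_congr rfl fun l _ => ?_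
    have : Finsupp.equivFunOnFinite.symm ![k, l] ≤ e ↔ k ≤ e 0 ∧ l ≤ e 1 := by
      rw [Finsupp.le_def, Fin.forall_fin_two]
      rfl
    simp only [this]
    by_cases h1 : k ≤ e 0 <;> by_cases h2 : l ≤ e 1 <;> simp [h1, h2, mul_comm]
  rw [e1]
  refine Finset.sum_nonneg fun k hk => Finset.sum_nonneg fun l hl =>
    mul_nonneg (mul_nonneg (hδ k) (hδ l)) ?_
  have hκ : Finsupp.equivFunOnFinite.symm ![k, l] ≤ N := by
    rw [Finsupp.le_def, Fin.forall_fin_two]
    exact ⟨Nat.lt_succ_iff.1 (Finset.mem_range.1 hk), Nat.lt_succ_iff.1 (Finset.mem_range.1 hl)⟩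
  rw [tail_eq t hκ]
  refine (h _).trans_eq (Finset.sum_congr rfl fun d hd => ?_)
  rw [if_pos ((Finset.mem_Iic.1 hd).trans tsub_le_self)]

theorem cert_poly {α : ℝ} (hα : 0 ≤ α) {r : Po} (hr : r ≠ 0) (h : ∀ z ∈ Ext, eval z r ≠ 0)
    (i : Fin 2) (g : Po) :
    0 ≤ (Lam α (g : PS) (C 2 * (X i * pderiv i r) + C (-(bideg r i : ℂ)) * r) r).re := by
  classical
  set a : Po := C 2 * (X i * pderiv i r) + C (-(bideg r i : ℂ)) * r with ha
  have hca : ∀ d, a.coeff d = (2 * (d i : ℂ) - bideg r i) * r.coeff d := fun d => by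
    rw [ha, coeff_add, coeff_C_mul, coeff_C_mul, coeff_euler]; ring
  have hbr := bd_bideg r
  have hba : Bd (bideg r) a := fun s hs => hbr s (mem_support_iff.2 fun e =>
    mem_support_iff.1 hs (by rw [hca, e, mul_zero]))
  have hA : rev (bideg r) a = C (bideg r i : ℂ) * rev (bideg r) r -
      C 2 * (X i * pderiv i (rev (bideg r) r)) := by
    ext d
    rw [coeff_sub, coeff_C_mul, coeff_C_mul, coeff_euler, coeff_rev hba, coeff_rev hbr]
    split_ifs with hd
    · rw [hca, Finsupp.tsub_apply, Nat.cast_sub (hd i)]; ring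
    · simp
  have hB : ∀ z : Fin 2 → ℂ, (∀ i, ‖z i‖ < 1) → eval z (rev (bideg r) r) ≠ 0 :=
    fun z hz => rev_ne_zero hr h hz
  have hg := bd_bideg g
  have key := abel (t := fun e => ((a * g).coeff e * conj ((r * g).coeff e)).re)
    (N := bideg r + bideg g) (w := fun k => ((k : ℝ) + 1) ^ α) (by positivity)
    (fun j k hjk => Real.rpow_le_rpow (by positivity) (by exact_mod_cast Nat.succ_le_succ hjk) hα)
    fun K => by
      have := head_open (A := rev (bideg r) a) hB
        (fun z hz => by rw [hA]; exact pos_disc (bd_rev hbr) hB i z hz) (rev (bideg g) g) K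
      refine this.trans_eq (Finset.sum_congr rfl fun d _ => ?_)
      rw [← rev_mul hba hg, ← rev_mul hbr hg, coeff_rev (hba.mul hg), coeff_rev (hbr.mul hg)]
      split_ifs <;> simp
  rw [Lam, ← coe_mul, ← coe_mul, ip, tsum_eq_sum (s := Finset.Iic (bideg r + bideg g)),
    Complex.re_sum]
  · refine key.trans_eq (Finset.sum_congr rfl fun d _ => ?_)
    rw [coeff_coe, coeff_coe, Complex.re_mul_ofReal, wt,
      Real.mul_rpow (by positivity) (by positivity)]
  · intro d hd
    rw [coeff_coe, (hba.mul hg).coeff (by simpa using hd), zero_mul, zero_mul]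

theorem factor_meets {α : ℝ} (hα : 0 ≤ α) {n : ℕ} {f : PS} {p : Po} (hf : MemD α f) (hf0 : f ≠ 0)
    (h : IsOPA α n f p) (hp0 : p ≠ 0) {r : Po} (hr : Irreducible r) (hd : r ∣ p) :
    ∃ z ∈ Ext, eval z r = 0 := by
  by_contra hn
  push Not at hn
  obtain ⟨s, rfl⟩ := hd
  have hs : s ≠ 0 := right_ne_zero_of_mul hp0
  have hF : MemD α ((s : PS) * f) := hf.poly_mul s
  have hF0 : (s : PS) * f ≠ 0 := poly_mul_ne hf0 hs
  have hdeg : ∀ i, r.degreeOf i = 0 := fun i => by
    have h1 : 0 ≤ (Lam α ((s : PS) * f)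
        (C 2 * (X i * pderiv i r) + C (-(bideg r i : ℂ)) * r) r).re := by
      have ht := tendsto_sum_Lam hF ![C 2 * (X i * pderiv i r) + C (-(bideg r i : ℂ)) * r] ![r]
      simp only [Fin.sum_univ_succ, Fin.sum_univ_zero, add_zero, Matrix.cons_val_zero] at ht
      exact ge_of_tendsto' ((Complex.continuous_re.tendsto _).comp ht) fun F =>
        cert_poly hα hr.ne_zero hn i _
    have h2 : Lam α ((s : PS) * f) r (X i * pderiv i r) = 0 := by
      have hdp := h.1
      rw [totalDegree_mul_of_isDomain hr.ne_zero hs] at hdp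
      have h3 : (X i * pderiv i r).totalDegree ≤ r.totalDegree :=
        totalDegree_le_of_support_subset fun d hd => mem_support_iff.2 fun e =>
          mem_support_iff.1 hd (by rw [coeff_euler, e, mul_zero])
      have h4 := h.lam hf (q := X i * pderiv i r * s) ((totalDegree_mul _ _).trans (by omega))
      rw [coeff_zero_mul, coeff_euler, Finsupp.zero_apply, Nat.cast_zero, zero_mul, zero_mul,
        zero_mul, map_zero, Lam, coe_mul, coe_mul _ s, mul_assoc, mul_assoc] at h4
      exact h4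
    rw [← Lam_conj, Complex.conj_re, Lam_add_right hF, Lam_C_mul_right hF, Lam_C_mul_right hF, h2,
      mul_zero, zero_add, map_neg, map_natCast, neg_mul, Complex.neg_re, ← Complex.ofReal_natCast,
      Complex.re_ofReal_mul] at h1
    have h5 : 0 ≤ (Lam α ((s : PS) * f) r r).re := by
      rw [Lam, ip_self (hF.poly_mul _), Complex.ofReal_re]; positivity
    have h6 := lt_of_le_of_ne h5 (Lam_self_ne hF hF0 hr.ne_zero).symm
    have h7 : (bideg r i : ℝ) ≤ 0 := by nlinarith
    exact Nat.le_zero.1 (by exact_mod_cast h7)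
  have h0 : r.totalDegree = 0 := by
    rw [totalDegree_eq_zero_iff]
    intro m hm i
    exact Nat.le_zero.1 ((monomial_le_degreeOf i hm).trans (hdeg i).le)
  rw [totalDegree_eq_zero_iff_eq_C] at h0
  refine hr.not_isUnit ?_
  rw [h0]
  refine IsUnit.map C (isUnit_iff_ne_zero.2 fun e => hr.ne_zero ?_)
  rw [h0, e, map_zero]

end Pool.Agent.Lib.MP_e9e3a0_an
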