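import Pool.Agent.Lib.MP_e9e3a0_an.ExtC

/-! Sufficiency: for large `α` frequency windows see every point of the exterior of the bidisk. -/

set_option autoImplicit false

namespace Pool.Agent.Lib.MP_e9e3a0_an

open ComplexConjugate Filter Topology MvPolynomial

lemma neg_mem_hull {n : ℕ} {S : Set (Ix n → ℂ)} (hS : S.Finite) (h0 : 0 ∈ S)
    (h : ∀ c : Ix n → ℂ, ‖c‖ = 1 → ∃ s ∈ S, pair c s < -(1 / 2)) (w : Ix n → ℂ) :
    ∃ δ : ℝ, 0 < δ ∧ (-δ) • w ∈ convexHull ℝ S := by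
  set K : ℝ := (Fintype.card (Ix n) : ℝ) with hK
  have hK0 : 0 ≤ K := Nat.cast_nonneg _
  set δ : ℝ := 1 / (2 * (K + 1) * (‖w‖ + 1)) with hδ
  have hδ0 : 0 < δ := by positivity
  refine ⟨δ, hδ0, ?_⟩
  by_contra hn
  obtain ⟨L, u, hu1, hu2⟩ := RCLike.geometric_hahn_banach_point_closed (𝕜 := ℂ)
    (convex_convexHull ℝ S) (hS.isClosed_convexHull ℝ) hn
  let c : Ix n → ℂ := fun s => L (Pi.single s 1)
  have hL : ∀ v, RCLike.re (L v) = pair c v := fun v => by
    have := LinearMap.pi_apply_eq_sum_univ (L : (Ix n → ℂ) →ₗ[ℂ] ℂ) v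
    simp only [ContinuousLinearMap.coe_coe, smul_eq_mul] at this
    rw [this, pair, RCLike.re_to_complex]
    congr 1
    refine Finset.sum_congr rfl fun s _ => ?_
    rw [mul_comm]
    congr 2
    funext j
    simp [Pi.single_apply, eq_comm]
  simp only [hL] at hu1 hu2
  have hc0 : c ≠ 0 := by
    intro e
    have := hu2 0 (subset_convexHull _ _ h0)
    simp [e, pair] at hu1 this
    linarith
  have hcn : 0 < ‖c‖ := norm_pos_iff.2 hc0
  have hc1 : ‖(‖c‖⁻¹ : ℝ) • c‖ = 1 := by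
    rw [norm_smul, norm_inv, norm_norm, inv_mul_cancel₀ hcn.ne']
  obtain ⟨s, hs, hst⟩ := h _ hc1
  have a1 : pair c ((-δ) • w) < pair c s := hu1.trans (hu2 s (subset_convexHull _ _ hs))
  have a2 : pair ((‖c‖⁻¹ : ℝ) • c) ((-δ) • w) < pair ((‖c‖⁻¹ : ℝ) • c) s := by
    rw [pair_smul_left, pair_smul_left]
    exact mul_lt_mul_of_pos_left a1 (inv_pos.2 hcn)
  have a4 := pair_le ((‖c‖⁻¹ : ℝ) • c) ((-δ) • w)
  rw [hc1, one_mul, ← hK, norm_smul, norm_neg, Real.norm_of_nonneg hδ0.le] at a4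
  have a6 : K * (δ * ‖w‖) ≤ 1 / 2 := by
    have : δ * (2 * (K + 1) * (‖w‖ + 1)) = 1 := by rw [hδ]; field_simp
    nlinarith [norm_nonneg w, mul_nonneg hδ0.le hK0, mul_nonneg hδ0.le (norm_nonneg w)]
  linarith [(abs_le.1 a4).1]

lemma hull_coeff {E ι : Type} [AddCommGroup E] [Module ℝ E] [Fintype ι] (s : ι → E) {x : E}
    (hx : x ∈ convexHull ℝ (insert 0 (Set.range s))) :
    ∃ t : ι → ℝ, (∀ i, 0 ≤ t i) ∧ x = ∑ i, t i • s i := by
  classical
  refine convexHull_min (t := {x | ∃ t : ι → ℝ, (∀ i, 0 ≤ t i) ∧ x = ∑ i, t i • s i}) ?_ ?_ hx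
  · rintro _ (rfl | ⟨j, rfl⟩)
    · exact ⟨0, fun _ => le_rfl, by simp⟩
    · refine ⟨fun i => if i = j then 1 else 0, fun i => by positivity, ?_⟩
      simp [ite_smul]
  · rintro _ ⟨t, ht, rfl⟩ _ ⟨u, hu, rfl⟩ a b ha hb -
    refine ⟨fun i => a * t i + b * u i,
      fun i => add_nonneg (mul_nonneg ha (ht i)) (mul_nonneg hb (hu i)), ?_⟩
    simp only [Finset.smul_sum, smul_smul, add_smul, Finset.sum_add_distrib]

/-- the exponents of the first variable lie in a window -/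
def Win (a b : ℕ) (g : Po) : Prop := ∀ s ∈ g.support, a ≤ s 0 ∧ s 0 ≤ b

lemma Win.mul {a b a' b' : ℕ} {g h : Po} (hg : Win a b g) (hh : Win a' b' h) :
    Win (a + a') (b + b') (g * h) := by
  classical
  intro s hs
  obtain ⟨u, hu, v, hv, rfl⟩ := Finset.mem_add.1 (support_mul g h hs)
  exact ⟨add_le_add (hg u hu).1 (hh v hv).1, add_le_add (hg u hu).2 (hh v hv).2⟩

lemma win_deg {n : ℕ} {g : Po} (hg : g.totalDegree ≤ n) : Win 0 n g := fun _ hs =>
  ⟨Nat.zero_le _, ((monomial_le_degreeOf 0 hs).trans (degreeOf_le_totalDegree g 0)).trans hg⟩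

lemma Win.C_mul {a b : ℕ} {g : Po} (hg : Win a b g) (c : ℂ) : Win a b (C c * g) := by
  simpa using (win_deg (n := 0) (g := C c) (by simp)).mul hg

lemma win_monomial (s : Ex) : Win (s 0) (s 0) (monomial s 1) := fun d hd => by
  rw [Finset.mem_singleton.1 (support_monomial_subset hd)]
  exact ⟨le_rfl, le_rfl⟩

/-- separated frequency supports -/
def Sep (n : ℕ) (g h : Po) : Prop := ∀ u v : Po, u.totalDegree ≤ n → v.totalDegree ≤ n →
  ∀ d, (u * g).coeff d = 0 ∨ (v * h).coeff d = 0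

lemma Sep.symm {n : ℕ} {g h : Po} (H : Sep n g h) : Sep n h g :=
  fun u v hu hv d => (H v u hv hu d).symm

lemma sep_of_win {n a b a' b' : ℕ} {g h : Po} (hg : Win a b g) (hh : Win a' b' h)
    (hlt : b + n < a') : Sep n g h := by
  intro u v hu hv d
  by_contra hc
  push Not at hc
  have h1 := ((win_deg hu).mul hg d (mem_support_iff.2 hc.1)).2
  have h2 := ((win_deg hv).mul hh d (mem_support_iff.2 hc.2)).1
  omega

lemma sep_sum {n : ℕ} {ι : Type} {g : Po} {G : ι → Po} {F : Finset ι}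
    (h : ∀ i ∈ F, Sep n g (G i)) : Sep n g (∑ i ∈ F, G i) := by
  intro u v hu hv d
  refine or_iff_not_imp_left.2 fun hne => ?_
  rw [Finset.mul_sum, coeff_sum]
  exact Finset.sum_eq_zero fun i hi => (h i hi u v hu hv d).resolve_left hne

lemma ip_zero_of (α : ℝ) {x y : Po} (h : ∀ d, x.coeff d = 0 ∨ y.coeff d = 0) :
    ip α (x : PS) (y : PS) = 0 := by
  unfold ip
  refine (tsum_congr fun d => ?_).trans tsum_zero
  rcases h d with h | h <;> simp [coeff_coe, h]

lemma Phi_add' (α : ℝ) {n : ℕ} {p g h : Po} (hp : p.totalDegree ≤ n) (H : Sep n g h) :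
    Phi α n p ((g + h : Po) : PS) = Phi α n p g + Phi α n p h := by
  funext s
  have hs : (monomial s.1 (1 : ℂ)).totalDegree ≤ n := (totalDegree_monomial_le _ _).trans s.2.2
  simp only [Phi, Lam, Pi.add_apply, ← coe_mul, mul_add]
  rw [coe_add, coe_add, ip_add_left (memD_poly _ _) (memD_poly _ _)
    ((memD_poly _ _).add (memD_poly _ _)),
    ip_add_right (memD_poly _ _) (memD_poly _ _) (memD_poly _ _),
    ip_add_right (memD_poly _ _) (memD_poly _ _) (memD_poly _ _),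
    ip_zero_of α (H _ _ hp hs), ip_zero_of α (H.symm _ _ hp hs)]
  ring

lemma Phi_sum (α : ℝ) {n : ℕ} {p : Po} (hp : p.totalDegree ≤ n) {ι : Type} {G : ι → Po}
    (H : ∀ i j, i ≠ j → Sep n (G i) (G j)) (F : Finset ι) :
    Phi α n p ((∑ i ∈ F, G i : Po) : PS) = ∑ i ∈ F, Phi α n p (G i) := by
  classical
  induction F using Finset.induction_on with
  | empty => funext s; simp [Phi, Lam]
  | insert a F ha ih =>
    rw [Finset.sum_insert ha, Finset.sum_insert ha,
      Phi_add' α hp (sep_sum fun i hi => H a i fun e => ha (e ▸ hi)), ih]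

lemma tendsto_Phi (n : ℕ) (p g : Po) (σ : ℝ → Ex) (ω : Ex → ℝ)
    (hω : ∀ d, Tendsto (fun α => (wt α (σ α))⁻¹ * wt α (σ α + d)) atTop (𝓝 (ω d))) :
    Tendsto (fun α => Phi α n p
      ((C (Real.sqrt (wt α (σ α))⁻¹ : ℂ) * (monomial (σ α) 1 * g) : Po) : PS)) atTop
      (𝓝 fun s : Ix n => ipw ω ((p * g : Po) : PS) ((monomial s.1 1 * g : Po) : PS)) := by
  refine tendsto_pi_nhds.2 fun s => ?_
  have e : ∀ α, Phi α n p
      ((C (Real.sqrt (wt α (σ α))⁻¹ : ℂ) * (monomial (σ α) 1 * g) : Po) : PS) s =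
      ∑ d ∈ (p * g).support, (p * g).coeff d * conj ((monomial s.1 1 * g).coeff d) *
        (((wt α (σ α))⁻¹ * wt α (σ α + d) : ℝ) : ℂ) := fun α => by
    rw [Phi_smul _ _ _ _ (inv_pos.2 (wt_pos _ _)).le]
    simp only [Pi.smul_apply, Phi, Lam, coe_mul, coe_monomial]
    rw [mul_left_comm, mul_left_comm (MvPowerSeries.monomial s.1 1), ip_shift,
      tsum_eq_sum (s := (p * g).support), Complex.real_smul, Finset.mul_sum]
    · refine Finset.sum_congr rfl fun d _ => ?_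
      rw [← coe_monomial, ← coe_mul, ← coe_mul, coeff_coe, coeff_coe]
      push_cast; ring
    · intro d hd
      rw [← coe_mul, coeff_coe, notMem_support_iff.1 hd]; simp
  simp only [e]
  rw [ipw, tsum_eq_sum (s := (p * g).support)]
  · refine tendsto_finsetSum _ fun d _ => ?_
    rw [coeff_coe, coeff_coe]
    exact ((Complex.continuous_ofReal.tendsto _).comp (hω d)).const_mul _
  · intro d hd
    rw [coeff_coe, notMem_support_iff.1 hd]; simp

/-- the frequency at which the weights grow like those of the circle of radius `r` -/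
noncomputable def Jn (r α : ℝ) : ℕ := ⌊(2 * Real.log r)⁻¹ * α⌋₊

lemma tendsto_Jn {r : ℝ} (hr : 1 < r) (k : ℝ) :
    Tendsto (fun α : ℝ => ((Jn r α : ℝ) + k) / α) atTop (𝓝 (2 * Real.log r)⁻¹) := by
  have hl : 0 < Real.log r := Real.log_pos hr
  have h1 := tendsto_nat_floor_mul_div_atTop (R := ℝ) (a := (2 * Real.log r)⁻¹) (by positivity)
  have h2 := h1.add (tendsto_inv_atTop_zero.const_mul k)
  rw [mul_zero, add_zero] at h2
  refine h2.congr fun α => ?_
  rw [add_div, div_eq_mul_inv k]; rfl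

lemma tendsto_ratio_pow {r : ℝ} (hr : 1 < r) (k j : ℕ) :
    Tendsto (fun α : ℝ => ((((Jn r α + k + j : ℕ) : ℝ) + 1) / (((Jn r α + k : ℕ) : ℝ) + 1)) ^ α)
      atTop (𝓝 ((r ^ j) ^ 2)) := by
  have hl : 0 < Real.log r := Real.log_pos hr
  have hc : 0 < (2 * Real.log r)⁻¹ := by positivity
  have h1 := tendsto_Jn hr (k + 1)
  have hx : Tendsto (fun α : ℝ => (Jn r α : ℝ) + (k + 1)) atTop atTop := by
    refine (h1.pos_mul_atTop hc tendsto_id).congr' ?_
    filter_upwards [eventually_gt_atTop 0] with α hα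
    rw [id, div_mul_cancel₀ _ hα.ne']
  have h2 := (Real.tendsto_mul_log_one_add_div_atTop (j : ℝ)).comp hx
  have h3 := (Real.continuous_exp.tendsto _).comp ((h1.inv₀ hc.ne').mul h2)
  have e : Real.exp ((2 * Real.log r)⁻¹⁻¹ * j) = (r ^ j) ^ 2 := by
    rw [inv_inv, show 2 * Real.log r * j = ((j * 2 : ℕ) : ℝ) * Real.log r by push_cast; ring,
      Real.exp_nat_mul, Real.exp_log (by linarith), pow_mul]
  rw [e] at h3
  refine h3.congr fun α => ?_
  have hpos : (0 : ℝ) < (Jn r α : ℝ) + (k + 1) := by positivity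
  simp only [Function.comp]
  rw [Real.rpow_def_of_pos (by positivity)]
  congr 1
  have e2 : (((Jn r α + k + j : ℕ) : ℝ) + 1) / (((Jn r α + k : ℕ) : ℝ) + 1) =
      1 + j / ((Jn r α : ℝ) + (k + 1)) := by
    push_cast
    field_simp
    ring
  rw [e2, inv_div]
  field_simp

lemma Jn_sep {r r' : ℝ} (hr : 1 < r) (h : r < r') (k : ℕ) :
    ∀ᶠ α in atTop, Jn r' α + k < Jn r α := by
  have hl : 0 < Real.log r := Real.log_pos hr
  have hlt : (2 * Real.log r')⁻¹ < (2 * Real.log r)⁻¹ :=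
    inv_strictAnti₀ (by positivity) (by linarith [Real.log_lt_log (by linarith) h])
  filter_upwards [(tendsto_Jn (hr.trans h) k).eventually_lt (tendsto_Jn hr 0) hlt,
    eventually_gt_atTop 0] with α h1 h2
  rw [div_lt_div_iff_of_pos_right h2, add_zero] at h1
  exact_mod_cast h1

/-- the limits of the range as `α` tends to infinity, along windows -/
def Lim (n : ℕ) (p : Po) : Set (Ix n → ℂ) :=
  {v | ∃ (r : ℝ) (L : ℕ), 1 < r ∧ ∀ k : ℕ, ∃ G : ℝ → Po,
    (∀ α, Win (Jn r α + k) (Jn r α + k + L) (G α)) ∧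
      Tendsto (fun α => Phi α n p (G α)) atTop (𝓝 v)}

lemma Lim.smul {n : ℕ} {p : Po} {v : Ix n → ℂ} (hv : v ∈ Lim n p) {t : ℝ} (ht : 0 < t) :
    t • v ∈ Lim n p := by
  obtain ⟨r, L, hr, h⟩ := hv
  refine ⟨r, L, hr, fun k => ?_⟩
  obtain ⟨G, h1, h2⟩ := h k
  refine ⟨fun α => C (Real.sqrt t : ℂ) * G α, fun α => (h1 α).C_mul _, ?_⟩
  simp only [Phi_smul _ _ _ _ ht.le]
  exact h2.const_smul t

lemma mem_Lim (n : ℕ) (p g : Po) {ρ : Fin 2 → ℝ} (hρ : ∀ i, 1 < ρ i) :
    (fun s : Ix n => ipw (fun d => (∏ i, ρ i ^ d i) ^ 2) ((p * g : Po) : PS)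
      ((monomial s.1 1 * g : Po) : PS)) ∈ Lim n p := by
  refine ⟨ρ 0, g.totalDegree, hρ 0, fun k => ?_⟩
  let σ : ℝ → Ex := fun α => Finsupp.equivFunOnFinite.symm fun i => Jn (ρ i) α + k
  refine ⟨_, fun α => ((win_monomial (σ α)).mul (win_deg le_rfl)).C_mul _,
    tendsto_Phi n p g σ _ fun d => ?_⟩
  have h := (tendsto_ratio_pow (hρ 0) k (d 0)).mul (tendsto_ratio_pow (hρ 1) k (d 1))
  rw [← mul_pow, ← Fin.prod_univ_two fun i => ρ i ^ d i] at h
  refine h.congr fun α => ?_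
  rw [← Real.mul_rpow (by positivity) (by positivity), div_mul_div_comm,
    Real.div_rpow (by positivity) (by positivity), div_eq_inv_mul]
  rfl

lemma exists_Lim_neg {n : ℕ} {p : Po} {c : Ix n → ℂ} {z : Fin 2 → ℂ} (hz : z ∈ Ext)
    (h : (eval z p * conj (eval z (qOf c))).re < 0) : ∃ v ∈ Lim n p, pair c v < 0 := by
  let a : Fin 2 → ℂ := fun i => (‖z i‖ : ℂ)
  have ha : ∀ i, a i ≠ 0 := fun i => by
    have := hz i
    exact Complex.ofReal_ne_zero.2 (by linarith)
  have hζ : ∀ i, ‖(a⁻¹ * z) i‖ = 1 := fun i => by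
    have := hz i
    rw [Pi.mul_apply, Pi.inv_apply, norm_mul, norm_inv, Complex.norm_real, norm_norm,
      inv_mul_cancel₀ (by linarith)]
  have hzz : a * (a⁻¹ * z) = z := by
    funext i
    rw [Pi.mul_apply, Pi.mul_apply, Pi.inv_apply, mul_inv_cancel_left₀ (ha i)]
  obtain ⟨g₀, hg₀⟩ := exists_poly_neg (sc a p) (sc a (qOf c)) hζ
    (by rwa [eval_sc, eval_sc, hzz])
  have hg : sc a (sc a⁻¹ g₀) = g₀ := by
    ext d
    rw [coeff_sc, coeff_sc, mul_assoc, ← Finset.prod_mul_distrib, Finset.prod_eq_one, mul_one]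
    intro i _
    rw [← mul_pow, Pi.inv_apply, inv_mul_cancel₀ (ha i), one_pow]
  have hconj : ∀ d : Ex, conj (∏ i, a i ^ d i) = ∏ i, a i ^ d i := fun d => by
    simp only [map_prod, map_pow, a, Complex.conj_ofReal]
  have hip : ∀ x y : Po, ipw (fun d => (∏ i, ‖z i‖ ^ d i) ^ 2) (x : PS) (y : PS) =
      ip 0 ((sc a x : Po) : PS) ((sc a y : Po) : PS) := fun x y => by
    refine tsum_congr fun d => ?_
    rw [coeff_coe, coeff_coe, coeff_coe, coeff_coe, coeff_sc, coeff_sc, map_mul, hconj, wt_hardy]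
    simp only [a]
    push_cast
    ring
  have hq : sc a (qOf c) = qOf fun s => c s * ∏ i, a i ^ s.1 i := by
    simp only [qOf, map_sum, sc_monomial, map_mul, hconj]
  refine ⟨_, mem_Lim n p (sc a⁻¹ g₀) (ρ := fun i => ‖z i‖) hz, ?_⟩
  rw [hq, Lam_qOf (memD_poly _ _)] at hg₀
  refine lt_of_eq_of_lt (congrArg Complex.re (Finset.sum_congr rfl fun s _ => ?_)) hg₀
  simp only []
  rw [hip, map_mul, map_mul, hg, sc_monomial, coe_mul, coe_mul, one_mul,
    show monomial s.1 (∏ i, a i ^ s.1 i) = C (∏ i, a i ^ s.1 i) * monomial s.1 1 by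
      rw [C_mul_monomial, mul_one], ← Lam, Lam_C_mul_right (memD_poly _ _), hconj, Phi, mul_assoc]

theorem exists_opa_large {n : ℕ} {p : Po} (hp : p.totalDegree ≤ n) (hp0 : p.coeff 0 ≠ 0)
    (hf : ∀ r, Irreducible r → r ∣ p → ∃ z ∈ Ext, eval z r = 0) :
    ∀ᶠ α in atTop, ∃ (f : PS) (c : ℂ), MemD α f ∧ f ≠ 0 ∧ c ≠ 0 ∧ IsOPA α n f (C c * p) := by
  classical
  have hpne : p ≠ 0 := by rintro rfl; simp at hp0
  have hcov : Metric.sphere (0 : Ix n → ℂ) 1 ⊆ ⋃ v : Lim n p, {c | pair c v.1 < -1} := by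
    intro c hc
    have hc0 : c ≠ 0 := by rintro rfl; simp at hc
    have hq : qOf c ≠ 0 := by
      intro e
      refine hc0 (funext fun s => ?_)
      have := coeff_qOf c s
      rw [e, coeff_zero] at this
      simpa using this.symm
    have := mt (noCertExt hp0 hf (coeff_qOf_of_not c (by simp))) hq
    push Not at this
    obtain ⟨z, hz, hneg⟩ := this
    obtain ⟨v, hv, hlt⟩ := exists_Lim_neg hz hneg
    have hpos : 0 < 2 / -pair c v := div_pos two_pos (neg_pos.2 hlt)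
    refine Set.mem_iUnion.2 ⟨⟨_, Lim.smul hv hpos⟩, ?_⟩
    have : 2 / -pair c v * pair c v = -2 := by
      have := hlt.ne
      field_simp
    simp only [Set.mem_ofPred_eq, pair_smul_right, this]; norm_num
  obtain ⟨F, hF⟩ := (isCompact_sphere (0 : Ix n → ℂ) 1).elim_finite_subcover _
    (fun v => isOpen_lt (by unfold pair; fun_prop) continuous_const) hcov
  set K : ℝ := (Fintype.card (Ix n) : ℝ) with hK
  have hK0 : 0 ≤ K := Nat.cast_nonneg _
  have hch : ∀ v : F, ∃ (r : ℝ) (L : ℕ), 1 < r ∧ ∀ k : ℕ, ∃ G : ℝ → Po,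
    (∀ α, Win (Jn r α + k) (Jn r α + k + L) (G α)) ∧
      Tendsto (fun α => Phi α n p (G α)) atTop (𝓝 v.1.1) := fun v => v.1.2
  choose r L hr hG using hch
  set M : ℕ := Finset.univ.sup L + n + 1 with hM
  have hLM : ∀ v, L v + n < M := fun v => by
    have : L v ≤ Finset.univ.sup L := Finset.le_sup (Finset.mem_univ v)
    omega
  let e : F → ℕ := fun v => Fintype.equivFin F v
  have he : Function.Injective e := fun v w h => (Fintype.equivFin F).injective (Fin.ext h)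
  choose G hW hT using fun v => hG v ((e v + 1) * M)
  have h1 : ∀ᶠ α in atTop, ∀ v, ‖Phi α n p (G v α) - v.1.1‖ < 1 / (2 * (K + 1)) :=
    eventually_all.2 fun v => (tendsto_iff_norm_sub_tendsto_zero.1 (hT v)).eventually
      (gt_mem_nhds (by positivity))
  have h2 : ∀ᶠ α in atTop, ∀ v w, r v < r w →
      Jn (r w) α + ((e w + 1) * M + M) < Jn (r v) α :=
    eventually_all.2 fun v => eventually_all.2 fun w => by
      by_cases h : r v < r w
      · exact (Jn_sep (hr v) h _).mono fun α h1 _ => h1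
      · exact Eventually.of_forall fun α h1 => absurd h1 h
  filter_upwards [h1, h2] with α h1 h2
  have hlt : ∀ v w, e v < e w → r v = r w → Sep n (G v α) (G w α) := fun v w h hrr => by
    refine sep_of_win (hW v α) (hW w α) ?_
    have h3 : (e v + 1 + 1) * M ≤ (e w + 1) * M := Nat.mul_le_mul_right _ (by omega)
    have h4 := hLM v
    rw [hrr]
    rw [add_mul (e v + 1), one_mul] at h3
    omega
  have hlt' : ∀ v w, r v < r w → Sep n (G w α) (G v α) := fun v w h => by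
    refine sep_of_win (hW w α) (hW v α) ?_
    have h3 := h2 v w h
    have h4 := hLM w
    omega
  have hsep : ∀ v w, v ≠ w → Sep n (G v α) (G w α) := fun v w hvw => by
    rcases lt_trichotomy (r v) (r w) with h | h | h
    · exact (hlt' v w h).symm
    · rcases lt_or_gt_of_ne (he.ne hvw) with h3 | h3
      · exact hlt v w h3 h
      · exact (hlt w v h3 h.symm).symm
    · exact hlt' w v h
  obtain ⟨δ, hδ0, hmem⟩ := neg_mem_hull (S := insert 0 (Set.range fun v : F => Phi α n p (G v α)))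
    ((Set.finite_range _).insert _) (Or.inl rfl) (fun c hc => by
      obtain ⟨t, ht⟩ := Set.mem_iUnion.1 (hF (mem_sphere_zero_iff_norm.2 hc))
      obtain ⟨htF, ht⟩ := Set.mem_iUnion.1 ht
      refine ⟨_, Or.inr ⟨⟨t, htF⟩, rfl⟩, ?_⟩
      have a3 := pair_le c (Phi α n p (G ⟨t, htF⟩ α) - t.1)
      have a4 := h1 ⟨t, htF⟩
      rw [hc, one_mul, ← hK, pair_sub] at a3
      rw [lt_div_iff₀ (by positivity)] at a4
      have a7 : pair c t.1 < -1 := ht
      nlinarith [(abs_le.1 a3).2, norm_nonneg (Phi α n p (G ⟨t, htF⟩ α) - t.1)])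
    (Phi α n p ((1 : Po) : PS))
  obtain ⟨t, ht, hsum⟩ := hull_coeff _ hmem
  have hsc : ∀ {g h : Po} (a b : ℂ), Sep n g h → Sep n (C a * g) (C b * h) := by
    intro g h a b H u v hu hv d
    rw [mul_left_comm, mul_left_comm v, coeff_C_mul, coeff_C_mul]
    exact (H u v hu hv d).imp (fun h => by rw [h, mul_zero]) fun h => by rw [h, mul_zero]
  have hMk : ∀ v, n < Jn (r v) α + (e v + 1) * M := fun v => by
    have := hLM v
    rw [add_mul, one_mul]
    omega
  have hPhi : Phi α n p ((C (Real.sqrt δ : ℂ) * 1 +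
      ∑ v : F, C (Real.sqrt (t v) : ℂ) * G v α : Po) : PS) = 0 := by
    rw [Phi_add' α hp (sep_sum fun v _ => hsc _ _ (sep_of_win (win_deg (n := 0) (by simp))
      (hW v α) (by simpa using hMk v))), Phi_smul _ _ _ _ hδ0.le,
      Phi_sum α hp fun v w h => hsc _ _ (hsep v w h)]
    simp only [Phi_smul _ _ _ _ (ht _)]
    rw [← hsum, neg_smul, add_neg_cancel]
  have hc : MvPowerSeries.coeff 0 ((C (Real.sqrt δ : ℂ) * 1 +
      ∑ v : F, C (Real.sqrt (t v) : ℂ) * G v α : Po) : PS) ≠ 0 := by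
    rw [coeff_coe, coeff_add, coeff_sum, Finset.sum_eq_zero]
    · simpa using (Real.sqrt_pos.2 hδ0).ne'
    · intro v _
      by_contra hne
      have h3 := ((hW v α).C_mul _ 0 (mem_support_iff.2 hne)).1
      have h4 := hMk v
      rw [Finsupp.zero_apply] at h3
      omega
  obtain ⟨c, hc0, hopa⟩ := isOPA_of_Phi (memD_poly α _) hc hp hpne hPhi
  exact ⟨_, c, memD_poly α _, fun e => hc (by rw [e, map_zero]), hc0, hopa⟩

end Pool.Agent.Lib.MP_e9e3a0_an
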