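import Pool.Agent.Lib.MP_e9e3a0_an.Torus

set_option autoImplicit false

namespace Pool.Agent.Lib.MP_e9e3a0_an

open ComplexConjugate Filter Topology MvPolynomial

noncomputable def refl (N : Ex) (p : Po) : Po :=
  ∑ s ∈ p.support, monomial (N - s) (conj (p.coeff s))

noncomputable def Nn (n : ℕ) : Ex := Finsupp.equivFunOnFinite.symm fun _ => n

lemma le_Nn {n : ℕ} {p : Po} (hp : p.totalDegree ≤ n) {s : Ex} (hs : s ∈ p.support) : s ≤ Nn n :=
  fun i => ((monomial_le_degreeOf i hs).trans (degreeOf_le_totalDegree p i)).trans hp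

lemma eval_mono (z : Fin 2 → ℂ) (s : Ex) (a : ℂ) :
    eval z (monomial s a) = a * ∏ i, z i ^ s i := by
  rw [eval_monomial, Finsupp.prod_fintype _ _ (by simp)]

lemma zpow_mul_conj {z : Fin 2 → ℂ} (hz : ∀ i, ‖z i‖ = 1) (s : Ex) :
    (∏ i, z i ^ s i) * conj (∏ i, z i ^ s i) = 1 := by
  rw [Complex.mul_conj', norm_prod]; simp [hz]

lemma zpow_split (z : Fin 2 → ℂ) {s N : Ex} (h : s ≤ N) :
    ∏ i, z i ^ N i = (∏ i, z i ^ (N - s) i) * ∏ i, z i ^ s i := by
  rw [← Finset.prod_mul_distrib]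
  refine Finset.prod_congr rfl fun i _ => ?_
  rw [← pow_add, Finsupp.tsub_apply, Nat.sub_add_cancel (h i)]

lemma eval_refl {n : ℕ} {p : Po} (hp : p.totalDegree ≤ n) {z : Fin 2 → ℂ} (hz : ∀ i, ‖z i‖ = 1) :
    eval z (refl (Nn n) p) = (∏ i, z i ^ Nn n i) * conj (eval z p) := by
  rw [refl, map_sum, eval_eq' z p, map_sum, Finset.mul_sum]
  refine Finset.sum_congr rfl fun s hs => ?_
  rw [eval_mono, zpow_split z (le_Nn hp hs), map_mul]
  linear_combination (-(conj (coeff s p) * ∏ i, z i ^ (Nn n - s) i)) * zpow_mul_conj hz s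

lemma coeff_zero_poly_mul (q : Po) (f : PS) :
    MvPowerSeries.coeff 0 ((q : PS) * f) = q.coeff 0 * MvPowerSeries.coeff 0 f := by
  simp only [MvPowerSeries.coeff_zero_eq_constantCoeff_apply, map_mul]
  rw [← MvPowerSeries.coeff_zero_eq_constantCoeff_apply, coeff_coe]

lemma IsOPA.lam {α : ℝ} {n : ℕ} {f : PS} {p : Po} (h : IsOPA α n f p) (hf : MemD α f) {q : Po}
    (hq : q.totalDegree ≤ n) : Lam α f p q = conj (q.coeff 0 * MvPowerSeries.coeff 0 f) := by
  have := h.2 q hq
  rw [ip_sub_left (hf.poly_mul _) (memD_one _) (hf.poly_mul _), ip_one_left,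
    coeff_zero_poly_mul] at this
  exact sub_eq_zero.1 this

lemma poly_mul_ne {f : PS} (hf : f ≠ 0) {p : Po} (hp : p ≠ 0) : (p : PS) * f ≠ 0 :=
  mul_ne_zero (by simpa using hp) hf

lemma Lam_self_ne {α : ℝ} {f : PS} (hf : MemD α f) (hf0 : f ≠ 0) {p : Po} (hp : p ≠ 0) :
    (Lam α f p p).re ≠ 0 := fun h =>
  poly_mul_ne hf0 hp (eq_zero_of_ip_self (hf.poly_mul p) h)

lemma IsOPA.ne {α : ℝ} {n : ℕ} {f : PS} {p : Po} (h : IsOPA α n f p) (hf : MemD α f)
    (hf0 : f ≠ 0) (hp : p ≠ 0) : p.coeff 0 ≠ 0 ∧ MvPowerSeries.coeff 0 f ≠ 0 := by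
  have h1 := Lam_self_ne hf hf0 hp
  rw [h.lam hf h.1] at h1
  constructor <;> intro e <;> simp [e] at h1

lemma Lam_C_mul {α : ℝ} {f : PS} (hf : MemD α f) (c : ℂ) (r s : Po) :
    Lam α f (C c * r) s = c * Lam α f r s := by
  rw [Lam, coe_C_mul, smul_mul_assoc, ip_smul_left c (hf.poly_mul _) (hf.poly_mul _), Lam]

lemma Lam_conj (α : ℝ) (f : PS) (r s : Po) : conj (Lam α f r s) = Lam α f s r := ip_conj _ _ _

lemma coeff_zero_mul (p q : Po) : (p * q).coeff 0 = p.coeff 0 * q.coeff 0 := by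
  simpa only [constantCoeff_eq] using map_mul constantCoeff p q

/-- first step: a certificate has vanishing real part -/
lemma re_eq_zero {n : ℕ} {f : PS} {p q : Po} (hf : MemD 0 f) (hf0 : f ≠ 0)
    (hp : p.totalDegree ≤ n) (hq : q.totalDegree ≤ n) (h0 : Lam 0 f p q = 0)
    (hpos : ∀ z : Fin 2 → ℂ, (∀ i, ‖z i‖ = 1) → 0 ≤ (eval z p * conj (eval z q)).re)
    {z : Fin 2 → ℂ} (hz : ∀ i, ‖z i‖ = 1) :
    eval z p * conj (eval z q) + conj (eval z p) * eval z q = 0 := by
  set h : Po := refl (Nn n) q * p + refl (Nn n) p * q with hh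
  have hev : ∀ z : Fin 2 → ℂ, (∀ i, ‖z i‖ = 1) → eval z h = (∏ i, z i ^ Nn n i) *
      ((2 * (eval z p * conj (eval z q)).re : ℝ) : ℂ) := fun z hz => by
    rw [← Complex.add_conj, hh, map_add, map_mul, map_mul, eval_refl hq hz, eval_refl hp hz,
      map_mul, Complex.conj_conj]
    ring
  have key : ∀ t : ℝ, 0 ≤ t * (Lam 0 f h h).re + t ^ 2 * (Lam 0 f (p * h) (q * h)).re := by
    intro t
    have := transfer_nonneg hf ![p, C (t : ℂ) * h, C ((t ^ 2 : ℝ) : ℂ) * (p * h)] ![q, h, q * h]
      fun z hz => by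
        have e1 : eval z h * conj (eval z h) =
            (((2 * (eval z p * conj (eval z q)).re) ^ 2 : ℝ) : ℂ) := by
          rw [hev z hz, map_mul, Complex.conj_ofReal, Complex.ofReal_pow]
          linear_combination (((2 * (eval z p * conj (eval z q)).re : ℝ) : ℂ)) ^ 2 *
            zpow_mul_conj hz (Nn n)
        have e2 : ∑ i, eval z (![p, C (t : ℂ) * h, C ((t ^ 2 : ℝ) : ℂ) * (p * h)] i) *
            conj (eval z (![q, h, q * h] i)) = eval z p * conj (eval z q) +
            (t : ℂ) * (eval z h * conj (eval z h)) + ((t ^ 2 : ℝ) : ℂ) *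
              ((eval z p * conj (eval z q)) * (eval z h * conj (eval z h))) := by
          simp only [Fin.sum_univ_three, Matrix.cons_val_zero, Matrix.cons_val_one,
            Matrix.cons_val_two, Matrix.head_cons, Matrix.tail_cons, map_mul, eval_C]
          ring
        rw [e2, e1]
        simp only [Complex.add_re, Complex.re_ofReal_mul, Complex.re_mul_ofReal,
          Complex.ofReal_re]
        have := hpos z hz
        generalize (eval z p * conj (eval z q)).re = ρ at *
        nlinarith [mul_nonneg this (sq_nonneg (1 + 2 * t * ρ))]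
    simpa only [Fin.sum_univ_three, Matrix.cons_val_zero, Matrix.cons_val_one,
      Matrix.cons_val_two, Matrix.head_cons, Matrix.tail_cons, Lam_C_mul hf, h0, zero_add,
      Complex.add_re, Complex.re_ofReal_mul] using this
  have hA : (Lam 0 f h h).re = 0 := by
    have hA0 : 0 ≤ (Lam 0 f h h).re := by
      rw [Lam, ip_self (hf.poly_mul _), Complex.ofReal_re]; positivity
    generalize (Lam 0 f h h).re = A at *
    generalize (Lam 0 f (p * h) (q * h)).re = B at *
    by_contra hne
    have hA : 0 < A := lt_of_le_of_ne hA0 (Ne.symm hne)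
    have hB : 0 < |B| + 1 := by positivity
    have h1 := key (-(A / (|B| + 1)))
    have h2 : 0 < A / (|B| + 1) := div_pos hA hB
    have h3 : A / (|B| + 1) * (|B| + 1) = A := div_mul_cancel₀ _ hB.ne'
    generalize A / (|B| + 1) = u at *
    nlinarith [le_abs_self B, mul_pos h2 h2]
  have hz0 : h = 0 := by
    by_contra hne
    exact Lam_self_ne hf hf0 hne hA
  have h1 := hev z hz
  rw [hz0, map_zero, ← Complex.add_conj, map_mul, Complex.conj_conj] at h1
  exact (mul_eq_zero.1 h1.symm).resolve_left (left_ne_zero_of_mul_eq_one (zpow_mul_conj hz _))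

theorem noCert_of_isOPA {n : ℕ} {f : PS} {p : Po} (hf : MemD 0 f) (hf0 : f ≠ 0)
    (h : IsOPA 0 n f p) (hp0 : p ≠ 0) : NoCert n p := by
  intro q hq hq0 hpos
  by_contra hqne
  obtain ⟨hpc, hfc⟩ := h.ne hf hf0 hp0
  have hre := fun z hz => re_eq_zero (z := z) hf hf0 h.1 hq (by simp [h.lam hf hq, hq0]) hpos hz
  obtain ⟨p1, q1, g, hco, rfl, rfl⟩ := UniqueFactorizationMonoid.exists_reduced_factors p hp0 q
  have hg : g ≠ 0 := left_ne_zero_of_mul hp0
  have hp1 : p1 ≠ 0 := right_ne_zero_of_mul hp0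
  have hq1 : q1 ≠ 0 := right_ne_zero_of_mul hqne
  have hdp := h.1
  rw [totalDegree_mul_of_isDomain hg hp1] at hdp
  rw [totalDegree_mul_of_isDomain hg hq1] at hq
  have dp1 : p1.totalDegree ≤ n := by omega
  have dq1 : q1.totalDegree ≤ n := by omega
  rw [coeff_zero_mul] at hpc hq0
  have hg0 : g.coeff 0 ≠ 0 := left_ne_zero_of_mul hpc
  have hp10 : p1.coeff 0 ≠ 0 := right_ne_zero_of_mul hpc
  have hq10 : q1.coeff 0 = 0 := (mul_eq_zero.1 hq0).resolve_left hg0
  have hX : p1 * refl (Nn n) q1 + refl (Nn n) p1 * q1 = 0 := by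
    refine (mul_eq_zero.1 (poly_eq_of_torus (q := 0) fun z hz => ?_)).resolve_left hg
    have h1 := hre z hz
    simp only [map_mul, map_add, map_zero, eval_refl dp1 hz, eval_refl dq1 hz] at h1 ⊢
    by_cases hgz : eval z g = 0
    · simp [hgz]
    · have h2 : conj (eval z g) ≠ 0 := by simpa using hgz
      refine mul_left_cancel₀ h2 ?_
      linear_combination (∏ i, z i ^ Nn n i) * h1
  obtain ⟨r, hr⟩ : p1 ∣ refl (Nn n) p1 :=
    hco.dvd_of_dvd_mul_right ⟨-refl (Nn n) q1, by linear_combination hX⟩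
  have hr2 : r * refl (Nn r.totalDegree) r = monomial (Nn r.totalDegree) 1 := by
    refine mul_left_cancel₀ hp1 (poly_eq_of_torus fun z hz => ?_)
    have h1 := congrArg (eval z) hr
    simp only [map_mul, eval_refl dp1 hz, eval_refl (le_refl r.totalDegree) hz, eval_mono] at h1 ⊢
    by_cases hz1 : eval z p1 = 0
    · simp [hz1]
    · have h2 : conj (eval z p1) ≠ 0 := by simpa using hz1
      have h3 := congrArg conj h1
      simp only [map_mul, Complex.conj_conj] at h3
      have h4 := zpow_mul_conj hz (Nn n)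
      refine mul_left_cancel₀ h2 ?_
      generalize (∏ i, z i ^ Nn n i) = m at *
      generalize (∏ i, z i ^ Nn r.totalDegree i) = m' at *
      linear_combination (-(m' * eval z p1 * eval z r)) * h3 - (m' * conj m * eval z p1) * h1 +
        (m' * eval z p1 * conj (eval z p1)) * h4
  obtain ⟨e, κ, -, hκ, rfl⟩ := (dvd_monomial_iff_exists one_ne_zero).1 ⟨_, hr2.symm⟩
  have hκ0 : κ ≠ 0 := by rintro rfl; simp at hκ
  have he : e ∈ (refl (Nn n) p1).support := by
    rw [mem_support_iff, hr]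
    have := coeff_mul_monomial 0 e κ p1
    rw [zero_add] at this
    rw [this]
    exact mul_ne_zero hp10 hκ0
  obtain ⟨D, hD, hDe⟩ := Finset.mem_biUnion.1 (support_sum he)
  have hDe' : e = Nn n - D := Finset.mem_singleton.1 (support_monomial_subset hDe)
  have hid : ∀ z : Fin 2 → ℂ, (∀ i, ‖z i‖ = 1) →
      (∏ i, z i ^ D i) * conj (eval z p1) = κ * eval z p1 := fun z hz => by
    have h1 := congrArg (eval z) hr
    rw [eval_refl dp1 hz, map_mul, eval_mono, zpow_split z (le_Nn dp1 hD), ← hDe'] at h1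
    refine mul_left_cancel₀ (left_ne_zero_of_mul_eq_one (zpow_mul_conj hz e)) ?_
    linear_combination h1
  by_cases hD0 : D = 0
  · subst hD0
    have h1 : refl (Nn n) q1 + C κ * monomial (Nn n) 1 * q1 = 0 := by
      refine (mul_eq_zero.1 (poly_eq_of_torus (q := 0) fun z hz => ?_)).resolve_left hp1
      have h1 := congrArg (eval z) hX
      have h2 := hid z hz
      simp only [map_mul, map_add, map_zero, eval_refl dp1 hz, eval_refl dq1 hz, eval_mono, eval_C,
        Finsupp.coe_zero, Pi.zero_apply, pow_zero, Finset.prod_const_one] at h1 h2 ⊢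
      linear_combination h1 - ((∏ i, z i ^ Nn n i) * eval z q1) * h2
    have h2 := transfer_zero (memD_one 0) ![q1, C κ * (q1 * q1)] ![q1, 1] fun z hz => by
      have h2 := congrArg (eval z) h1
      simp only [map_mul, map_add, map_zero, eval_refl dq1 hz, eval_mono, eval_C] at h2
      simp only [Fin.sum_univ_two, Matrix.cons_val_zero, Matrix.cons_val_one, map_mul, eval_C,
        map_one]
      refine mul_left_cancel₀ (left_ne_zero_of_mul_eq_one (zpow_mul_conj hz (Nn n))) ?_
      linear_combination eval z q1 * h2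
    have h3 : Lam 0 1 (q1 * q1) 1 = 0 := by
      rw [← Lam_conj, Lam, coe_one, one_mul, ip_one_left, coeff_zero_poly_mul, coeff_zero_mul,
        hq10]
      simp
    simp only [Fin.sum_univ_two, Matrix.cons_val_zero, Matrix.cons_val_one,
      Lam_C_mul (memD_one 0), h3, mul_zero, add_zero] at h2
    exact Lam_self_ne (memD_one 0) one_ne_zero hq1 (by rw [h2]; rfl)
  · have hdeg : (g * monomial D 1).totalDegree ≤ n := by
      refine (totalDegree_mul _ _).trans ?_
      have := (totalDegree_monomial_le D (1 : ℂ)).trans (le_totalDegree hD)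
      omega
    have h1 : Lam 0 f (g * monomial D 1) (g * p1) = 0 := by
      rw [← Lam_conj, h.lam hf hdeg, coeff_zero_mul, coeff_monomial, if_neg hD0]
      simp
    have h2 := transfer_zero hf ![g * monomial D 1, C (-κ) * (g * p1)] ![g * p1, g] fun z hz => by
      simp only [Fin.sum_univ_two, Matrix.cons_val_zero, Matrix.cons_val_one, map_mul, eval_C,
        eval_mono]
      linear_combination (eval z g * conj (eval z g)) * hid z hz
    simp only [Fin.sum_univ_two, Matrix.cons_val_zero, Matrix.cons_val_one,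
      Lam_C_mul hf, h1, zero_add, h.lam hf (q := g) (by omega)] at h2
    exact mul_ne_zero (neg_ne_zero.2 hκ0) ((map_ne_zero _).2 (mul_ne_zero hg0 hfc)) h2

end Pool.Agent.Lib.MP_e9e3a0_an
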