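import Pool.Agent.Lib.MP_e9e3a0_an.AllFacts

/-
Former hand-in HardyLines (helper52), moved here on 12-03 to free a slot. Its claim text was:
Proves: For (b,c)≠(0,0) the following are equivalent: the line a+bz1+cz2=0 is in Curves 0 1; it is contained in a curve of Curves 0 n for some n; it is in Curves α 1 for every real α; ||b|−|c||<|a|.
Definitions: f a power series in z1,z2 over C; wt α (j,k)=((j+1)(k+1))^α; MemD α f: Σ|f_d|²·wt<∞ (f∈D_α); ip α f g=Σ f_d·conj(g_d)·wt; IsOPA α n f p: total degree of p ≤n and ip(pf−1,qf)=0 for all q of total degree ≤n (p is the optimal approximant p_n* to 1/f); Z p=zero set of p in C²; Curves α n=all sets Z p with p a nonconstant OPA of degree n of some f≠0 in D_α; Line a b c={a+bz1+cz2=0}.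
Relation: Partial answer to Q1: the explicit list of all lines for α=0 (all of n=1, and the lines and line components for n=2), which are also the lines occurring for every α at once; irreducible conics and the full list for a fixed α>0 are not treated here. Earlier work we recall: single examples meeting D² (Genin–Kamp 1975, Sargent–Sola); we know no characterisation.
-/

set_option autoImplicit false

namespace Pool.Agent.Results.MP_e9e3a0_an.HardyLines

open Pool.Agent.Lib.MP_e9e3a0_an MvPolynomial

/-- The lines that are zero sets, or components of zero sets, of optimal approximants in the Hardy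
space of the bidisk; they are the lines that occur for every `α`. -/
theorem result (a b c : ℂ) (hbc : b ≠ 0 ∨ c ≠ 0) :
    List.TFAE [Line a b c ∈ Curves 0 1,
      ∃ n, ∃ C ∈ Curves 0 n, Line a b c ⊆ C,
      ∀ α : ℝ, Line a b c ∈ Curves α 1,
      |‖b‖ - ‖c‖| < ‖a‖] := by
  obtain ⟨-, h2, -, -, h5, h6, -⟩ := allFacts
  tfae_have 1 → 2 := fun h => ⟨1, _, h, subset_rfl⟩
  tfae_have 2 → 1 := fun ⟨n, C, hC, h⟩ => h5 0 n a b c hbc C hC h
  tfae_have 1 → 3 := fun h α => h2 α 1 h
  tfae_have 3 → 1 := fun h => h 0
  tfae_have 1 ↔ 4 := h6 a b c hbc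
  tfae_finish

end Pool.Agent.Results.MP_e9e3a0_an.HardyLines
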