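import Pool.Agent.Lib.MP_e9e3a0_an.Exist

set_option autoImplicit false

namespace Pool.Agent.Lib.MP_e9e3a0_an

open ComplexConjugate Filter Topology MvPolynomial

noncomputable def lin (a b c : ℂ) : Po := C a + C b * X 0 + C c * X 1

lemma eval_lin (a b c : ℂ) (z : Fin 2 → ℂ) : eval z (lin a b c) = a + b * z 0 + c * z 1 := by
  simp [lin]

lemma Z_lin (a b c : ℂ) : Z (lin a b c) = Line a b c := by
  ext z; simp [Z, Line, eval_lin]

lemma single_ne : (Finsupp.single 0 1 : Ex) ≠ Finsupp.single 1 1 := by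
  intro h; simpa using DFunLike.congr_fun h 0

lemma coeff_lin (a b c : ℂ) : (lin a b c).coeff 0 = a ∧
    (lin a b c).coeff (Finsupp.single 0 1) = b ∧ (lin a b c).coeff (Finsupp.single 1 1) = c := by
  have h0 : ∀ i : Fin 2, (0 : Ex) ≠ Finsupp.single i 1 := fun i h => by
    simpa using DFunLike.congr_fun h i
  simp [lin, coeff_X, coeff_C, h0, single_ne, single_ne.symm, (h0 _).symm]

lemma deg_lin_le (a b c : ℂ) : (lin a b c).totalDegree ≤ 1 := by
  have h : ∀ (u : ℂ) (i : Fin 2), (C u * X i : Po).totalDegree ≤ 1 := fun u i =>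
    (totalDegree_mul _ _).trans (by simp)
  exact (totalDegree_add _ _).trans (max_le ((totalDegree_add _ _).trans
    (max_le (by simp) (h _ _))) (h _ _))

lemma deg_lin {a b c : ℂ} (h : b ≠ 0 ∨ c ≠ 0) : (lin a b c).totalDegree = 1 := by
  refine le_antisymm (deg_lin_le a b c) ?_
  rcases h with h | h
  · simpa using le_totalDegree (p := lin a b c) (s := Finsupp.single 0 1)
      (mem_support_iff.2 (by rwa [(coeff_lin a b c).2.1]))
  · simpa using le_totalDegree (p := lin a b c) (s := Finsupp.single 1 1)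
      (mem_support_iff.2 (by rwa [(coeff_lin a b c).2.2]))

lemma eq_lin {q : Po} (hq : q.totalDegree ≤ 1) :
    q = lin (q.coeff 0) (q.coeff (Finsupp.single 0 1)) (q.coeff (Finsupp.single 1 1)) := by
  ext d
  by_cases h0 : d = 0
  · rw [h0, (coeff_lin _ _ _).1]
  by_cases h1 : d = Finsupp.single 0 1
  · rw [h1, (coeff_lin _ _ _).2.1]
  by_cases h2 : d = Finsupp.single 1 1
  · rw [h2, (coeff_lin _ _ _).2.2]
  have hd : 1 < ∑ i ∈ d.support, d i := by
    rw [show ∑ i ∈ d.support, d i = d.sum fun _ e => e from rfl,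
      Finsupp.sum_fintype _ _ (by simp), Fin.sum_univ_two]
    by_contra hh
    have : (d 0 = 0 ∧ d 1 = 0) ∨ (d 0 = 1 ∧ d 1 = 0) ∨ (d 0 = 0 ∧ d 1 = 1) := by omega
    rcases this with h | h | h
    · exact h0 (by ext i; fin_cases i <;> simp [h.1, h.2])
    · exact h1 (by ext i; fin_cases i <;> simp [h.1, h.2])
    · exact h2 (by ext i; fin_cases i <;> simp [h.1, h.2])
  rw [coeff_eq_zero_of_totalDegree_lt (hq.trans_lt hd),
    coeff_eq_zero_of_totalDegree_lt ((deg_lin_le _ _ _).trans_lt hd)]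

lemma exists_unit (u : ℂ) : ∃ w : ℂ, ‖w‖ = 1 ∧ u * w = (‖u‖ : ℂ) := by
  by_cases h : u = 0
  · exact ⟨1, by simp, by simp [h]⟩
  · refine ⟨(‖u‖ : ℂ) / u, by simp [h], by field_simp⟩

lemma noCert_lin {a b c : ℂ} (h : |‖b‖ - ‖c‖| < ‖a‖) : NoCert 1 (lin a b c) := by
  intro q hq hq0 hpos
  rw [eq_lin hq, hq0] at hpos ⊢
  generalize q.coeff (Finsupp.single 0 1) = β at *
  generalize q.coeff (Finsupp.single 1 1) = γ at *
  have key : ∀ σ : ℂ, ‖σ‖ = 1 → ‖b + c * σ‖ < ‖a‖ → β + γ * σ = 0 := by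
    intro σ hσ hlt
    by_contra hne
    obtain ⟨w, hw, hw2⟩ := exists_unit (a * conj (β + γ * σ))
    have h1 := hpos ![-conj w, -conj w * σ] (fun i => by fin_cases i <;> simp [hw, hσ])
    have hww : w * conj w = 1 := by rw [Complex.mul_conj', hw]; simp
    have e : eval ![-conj w, -conj w * σ] (lin a b c) *
        conj (eval ![-conj w, -conj w * σ] (lin 0 β γ)) =
        (b + c * σ) * conj (β + γ * σ) - (‖a * conj (β + γ * σ)‖ : ℂ) := by
      rw [← hw2]
      simp only [eval_lin, Matrix.cons_val_zero, Matrix.cons_val_one, map_add, map_mul, map_neg,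
        Complex.conj_conj, map_zero]
      linear_combination ((b + c * σ) * (conj β + conj γ * conj σ)) * hww
    rw [e, Complex.sub_re, Complex.ofReal_re] at h1
    have h2 := Complex.re_le_norm ((b + c * σ) * conj (β + γ * σ))
    rw [norm_mul] at h1 h2
    have h3 : 0 < ‖conj (β + γ * σ)‖ := by
      rw [Complex.norm_conj]; exact norm_pos_iff.2 hne
    nlinarith
  obtain ⟨u, hu, hu2⟩ := exists_unit b
  obtain ⟨v, hv, hv2⟩ := exists_unit c
  have hu0 : u ≠ 0 := by rintro rfl; simp at hu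
  set σ₀ : ℂ := -v / u with hσ₀
  have hσ : ‖σ₀‖ = 1 := by simp [hσ₀, hu, hv]
  have h0 : ‖b + c * σ₀‖ < ‖a‖ := by
    have e : b + c * σ₀ = ((‖b‖ - ‖c‖ : ℝ) : ℂ) / u := by
      push_cast; rw [← hu2, ← hv2, hσ₀]; field_simp; ring
    rw [e, norm_div, hu, div_one, Complex.norm_real, Real.norm_eq_abs]; exact h
  have hc : ContinuousAt (fun t : ℝ => ‖b + c * (σ₀ * Complex.exp (t * Complex.I))‖) 0 := by
    fun_prop
  have hev := hc.eventually (gt_mem_nhds (a := ‖a‖) (by simpa using h0))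
  obtain ⟨t, ⟨ht1, ht2⟩, ht3⟩ := (((hev.filter_mono nhdsWithin_le_nhds).and
    (Ioo_mem_nhdsGT (show (0 : ℝ) < 1 by norm_num))).and self_mem_nhdsWithin).exists
  have h1 := key σ₀ hσ h0
  have h2 := key _ (by simp [hσ]) ht1
  have hne : Complex.exp (t * Complex.I) ≠ 1 := by
    intro e
    have := congrArg Complex.im e
    rw [Complex.exp_ofReal_mul_I_im, Complex.one_im] at this
    exact (Real.sin_pos_of_pos_of_lt_pi ht2.1 (by linarith [ht2.2, Real.pi_gt_three])).ne' this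
  have hσ0 : σ₀ ≠ 0 := by intro e; simp [e] at hσ
  have hγ : γ = 0 := by
    have : γ * (σ₀ * (Complex.exp (t * Complex.I) - 1)) = 0 := by linear_combination h2 - h1
    exact (mul_eq_zero.1 this).resolve_right (mul_ne_zero hσ0 (sub_ne_zero.2 hne))
  have hβ : β = 0 := by simpa [hγ] using h1
  simp [hβ, hγ, lin]

lemma noCert_of_stable {n : ℕ} {p : Po}
    (h : ∀ z : Fin 2 → ℂ, (∀ i, ‖z i‖ ≤ 1) → eval z p ≠ 0) : NoCert n p := by
  intro q _ hq0 hpos
  refine poly_eq_of_torus fun z hz => ?_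
  rw [map_zero]
  by_contra hne
  have hd : ∀ r : Po, Differentiable ℂ fun w : ℂ => eval (w • z) r := by
    intro r
    induction r using MvPolynomial.induction_on with
    | C a => simp
    | add p q hp hq => simp only [map_add]; exact hp.add hq
    | mul_X p i hp =>
      simp only [map_mul, eval_X, Pi.smul_apply, smul_eq_mul]
      exact hp.mul (by fun_prop)
  have hp : ∀ w ∈ Metric.closedBall (0 : ℂ) 1, eval (w • z) p ≠ 0 := fun w hw =>
    h _ fun i => by simpa [hz i] using hw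
  set F : ℂ → ℂ := fun w => eval (w • z) q / eval (w • z) p with hF
  have hF1 : F 1 ≠ 0 := by
    simp only [hF, one_smul]
    exact div_ne_zero hne (h z fun i => (hz i).le)
  have hs : 0 < ‖F 1‖⁻¹ := inv_pos.2 (norm_pos_iff.2 hF1)
  set G : ℂ → ℂ := fun w => Complex.exp (-((‖F 1‖⁻¹ : ℝ) * F w)) with hG
  have hFd : DifferentiableOn ℂ F (Metric.closedBall 0 1) :=
    (hd q).differentiableOn.div (hd p).differentiableOn hp
  have hGd : DiffContOnCl ℂ G (Metric.ball 0 1) := by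
    refine DifferentiableOn.diffContOnCl ?_
    rw [closure_ball _ one_ne_zero]
    exact (hFd.const_mul _).neg.cexp
  have hG0 : G 0 = 1 := by
    have : F 0 = 0 := by
      simp only [hF, zero_smul, eval_zero, constantCoeff_eq, hq0, zero_div]
    simp only [hG, this, mul_zero, neg_zero, Complex.exp_zero]
  have hle : ∀ w ∈ Metric.ball (0 : ℂ) 1, ‖G w‖ ≤ 1 := fun w hw => by
    refine Complex.norm_le_of_forall_mem_frontier_norm_le Metric.isBounded_ball hGd
      (fun u hu => ?_) (subset_closure hw)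
    rw [frontier_ball _ one_ne_zero, mem_sphere_zero_iff_norm] at hu
    rw [hG, Complex.norm_exp, Real.exp_le_one_iff, Complex.neg_re, Complex.re_ofReal_mul,
      neg_nonpos]
    refine mul_nonneg hs.le ?_
    have h1 := hpos (u • z) fun i => by simp [hu, hz i]
    simp only [hF, Complex.div_re, ← add_div]
    refine div_nonneg ?_ (Complex.normSq_nonneg _)
    simp only [Complex.mul_re, Complex.conj_re, Complex.conj_im] at h1
    linarith
  have hc := Complex.eqOn_closedBall_of_isMaxOn_norm hGd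
    (fun w hw => by simpa [hG0] using hle w hw) (show (1 : ℂ) ∈ _ by simp)
  rw [Function.const_apply, hG0, hG, Complex.exp_eq_one_iff] at hc
  obtain ⟨k, hk⟩ := hc
  have h1 := congrArg norm hk
  rw [norm_neg, norm_mul, Complex.norm_real, Real.norm_of_nonneg hs.le,
    inv_mul_cancel₀ (norm_pos_iff.2 hF1).ne'] at h1
  simp only [norm_mul, Complex.norm_intCast, Complex.norm_ofNat, Complex.norm_real,
    Complex.norm_I, mul_one, Real.norm_of_nonneg Real.pi_pos.le] at h1
  by_cases hk0 : k = 0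
  · simp [hk0] at h1
  · have h2 : (1 : ℝ) ≤ |(k : ℝ)| := by exact_mod_cast Int.one_le_abs hk0
    nlinarith [Real.pi_gt_three]

lemma lin_dvd {a b c : ℂ} (h : b ≠ 0 ∨ c ≠ 0) {p : Po} (hp : Line a b c ⊆ Z p) :
    lin a b c ∣ p := by
  have hirr : Irreducible (lin a b c) := by
    refine irreducible_of_totalDegree_eq_one (deg_lin h) fun x hx => isUnit_iff_ne_zero.2 ?_
    rintro rfl
    have h1 := zero_dvd_iff.1 (hx (Finsupp.single 0 1))
    have h2 := zero_dvd_iff.1 (hx (Finsupp.single 1 1))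
    rw [(coeff_lin a b c).2.1] at h1
    rw [(coeff_lin a b c).2.2] at h2
    tauto
  have hpr : (Ideal.span {lin a b c}).IsPrime :=
    (Ideal.span_singleton_prime hirr.ne_zero).2 hirr.prime
  rw [← Ideal.mem_span_singleton, ← hpr.radical,
    ← vanishingIdeal_zeroLocus_eq_radical (K := ℂ), zeroLocus_span, mem_vanishingIdeal_iff]
  intro z hz
  have h1 : eval z (lin a b c) = 0 := by simpa [aeval_eq_eval] using hz _ rfl
  have h2 : z ∈ Z p := hp (by rw [← Z_lin]; exact h1)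
  simpa [aeval_eq_eval, Z] using h2

theorem line_bound {α : ℝ} (hα : 0 ≤ α) {n : ℕ} {f : PS} {p : Po} (hf : MemD α f) (hf0 : f ≠ 0)
    (h : IsOPA α n f p) (hp0 : p ≠ 0) {a b c : ℂ} (hbc : b ≠ 0 ∨ c ≠ 0)
    (hl : Line a b c ⊆ Z p) :
    ‖b‖ < ‖a‖ + 2 ^ (α / 2) * ‖c‖ ∧ ‖c‖ < ‖a‖ + 2 ^ (α / 2) * ‖b‖ := by
  obtain ⟨g, rfl⟩ := lin_dvd hbc hl
  have hg : g ≠ 0 := right_ne_zero_of_mul hp0
  have hL : lin a b c ≠ 0 := left_ne_zero_of_mul hp0
  have hdp := h.1
  rw [totalDegree_mul_of_isDomain hL hg, deg_lin hbc] at hdp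
  have hF : MemD α ((g : PS) * f) := hf.poly_mul g
  have hF0 : (g : PS) * f ≠ 0 := poly_mul_ne hf0 hg
  have h1 := h.lam hf (q := lin 0 b c * g)
    ((totalDegree_mul _ _).trans (by have := deg_lin_le 0 b c; omega))
  rw [coeff_zero_mul, (coeff_lin _ _ _).1, zero_mul, zero_mul, map_zero, Lam, coe_mul, coe_mul,
    mul_assoc, mul_assoc] at h1
  generalize (g : PS) * f = F at *
  have e : ∀ u : ℂ, ((lin u b c : Po) : PS) * F =
      u • F + (b • (MvPowerSeries.X 0 * F) + c • (MvPowerSeries.X 1 * F)) := fun u => by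
    simp only [lin, coe_add, coe_mul, coe_C, coe_X, MvPowerSeries.smul_eq_C_mul]; ring
  have hs0 : J α ((lin a b c : Po) * F) ≠ 0 := fun e0 =>
    poly_mul_ne hF0 hL (J_eq_zero (hF.poly_mul _) e0)
  have m1 := hF.X_mul 0
  have m2 := hF.X_mul 1
  rw [ip_eq (hF.poly_mul _) (hF.poly_mul _)] at h1
  rw [e, J_add (hF.smul _) ((m1.smul _).add (m2.smul _)), J_add (m1.smul _) (m2.smul _),
    J_smul _ hF, J_smul _ m1, J_smul _ m2] at hs0
  rw [e, e, J_add (hF.smul _) ((m1.smul _).add (m2.smul _)),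
    J_add (hF.smul _) ((m1.smul _).add (m2.smul _)), J_add (m1.smul _) (m2.smul _),
    J_smul _ hF, J_smul _ hF, J_smul _ m1, J_smul _ m2, zero_smul, zero_add] at h1
  have a1 := norm_X_ge hα 0 hF
  have a2 := norm_X_ge hα 1 hF
  have a3 := norm_X_le hα 0 hF
  have a4 := norm_X_le hα 1 hF
  have a0 : 0 < ‖J α F‖ := norm_pos_iff.2 fun e0 => hF0 (J_eq_zero hF e0)
  generalize J α F = x0 at *
  generalize J α (MvPowerSeries.X 0 * F) = x1 at *
  generalize J α (MvPowerSeries.X 1 * F) = x2 at *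
  have hy : ‖b • x1 + c • x2‖ < ‖a‖ * ‖x0‖ := by
    generalize b • x1 + c • x2 = y at *
    have e1 := norm_sub_sq (𝕜 := ℂ) y (a • x0 + y)
    rw [h1, map_zero, show y - (a • x0 + y) = -(a • x0) by abel, norm_neg, norm_smul] at e1
    have e2 : 0 < ‖a • x0 + y‖ := norm_pos_iff.2 hs0
    refine lt_of_pow_lt_pow_left₀ 2 (by positivity) ?_
    nlinarith
  have b1 : ‖b‖ * ‖x1‖ ≤ ‖b • x1 + c • x2‖ + ‖c‖ * ‖x2‖ := by
    rw [← norm_smul, ← norm_smul]
    simpa using norm_sub_le (b • x1 + c • x2) (c • x2)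
  have b2 : ‖c‖ * ‖x2‖ ≤ ‖b • x1 + c • x2‖ + ‖b‖ * ‖x1‖ := by
    rw [← norm_smul, ← norm_smul]
    simpa using norm_sub_le (b • x1 + c • x2) (b • x1)
  have c1 := mul_le_mul_of_nonneg_left a1 (norm_nonneg b)
  have c2 := mul_le_mul_of_nonneg_left a2 (norm_nonneg c)
  have c3 := mul_le_mul_of_nonneg_left a3 (norm_nonneg b)
  have c4 := mul_le_mul_of_nonneg_left a4 (norm_nonneg c)
  constructor
  · refine lt_of_mul_lt_mul_right (a := ‖x0‖) ?_ a0.le
    nlinarith
  · refine lt_of_mul_lt_mul_right (a := ‖x0‖) ?_ a0.le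
    nlinarith

lemma mem_curves_of_noCert (α : ℝ) {n : ℕ} {p : Po} (h0 : 0 < p.totalDegree)
    (hp : p.totalDegree ≤ n) (h : NoCert n p) : Z p ∈ Curves α n := by
  have hp0 : p ≠ 0 := by rintro rfl; simp at h0
  obtain ⟨f, c, hf, hf0, hc, hopa⟩ := exists_opa_of_noCert α hp hp0 h
  refine ⟨f, _, hf, hf0, hopa, ?_, ?_⟩
  · rw [totalDegree_mul_of_isDomain (by simpa using hc) hp0]; omega
  · ext z; simp [Z, hc]

end Pool.Agent.Lib.MP_e9e3a0_an
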