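import Pool.Agent.Lib.MP_e9e3a0_an.Lines

set_option autoImplicit false

namespace Pool.Agent.Lib.MP_e9e3a0_an

open ComplexConjugate Filter Topology Polynomial

lemma summable_ip1 (α : ℝ) (u v : ℂ[X]) :
    Summable fun k => u.coeff k * conj (v.coeff k) * ((((k : ℝ) + 1) ^ α : ℝ) : ℂ) :=
  summable_of_ne_finset_zero (s := u.support) fun k hk => by simp [notMem_support_iff.1 hk]

lemma ip1_add_left (α : ℝ) (u u' v : ℂ[X]) : ip1 α (u + u') v = ip1 α u v + ip1 α u' v := by
  simp only [ip1, coeff_add, add_mul]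
  exact (summable_ip1 α u v).tsum_add (summable_ip1 α u' v)

lemma ip1_add_right (α : ℝ) (u v v' : ℂ[X]) : ip1 α u (v + v') = ip1 α u v + ip1 α u v' := by
  simp only [ip1, coeff_add, map_add, mul_add, add_mul]
  exact (summable_ip1 α u v).tsum_add (summable_ip1 α u v')

lemma ip1_C_left (α : ℝ) (t : ℂ) (u v : ℂ[X]) : ip1 α (C t * u) v = t * ip1 α u v := by
  simp only [ip1, coeff_C_mul, ← tsum_mul_left, mul_assoc]

lemma ip1_C_right (α : ℝ) (t : ℂ) (u v : ℂ[X]) : ip1 α u (C t * v) = conj t * ip1 α u v := by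
  simp only [ip1, coeff_C_mul, ← tsum_mul_left, map_mul]
  exact tsum_congr fun k => by ring

@[simp] lemma ip1_zero_left (α : ℝ) (v : ℂ[X]) : ip1 α 0 v = 0 := by simp [ip1]
@[simp] lemma ip1_zero_right (α : ℝ) (v : ℂ[X]) : ip1 α v 0 = 0 := by simp [ip1]

lemma ip1_neg_left (α : ℝ) (u v : ℂ[X]) : ip1 α (-u) v = -ip1 α u v := by
  simpa using ip1_C_left α (-1) u v

lemma ip1_neg_right (α : ℝ) (u v : ℂ[X]) : ip1 α u (-v) = -ip1 α u v := by
  simpa using ip1_C_right α (-1) u v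

lemma ip1_monomial_left (α : ℝ) (k : ℕ) (t : ℂ) (v : ℂ[X]) :
    ip1 α (monomial k t) v = t * conj (v.coeff k) * ((((k : ℝ) + 1) ^ α : ℝ) : ℂ) := by
  unfold ip1
  rw [tsum_eq_single k]
  · simp
  · intro j hj
    simp [coeff_monomial, Ne.symm hj]

lemma ip1_self (α : ℝ) (u : ℂ[X]) :
    ∃ r : ℝ, ip1 α u u = r ∧ ‖u.coeff 0‖ ^ 2 ≤ r := by
  have hs : Summable fun k => ‖u.coeff k‖ ^ 2 * ((k : ℝ) + 1) ^ α :=
    summable_of_ne_finset_zero (s := u.support) fun k hk => by simp [notMem_support_iff.1 hk]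
  refine ⟨∑' k, ‖u.coeff k‖ ^ 2 * ((k : ℝ) + 1) ^ α, ?_, ?_⟩
  · rw [Complex.ofReal_tsum]
    refine tsum_congr fun k => ?_
    rw [Complex.mul_conj']; push_cast; ring
  · simpa using hs.le_tsum 0 fun k _ => by positivity

/-- the sum of the absolute values of the coefficients -/
noncomputable def l1 (u : ℂ[X]) : ℝ := ∑' k, ‖u.coeff k‖

lemma summable_l1 (u : ℂ[X]) : Summable fun k => ‖u.coeff k‖ :=
  summable_of_ne_finset_zero (s := u.support) fun k hk => by simp [notMem_support_iff.1 hk]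

lemma l1_nonneg (u : ℂ[X]) : 0 ≤ l1 u := tsum_nonneg fun _ => norm_nonneg _

lemma l1_lin (s t : ℂ) (u : ℂ[X]) : l1 ((C s + C t * X) * u) ≤ (‖s‖ + ‖t‖) * l1 u := by
  have h1 : l1 (X * u) = l1 u := by
    unfold l1
    rw [(summable_l1 _).tsum_eq_zero_add]; simp
  have h2 : ∀ (s : ℂ) (u : ℂ[X]), l1 (C s * u) = ‖s‖ * l1 u := fun s u => by
    simp only [l1, coeff_C_mul, norm_mul, tsum_mul_left]
  have h3 : ∀ u v : ℂ[X], l1 (u + v) ≤ l1 u + l1 v := fun u v => by
    unfold l1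
    rw [← (summable_l1 u).tsum_add (summable_l1 v)]
    exact (summable_l1 _).tsum_le_tsum (fun k => by rw [coeff_add]; exact norm_add_le _ _)
      ((summable_l1 u).add (summable_l1 v))
  rw [add_mul, mul_assoc, add_mul]
  refine (h3 _ _).trans ?_
  rw [h2, h2, h1]

lemma norm_ip1_le {α : ℝ} (hα : 0 ≤ α) {u : ℂ[X]} (v : ℂ[X]) {N : ℕ} (hu : u.natDegree ≤ N) :
    ‖ip1 α u v‖ ≤ l1 u * l1 v * ((N : ℝ) + 1) ^ α := by
  have hb : ∀ k, ‖u.coeff k * conj (v.coeff k) * ((((k : ℝ) + 1) ^ α : ℝ) : ℂ)‖ ≤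
      ‖u.coeff k‖ * (l1 v * ((N : ℝ) + 1) ^ α) := fun k => by
    by_cases hk : k ≤ N
    · rw [norm_mul, norm_mul, Complex.norm_conj, Complex.norm_real,
        Real.norm_of_nonneg (by positivity), mul_assoc]
      refine mul_le_mul_of_nonneg_left (mul_le_mul
        ((summable_l1 v).le_tsum k fun _ _ => norm_nonneg _) (Real.rpow_le_rpow (by positivity)
        (by exact_mod_cast Nat.succ_le_succ hk) hα) (by positivity) (l1_nonneg v)) (norm_nonneg _)
    · simp [coeff_eq_zero_of_natDegree_lt (hu.trans_lt (not_le.1 hk))]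
  refine (tsum_of_norm_bounded ((summable_l1 u).mul_right _).hasSum hb).trans ?_
  rw [tsum_mul_right, mul_assoc]; rfl

section
variable (α : ℝ) (a b c β γ : ℂ)

noncomputable def phi (y x : ℂ[X]) : ℝ :=
  (ip1 α ((C a + C c * X) * x + C b * y) (C β * y + C γ * X * x)).re

noncomputable def WT (μ : ℕ → ℝ) (A : ℂ[X][X]) : ℝ :=
  ∑' j, μ j * phi α a b c β γ (A.coeff j) (A.coeff (j + 1))

noncomputable def bk (x : ℂ[X]) : ℂ[X] := (C (-a / b) + C (-c / b) * X) * x

lemma phi_zero : phi α a b c β γ 0 0 = 0 := by simp [phi]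

lemma summable_WT (μ : ℕ → ℝ) (A : ℂ[X][X]) :
    Summable fun j => μ j * phi α a b c β γ (A.coeff j) (A.coeff (j + 1)) :=
  summable_of_ne_finset_zero (s := Finset.range (A.natDegree + 1)) fun k hk => by
    have hk' : A.natDegree < k := by simpa using hk
    rw [coeff_eq_zero_of_natDegree_lt hk', coeff_eq_zero_of_natDegree_lt (by omega), phi_zero,
      mul_zero]

lemma WT_cons (μ : ℕ → ℝ) (y : ℂ[X]) (A : ℂ[X][X]) :
    WT α a b c β γ μ (X * A + C y) =
      μ 0 * phi α a b c β γ y (A.coeff 0) + WT α a b c β γ (fun j => μ (j + 1)) A := by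
  unfold WT
  rw [(summable_WT α a b c β γ μ _).tsum_eq_zero_add]
  simp [coeff_C]

lemma phi_bk (hb : b ≠ 0) (x : ℂ[X]) : phi α a b c β γ (bk a b c x) x = 0 := by
  have e : (C a + C c * X) * x + C b * bk a b c x = 0 := by
    have h1 : C b * C (-a / b) = -C a := by rw [← C_mul, ← C_neg]; congr 1; field_simp
    have h2 : C b * C (-c / b) = -C c := by rw [← C_mul, ← C_neg]; congr 1; field_simp
    unfold bk
    linear_combination x * h1 + X * x * h2
  simp [phi, e]

lemma phi_par (y x y' x' : ℂ[X]) :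
    phi α a b c β γ (y + y') (x + x') + phi α a b c β γ (y - y') (x - x') =
      2 * phi α a b c β γ y x + 2 * phi α a b c β γ y' x' := by
  unfold phi
  have e1 : ∀ (s t : ℂ[X]), s * (x + x') + t * (y + y') = (s * x + t * y) + (s * x' + t * y') :=
    fun s t => by ring
  have e2 : ∀ (s t : ℂ[X]), s * (x - x') + t * (y - y') = (s * x + t * y) + -(s * x' + t * y') :=
    fun s t => by ring
  rw [add_comm (C β * (y + y')), add_comm (C β * (y - y')), add_comm (C β * y),
    add_comm (C β * y'), e1, e1, e2, e2]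
  generalize (C a + C c * X) * x + C b * y = u
  generalize (C a + C c * X) * x' + C b * y' = u'
  generalize C γ * X * x + C β * y = v
  generalize C γ * X * x' + C β * y' = v'
  simp only [ip1_add_left, ip1_add_right, ip1_neg_left, ip1_neg_right, Complex.add_re,
    Complex.neg_re]
  ring

lemma WT_par (A B : ℂ[X][X]) :
    WT α a b c β γ 1 (A + B) + WT α a b c β γ 1 (A - B) =
      2 * WT α a b c β γ 1 A + 2 * WT α a b c β γ 1 B := by
  unfold WT
  rw [← (summable_WT α a b c β γ 1 _).tsum_add (summable_WT α a b c β γ 1 _), ← tsum_mul_left,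
    ← tsum_mul_left, ← ((summable_WT α a b c β γ 1 _).mul_left 2).tsum_add
      ((summable_WT α a b c β γ 1 _).mul_left 2)]
  refine tsum_congr fun j => ?_
  simp only [Pi.one_apply, one_mul, coeff_add, coeff_sub, phi_par]

variable {α a b c β γ}

lemma tail_nonneg (hα : 0 ≤ α) (ha : a ≠ 0) (hb : ‖a‖ + ‖c‖ < ‖b‖)
    (hW : ∀ A, 0 ≤ WT α a b c β γ 1 (X * A)) (A : ℂ[X][X]) : 0 ≤ WT α a b c β γ 1 A := by
  have hb0 : 0 < ‖b‖ := lt_of_le_of_lt (by positivity) hb
  have hb1 : b ≠ 0 := norm_pos_iff.1 hb0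
  have h1 : ∀ (m : ℕ) (A : ℂ[X][X]),
      -phi α a b c β γ 0 ((bk a b c)^[m] (A.coeff 0)) ≤ WT α a b c β γ 1 A := by
    intro m
    induction m with
    | zero =>
      intro A
      have h2 := WT_cons α a b c β γ 1 0 A
      have h3 := hW A
      rw [map_zero, add_zero] at h2
      rw [h2] at h3
      change 0 ≤ 1 * _ + WT α a b c β γ 1 A at h3
      simp only [Function.iterate_zero, id]; linarith
    | succ m ih =>
      intro A
      have h2 := ih (X * A + C (bk a b c (A.coeff 0)))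
      rw [WT_cons, phi_bk α a b c β γ hb1, mul_zero, zero_add] at h2
      change _ ≤ WT α a b c β γ 1 A at h2
      simpa using h2
  set ρ : ℝ := (‖a‖ + ‖c‖) / ‖b‖ with hρ
  have hρ0 : 0 < ρ := div_pos (add_pos_of_pos_of_nonneg (norm_pos_iff.2 ha) (norm_nonneg _)) hb0
  have hρ1 : ρ < 1 := (div_lt_one hb0).2 hb
  set y := A.coeff 0
  have hl : ∀ m : ℕ, l1 ((bk a b c)^[m] y) ≤ ρ ^ m * l1 y ∧
      ((bk a b c)^[m] y).natDegree ≤ y.natDegree + m := by
    intro m
    induction m with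
    | zero => simp
    | succ m ih =>
      rw [Function.iterate_succ_apply']
      constructor
      · refine (l1_lin _ _ _).trans ?_
        rw [norm_div, norm_div, norm_neg, norm_neg, ← add_div, ← hρ, pow_succ', mul_assoc]
        exact mul_le_mul_of_nonneg_left ih.1 hρ0.le
      · refine natDegree_mul_le.trans ?_
        have : (C (-a / b) + C (-c / b) * X).natDegree ≤ 1 := by compute_degree
        omega
  obtain ⟨k, hk⟩ := exists_nat_ge α
  set D := y.natDegree + 2
  set K : ℝ := (‖a‖ + ‖c‖) * ‖γ‖ * l1 y ^ 2 / (ρ ^ 2) ^ D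
  have hbd : ∀ m : ℕ, phi α a b c β γ 0 ((bk a b c)^[m] y) ≤
      K * (((m + D : ℕ) : ℝ) ^ k * (ρ ^ 2) ^ (m + D)) := by
    intro m
    obtain ⟨h2, h3⟩ := hl m
    generalize (bk a b c)^[m] y = x at *
    have d1 : ((C a + C c * X) * x).natDegree ≤ y.natDegree + m + 1 := by
      refine natDegree_mul_le.trans ?_
      have : (C a + C c * X).natDegree ≤ 1 := by compute_degree
      omega
    have e1 := norm_ip1_le hα ((C 0 + C γ * X) * x) d1
    have e2 := l1_lin a c x
    have e3 := l1_lin 0 γ x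
    have e4 : (((y.natDegree + m + 1 : ℕ) : ℝ) + 1) ^ α ≤ ((m + D : ℕ) : ℝ) ^ k := by
      rw [show (((y.natDegree + m + 1 : ℕ) : ℝ) + 1) = ((m + D : ℕ) : ℝ) by
        simp only [D]; push_cast; ring, ← Real.rpow_natCast]
      refine Real.rpow_le_rpow_of_exponent_le ?_ hk
      exact_mod_cast (show 1 ≤ m + D by simp only [D]; omega)
    have e5 : phi α a b c β γ 0 x ≤ ‖ip1 α ((C a + C c * X) * x) ((C 0 + C γ * X) * x)‖ := by
      simpa [phi] using Complex.re_le_norm _
    rw [norm_zero, zero_add] at e3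
    have hx := l1_nonneg x
    have hy := l1_nonneg y
    calc phi α a b c β γ 0 x
        ≤ ((‖a‖ + ‖c‖) * (ρ ^ m * l1 y)) * (‖γ‖ * (ρ ^ m * l1 y)) * ((m + D : ℕ) : ℝ) ^ k := by
          refine e5.trans (e1.trans ?_)
          refine mul_le_mul (mul_le_mul (e2.trans (by gcongr)) (e3.trans (by gcongr))
            (l1_nonneg _) (by positivity)) e4 (by positivity) (by positivity)
      _ = K * (((m + D : ℕ) : ℝ) ^ k * (ρ ^ 2) ^ (m + D)) := by
          simp only [K]; field_simp; ring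
  have hlim := (((tendsto_pow_const_mul_const_pow_of_abs_lt_one k (r := ρ ^ 2)
    (by rw [abs_of_pos (by positivity)]; nlinarith)).comp
    (tendsto_add_atTop_nat D)).const_mul K).neg
  rw [mul_zero, neg_zero] at hlim
  exact le_of_tendsto' hlim fun m => (neg_le_neg (hbd m)).trans (h1 m A)

lemma abel_WT (hT : ∀ A, 0 ≤ WT α a b c β γ 1 A) (N : ℕ) : ∀ (A : ℂ[X][X]) (μ : ℕ → ℝ),
    (∀ j, N ≤ j → A.coeff j = 0) → Monotone μ →
      μ 0 * WT α a b c β γ 1 A ≤ WT α a b c β γ μ A := by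
  induction N with
  | zero =>
    intro A μ h _
    simp [WT, h _ (Nat.zero_le _), phi_zero]
  | succ N ih =>
    intro A μ h hμ
    have h1 := ih A.divX (fun j => μ (j + 1)) (fun j hj => by rw [coeff_divX, h _ (by omega)])
      fun i j hij => hμ (by omega)
    have h2 := hT A.divX
    have h3 := hμ (Nat.zero_le 1)
    rw [← X_mul_divX_add A, WT_cons, WT_cons]
    change μ 0 * (1 * _ + WT α a b c β γ 1 A.divX) ≤ _
    simp only [zero_add] at h1
    nlinarith

lemma phi_right_zero (y : ℂ[X]) : ∃ r : ℝ, ‖y.coeff 0‖ ^ 2 ≤ r ∧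
    phi α a b c β γ y 0 = (b * conj β).re * r := by
  obtain ⟨r, h1, h2⟩ := ip1_self α y
  refine ⟨r, h2, ?_⟩
  simp only [phi, mul_zero, zero_add, add_zero, ip1_C_left, ip1_C_right, h1, ← mul_assoc,
    Complex.re_mul_ofReal]
  rw [mul_comm b]

lemma WT_C (y : ℂ[X]) : WT α a b c β γ 1 (C y) = phi α a b c β γ y 0 := by
  have := WT_cons α a b c β γ 1 y 0
  simpa [WT, phi_zero] using this

lemma lin_zero {u v : ℂ} (h : ∀ t : ℂ, 0 ≤ (t * u + v).re) : u = 0 := by
  by_contra hu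
  have := h (-((|v.re| + 1 : ℝ) : ℂ) / u)
  rw [div_mul_cancel₀ _ hu, Complex.add_re, Complex.neg_re, Complex.ofReal_re] at this
  linarith [le_abs_self v.re]

lemma kappa_pos (ha : a ≠ 0) (hb : b ≠ 0) (hT : ∀ A, 0 ≤ WT α a b c β γ 1 A)
    (hne : β ≠ 0 ∨ γ ≠ 0) : 0 < (b * conj β).re := by
  have h0 : 0 ≤ (b * conj β).re := by
    have := hT (C 1)
    rw [WT_C] at this
    rw [phi, mul_zero, zero_add, mul_zero, add_zero, mul_one, mul_one, ← monomial_zero_left,
      ip1_monomial_left] at this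
    simpa using this
  refine lt_of_le_of_ne h0 fun hk => ?_
  have h1 : ∀ y, 0 ≤ phi α a b c β γ y 1 := fun y => by
    have := hT (X * C 1 + C y)
    obtain ⟨r, -, hr⟩ := phi_right_zero (α := α) (a := a) (b := b) (c := c) (β := β) (γ := γ) 1
    rw [WT_cons] at this
    change 0 ≤ 1 * _ + WT α a b c β γ 1 _ at this
    rwa [WT_C, hr, ← hk, zero_mul, add_zero, one_mul, coeff_C_zero] at this
  have hβ : β = 0 := by
    have : conj a * β = 0 := lin_zero (v := c * conj γ * (((2 : ℝ) ^ α : ℝ) : ℂ)) fun t => by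
      have h2 := h1 (C t)
      have e : (C a + C c * X) * 1 + C b * C t = monomial 0 (a + b * t) + monomial 1 c := by
        simp [← C_mul_X_pow_eq_monomial]; ring
      rw [phi, e, ip1_add_left, ip1_monomial_left, ip1_monomial_left] at h2
      have h3 : (t * conj t).im = 0 := by rw [Complex.mul_conj']; norm_cast
      simp only [coeff_add, mul_one, coeff_C_mul, coeff_C, coeff_X] at h2
      norm_num at h2 ⊢
      simp only [Complex.mul_re, Complex.mul_im, Complex.conj_re, Complex.conj_im] at hk h3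
      norm_num [one_add_one_eq_two] at h2
      nlinarith [congrArg (· * (t.re ^ 2 + t.im ^ 2)) hk]
    simpa [ha] using this
  have hγ : γ = 0 := by
    have : b * conj γ * (((2 : ℝ) ^ α : ℝ) : ℂ) = 0 :=
      lin_zero (v := c * conj γ * (((2 : ℝ) ^ α : ℝ) : ℂ)) fun t => by
        have h2 := h1 (C t * X)
        have e : (C a + C c * X) * 1 + C b * (C t * X) =
            monomial 0 a + monomial 1 (c + b * t) := by
          simp [← C_mul_X_pow_eq_monomial]; ring
        rw [phi, e, ip1_add_left, ip1_monomial_left, ip1_monomial_left, hβ] at h2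
        simp only [map_zero, zero_mul, zero_add, mul_one, coeff_C_mul, coeff_X_zero, mul_zero,
          coeff_X_one, Nat.cast_one, one_add_one_eq_two] at h2
        convert h2 using 2
        ring
    have h2 : (((2 : ℝ) ^ α : ℝ) : ℂ) ≠ 0 := by
      exact_mod_cast (Real.rpow_pos_of_pos two_pos α).ne'
    simpa [hb, h2] using this
  tauto

/-- quantitative positivity of the weighted form -/
lemma WT_lower (hα : 0 < α) (ha : a ≠ 0) (hb : ‖a‖ + ‖c‖ < ‖b‖) (hne : β ≠ 0 ∨ γ ≠ 0)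
    (hW : ∀ A, 0 ≤ WT α a b c β γ 1 (X * A)) : ∃ ε : ℝ, 0 < ε ∧ ∀ A : ℂ[X][X],
      ε * ‖(A.coeff 0).coeff 0‖ ^ 2 ≤ WT α a b c β γ (fun j => ((j : ℝ) + 1) ^ α) (X * A) := by
  have hb0 : b ≠ 0 := norm_pos_iff.1 (lt_of_le_of_lt (by positivity) hb)
  have hT := tail_nonneg hα.le ha hb hW
  have hκ := kappa_pos ha hb0 hT hne
  have h2 : (1 : ℝ) < 2 ^ α := Real.one_lt_rpow (by norm_num) hα
  have hm : 0 < min 1 ((2 : ℝ) ^ α - 1) := lt_min one_pos (by linarith)
  have hab : 0 < ‖a / b‖ := norm_pos_iff.2 (div_ne_zero ha hb0)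
  refine ⟨min 1 (2 ^ α - 1) * ((b * conj β).re * ‖a / b‖ ^ 2 / 2), by positivity, fun A => ?_⟩
  have e0 := WT_cons α a b c β γ (fun j => ((j : ℝ) + 1) ^ α) 0 A
  have e1 : WT α a b c β γ 1 (X * A + C 0) = 1 * _ + WT α a b c β γ 1 A :=
    WT_cons α a b c β γ 1 0 A
  have e2 : WT α a b c β γ 1 (X * A + C (bk a b c (A.coeff 0))) = 1 * _ + WT α a b c β γ 1 A :=
    WT_cons α a b c β γ 1 _ A
  rw [phi_bk α a b c β γ hb0] at e2
  rw [map_zero, add_zero] at e0 e1
  have e3 := abel_WT hT (A.natDegree + 1) A (fun j => (((j + 1 : ℕ) : ℝ) + 1) ^ α)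
    (fun j hj => coeff_eq_zero_of_natDegree_lt hj) fun i j hij =>
      Real.rpow_le_rpow (by positivity) (by exact_mod_cast (by omega)) hα.le
  have e4 := WT_par α a b c β γ (X * A + C (bk a b c (A.coeff 0))) (X * A)
  rw [add_sub_cancel_left, WT_C] at e4
  obtain ⟨r, hr1, hr2⟩ := phi_right_zero (α := α) (a := a) (b := b) (c := c) (β := β) (γ := γ)
    (bk a b c (A.coeff 0))
  have e5 : ‖(bk a b c (A.coeff 0)).coeff 0‖ = ‖a / b‖ * ‖(A.coeff 0).coeff 0‖ := by
    simp [bk, neg_div]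
  have e6 := hT (X * A + C (bk a b c (A.coeff 0)) + X * A)
  have e7 := hT A
  have e8 := hW A
  rw [e5, mul_pow] at hr1
  simp only [Nat.cast_zero, zero_add, Real.one_rpow, Nat.cast_one, one_add_one_eq_two] at e0 e3
  have e9 : (b * conj β).re * ‖a / b‖ ^ 2 / 2 * ‖(A.coeff 0).coeff 0‖ ^ 2 ≤
      WT α a b c β γ 1 (X * A) + WT α a b c β γ 1 A := by
    nlinarith [mul_le_mul_of_nonneg_left hr1 hκ.le]
  have m1 := min_le_left 1 ((2 : ℝ) ^ α - 1)
  have m2 := min_le_right 1 ((2 : ℝ) ^ α - 1)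
  have e10 := mul_le_mul_of_nonneg_left e9 hm.le
  nlinarith [mul_le_mul_of_nonneg_right m1 e8, mul_le_mul_of_nonneg_right m2 e7]

end

end Pool.Agent.Lib.MP_e9e3a0_an
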