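import Pool.Agent.Lib.MP_e9e3a0_an.Slice

set_option autoImplicit false

namespace Pool.Agent.Lib.MP_e9e3a0_an

open ComplexConjugate Filter Topology Polynomial

lemma ip1_comp (α : ℝ) {v : ℂ} (hv : ‖v‖ = 1) (p q : ℂ[X]) :
    ip1 α (p.comp (C v * X)) (q.comp (C v * X)) = ip1 α p q := by
  refine tsum_congr fun k => ?_
  have h : v ^ k * conj (v ^ k) = 1 := by rw [Complex.mul_conj', norm_pow, hv]; simp
  rw [comp_C_mul_X_coeff, comp_C_mul_X_coeff, map_mul]
  linear_combination (p.coeff k * conj (q.coeff k) * ((((k : ℝ) + 1) ^ α : ℝ) : ℂ)) * h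

lemma Cert1.rotate {α : ℝ} {a b c β γ : ℂ} (h : Cert1 α a b c β γ) {e u v : ℂ} (he : ‖e‖ = 1)
    (hu : ‖u‖ = 1) (hv : ‖v‖ = 1) :
    Cert1 α (a * e) (b * e * u) (c * e * v) (β * e * u) (γ * e * v) := by
  intro ζ hζ g
  have hv1 : conj v * v = 1 := by rw [mul_comm, Complex.mul_conj', hv]; simp
  have he1 : conj e * e = 1 := by rw [mul_comm, Complex.mul_conj', he]; simp
  have h1 := h (u * ζ) (by simp [hu, hζ]) (g.comp (C (conj v) * X))
  have e1 : (g.comp (C (conj v) * X)).comp (C v * X) = g := by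
    rw [comp_assoc, mul_comp, C_comp, X_comp, ← mul_assoc, ← C_mul, hv1]; simp
  rw [← ip1_comp α hv, mul_comp, mul_comp, e1] at h1
  have e2 : (C (a * e + b * e * u * ζ) + C (c * e * v) * X) * g =
      C e * ((C (a + b * (u * ζ)) + C c * X).comp (C v * X) * g) := by
    simp only [add_comp, mul_comp, C_comp, X_comp, map_add, map_mul]; ring
  have e3 : (C (β * e * u * ζ) + C (γ * e * v) * X) * g =
      C e * ((C (β * (u * ζ)) + C γ * X).comp (C v * X) * g) := by
    simp only [add_comp, mul_comp, C_comp, X_comp, map_add, map_mul]; ring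
  rw [e2, e3, ip1_C_left, ip1_C_right, ← mul_assoc, mul_comm e, he1, one_mul]
  exact h1

noncomputable def ramp (M : ℕ) : ℂ[X] := ∑ j ∈ Finset.range M, monomial j ((M : ℂ) - j)

lemma coeff_ramp (M k : ℕ) : (ramp M).coeff k = if k < M then (M : ℂ) - k else 0 := by
  simp only [ramp, finsetSum_coeff, coeff_monomial, Finset.sum_ite_eq', Finset.mem_range]

lemma coeff_diff_zero (M : ℕ) : ((X - 1) * ramp M).coeff 0 = -(M : ℂ) := by
  rw [sub_mul, coeff_sub, one_mul, coeff_ramp]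
  split_ifs with h
  · simp
  · simp [Nat.eq_zero_of_not_pos h]

lemma coeff_diff_succ (M k : ℕ) : ((X - 1) * ramp M).coeff (k + 1) = if k < M then 1 else 0 := by
  rw [sub_mul, coeff_sub, one_mul, coeff_X_mul, coeff_ramp, coeff_ramp]
  split_ifs with h1 h2 h2
  · push_cast; ring
  · rw [show M = k + 1 by omega]; push_cast; ring
  · omega
  · simp

lemma ip1_diff (α : ℝ) (M : ℕ) (v : ℂ[X]) : ip1 α ((X - 1) * ramp M) v =
    ∑ k ∈ Finset.range M, conj (v.coeff (k + 1)) * ((((k : ℝ) + 2) ^ α : ℝ) : ℂ) -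
      M * conj (v.coeff 0) := by
  rw [ip1, tsum_eq_sum (s := Finset.range (M + 1)), Finset.sum_range_succ', coeff_diff_zero]
  · rw [sub_eq_add_neg (∑ k ∈ Finset.range M, _)]
    refine congrArg₂ (· + ·) (Finset.sum_congr rfl fun k hk => ?_) (by simp)
    rw [coeff_diff_succ, if_pos (Finset.mem_range.1 hk), one_mul, Nat.cast_succ, add_assoc,
      one_add_one_eq_two]
  · intro k hk
    obtain ⟨j, rfl⟩ : ∃ j, k = j + 1 := ⟨k - 1, by simp at hk; omega⟩
    rw [coeff_diff_succ, if_neg (by simp at hk; omega)]; simp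

lemma ramp_n (α : ℝ) (M : ℕ) : ip1 α ((X - 1) * ramp M) ((X - 1) * ramp M) =
    ((∑ k ∈ Finset.range M, ((k : ℝ) + 2) ^ α + (M : ℝ) ^ 2 : ℝ) : ℂ) := by
  rw [ip1_diff, coeff_diff_zero]
  push_cast
  rw [Finset.sum_congr rfl fun k hk => by
    rw [coeff_diff_succ, if_pos (Finset.mem_range.1 hk), map_one, one_mul]]
  simp only [map_neg, Complex.conj_natCast]; ring

lemma ramp_m (α : ℝ) (M : ℕ) : ip1 α ((X - 1) * ramp M) (ramp M) =
    ((∑ k ∈ Finset.range M, ((M : ℝ) - (k + 1)) * ((k : ℝ) + 2) ^ α - (M : ℝ) ^ 2 : ℝ) : ℂ) := by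
  rw [ip1_diff]
  push_cast
  congr 1
  · refine Finset.sum_congr rfl fun k hk => ?_
    rw [coeff_ramp]
    split_ifs with h
    · simp
    · have : M = k + 1 := by have := Finset.mem_range.1 hk; omega
      simp [this]
  · rw [coeff_ramp]
    split_ifs with h
    · simp [pow_two]
    · simp [Nat.eq_zero_of_not_pos h]

lemma ramp_exists {α D G : ℝ} (hα : 0 < α) (hD : 0 < D) (hG : 0 ≤ G) : ∃ M : ℕ,
    G * (∑ k ∈ Finset.range M, ((k : ℝ) + 2) ^ α + (M : ℝ) ^ 2) <
      D * (∑ k ∈ Finset.range M, ((M : ℝ) - (k + 1)) * ((k : ℝ) + 2) ^ α - (M : ℝ) ^ 2) := by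
  have h1 : Tendsto (fun k : ℕ => ((k : ℝ) + 1) ^ α) atTop atTop :=
    (tendsto_rpow_atTop hα).comp (tendsto_atTop_add_const_right _ 1 tendsto_natCast_atTop_atTop)
  obtain ⟨k, ⟨hk1, hk2⟩, hk3⟩ := (((h1.eventually_gt_atTop (18 + 18 * G / D)).and
    (tendsto_natCast_atTop_atTop.eventually_ge_atTop (6 * 3 ^ α * G / D))).and
    (eventually_ge_atTop 1)).exists
  refine ⟨3 * k, ?_⟩
  have hk0 : (1 : ℝ) ≤ k := by exact_mod_cast hk3
  set W : ℝ := ((k : ℝ) + 1) ^ α with hW
  have hW0 : 0 < W := by positivity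
  have a1 : ∑ j ∈ Finset.range (3 * k), ((j : ℝ) + 2) ^ α ≤ 3 * k * (3 ^ α * W) := by
    refine (Finset.sum_le_card_nsmul _ _ (3 ^ α * W) fun j hj => ?_).trans (by simp)
    rw [hW, ← Real.mul_rpow (by norm_num) (by positivity)]
    refine Real.rpow_le_rpow (by positivity) ?_ hα.le
    have : (j : ℝ) ≤ 3 * k := by exact_mod_cast (Finset.mem_range.1 hj).le
    linarith
  have a2 : k * (k * W) ≤ ∑ j ∈ Finset.range (3 * k),
      (((3 * k : ℕ) : ℝ) - (j + 1)) * ((j : ℝ) + 2) ^ α := by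
    refine le_trans ?_ (Finset.sum_le_sum_of_subset_of_nonneg (s := Finset.Ico k (2 * k))
      (fun j hj => by simp at hj ⊢; omega) fun j hj _ => ?_)
    · refine le_trans ?_ (Finset.card_nsmul_le_sum _ _ (k * W) fun j hj => ?_)
      · simp [show 2 * k - k = k by omega]
      · obtain ⟨h2, h3⟩ := Finset.mem_Ico.1 hj
        have h4 : (k : ℝ) ≤ j := by exact_mod_cast h2
        have h5 : (j : ℝ) + 1 ≤ 2 * k := by exact_mod_cast h3
        refine mul_le_mul (by push_cast; linarith)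
          (Real.rpow_le_rpow (by positivity) (by linarith) hα.le) hW0.le (by push_cast; linarith)
    · have : (j : ℝ) + 1 ≤ ((3 * k : ℕ) : ℝ) := by exact_mod_cast Finset.mem_range.1 hj
      exact mul_nonneg (by linarith) (by positivity)
  rw [div_le_iff₀ hD] at hk2
  have hk1' : 18 * D + 18 * G < W * D := by
    have := mul_lt_mul_of_pos_right hk1 hD
    rwa [add_mul, div_mul_cancel₀ _ hD.ne'] at this
  have b1 := mul_le_mul_of_nonneg_left a1 hG
  have b2 := mul_le_mul_of_nonneg_left a2 hD.le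
  have b3 := mul_le_mul_of_nonneg_right hk2 (show (0 : ℝ) ≤ k * W by positivity)
  have b4 := mul_lt_mul_of_pos_right hk1' (show (0 : ℝ) < k * k by positivity)
  push_cast at b2 ⊢
  nlinarith

lemma torus_key {a b c β γ : ℂ} (hpos : ∀ z : Fin 2 → ℂ, (∀ i, ‖z i‖ = 1) →
    0 ≤ (MvPolynomial.eval z (lin a b c) * conj (MvPolynomial.eval z (lin 0 β γ))).re)
    {σ : ℂ} (hσ : ‖σ‖ = 1) : ‖a‖ * ‖β + γ * σ‖ ≤ ((b + c * σ) * conj (β + γ * σ)).re := by
  obtain ⟨w, hw, hw2⟩ := exists_unit (a * conj (β + γ * σ))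
  have h1 := hpos ![-conj w, -conj w * σ] (fun i => by fin_cases i <;> simp [hw, hσ])
  have hww : w * conj w = 1 := by rw [Complex.mul_conj', hw]; simp
  have e : MvPolynomial.eval ![-conj w, -conj w * σ] (lin a b c) *
      conj (MvPolynomial.eval ![-conj w, -conj w * σ] (lin 0 β γ)) =
      (b + c * σ) * conj (β + γ * σ) - (‖a * conj (β + γ * σ)‖ : ℂ) := by
    rw [← hw2]
    simp only [eval_lin, Matrix.cons_val_zero, Matrix.cons_val_one, map_add, map_mul, map_neg,
      Complex.conj_conj, map_zero]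
    linear_combination ((b + c * σ) * (conj β + conj γ * conj σ)) * hww
  rw [e, Complex.sub_re, Complex.ofReal_re, norm_mul, Complex.norm_conj] at h1
  linarith

lemma boundary_real {α A B : ℝ} (hα : 0 < α) (hA : 0 < A) (hB : 0 < B) {β γ : ℂ}
    (h : Cert1 α A (-((A + B : ℝ) : ℂ)) B β γ) : β = 0 ∧ γ = 0 := by
  have hk := fun σ hσ => torus_key (σ := σ) (fun z hz => h.torus hz) hσ
  have h1 := hk 1 (by simp)
  have hre : (β + γ).re = 0 → β + γ = 0 := fun h0 => by
    have h2 := norm_nonneg (β + γ)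
    simp only [mul_one, Complex.norm_real, Real.norm_of_nonneg hA.le, Complex.mul_re,
      Complex.conj_re, h0, Complex.add_im, Complex.neg_im, Complex.ofReal_im, mul_zero, neg_zero,
      add_zero, zero_mul, sub_zero] at h1
    exact norm_eq_zero.1 (by nlinarith)
  have hle : (β + γ).re ≤ 0 := by
    have h2 := norm_nonneg (β + γ)
    simp only [mul_one, Complex.norm_real, Real.norm_of_nonneg hA.le, Complex.mul_re,
      Complex.conj_re, Complex.add_im, Complex.neg_im, Complex.ofReal_im, neg_zero,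
      add_zero, zero_mul, sub_zero, Complex.add_re (-_), Complex.neg_re, Complex.ofReal_re] at h1
    nlinarith
  have hδ : β + γ = 0 := by
    refine hre (le_antisymm hle (not_lt.1 fun hlt => ?_))
    obtain ⟨M, hM⟩ := ramp_exists hα (neg_pos.2 hlt) (abs_nonneg γ.re)
    have h2 := h 1 (by simp) (ramp M)
    have e1 : (C ((A : ℂ) + -((A + B : ℝ) : ℂ) * 1) + C (B : ℂ) * X) * ramp M =
        C (B : ℂ) * ((X - 1) * ramp M) := by
      push_cast; simp only [map_add, map_mul, map_neg, map_one]; ring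
    have e2 : (C (β * 1) + C γ * X) * ramp M =
        C γ * ((X - 1) * ramp M) + C (β + γ) * ramp M := by
      simp only [map_add, map_mul, map_one]; ring
    rw [e1, e2, ip1_C_left, ip1_add_right, ip1_C_right, ip1_C_right, ramp_n, ramp_m,
      Complex.re_ofReal_mul, Complex.add_re, Complex.re_mul_ofReal, Complex.re_mul_ofReal,
      Complex.conj_re, Complex.conj_re] at h2
    have h3 : 0 ≤ ∑ k ∈ Finset.range M, ((k : ℝ) + 2) ^ α + (M : ℝ) ^ 2 := by positivity
    have h4 := mul_le_mul_of_nonneg_right (le_abs_self γ.re) h3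
    have h5 := nonneg_of_mul_nonneg_right h2 hB
    linarith
  have hβ : β = -γ := eq_neg_of_add_eq_zero_left hδ
  subst hβ
  set θ : ℝ := min 1 (A / (A + 2 * B)) with hθ
  have hθ0 : 0 < θ := lt_min one_pos (by positivity)
  have hθ1 : θ * (A + 2 * B) ≤ A := (le_div_iff₀ (by positivity)).1 (min_le_right _ _)
  set σ : ℂ := Complex.exp (Complex.I * θ) with hσ
  have hσ1 : ‖σ‖ = 1 := by rw [hσ, mul_comm]; simp
  have hσ2 : ‖σ - 1‖ ≤ θ := by
    simpa [abs_of_pos hθ0] using Real.norm_exp_I_mul_ofReal_sub_one_le (x := θ)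
  have hσ3 : 0 < ‖σ - 1‖ := by
    refine norm_pos_iff.2 (sub_ne_zero.2 fun e => ?_)
    have := congrArg Complex.im e
    rw [hσ, mul_comm, Complex.exp_ofReal_mul_I_im, Complex.one_im] at this
    exact (Real.sin_pos_of_pos_of_lt_pi hθ0
      (by linarith [min_le_left 1 (A / (A + 2 * B)), Real.pi_gt_three])).ne' this
  have h2 := hk σ hσ1
  have h3 := hk (conj σ) (by simpa using hσ1)
  have n1 : ‖-γ + γ * σ‖ = ‖γ‖ * ‖σ - 1‖ := by rw [← norm_mul]; congr 1; ring
  have n2 : ‖-γ + γ * conj σ‖ = ‖γ‖ * ‖σ - 1‖ := by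
    rw [← Complex.norm_conj (σ - 1), ← norm_mul]; congr 1; simp only [map_sub, map_one]; ring
  have n3 : σ.re ^ 2 + σ.im ^ 2 = 1 := by
    have := Complex.sq_norm σ
    rw [hσ1, Complex.normSq_apply] at this
    linarith
  have n4 : ‖σ - 1‖ ^ 2 = 2 - 2 * σ.re := by
    rw [Complex.sq_norm, Complex.normSq_apply]; simp; linarith
  rw [n1] at h2
  rw [n2] at h3
  simp only [Complex.norm_real, Real.norm_of_nonneg hA.le, Complex.mul_re, Complex.add_re,
    Complex.neg_re, Complex.ofReal_re, Complex.ofReal_im, Complex.conj_re, Complex.conj_im,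
    Complex.add_im, Complex.neg_im, Complex.mul_im] at h2 h3
  have h4 : 2 * (A * (‖γ‖ * ‖σ - 1‖)) ≤ γ.re * ((A + 2 * B) * ‖σ - 1‖ ^ 2) := by
    rw [n4]
    linear_combination h2 + h3 + (2 * B * γ.re) * n3
  have h5 : γ.re * ((A + 2 * B) * ‖σ - 1‖ ^ 2) ≤ ‖γ‖ * (A * ‖σ - 1‖) := by
    refine (mul_le_mul_of_nonneg_right (Complex.re_le_norm γ) (by positivity)).trans
      (mul_le_mul_of_nonneg_left ?_ (norm_nonneg _))
    nlinarith [mul_le_mul_of_nonneg_right hσ2 (show 0 ≤ A + 2 * B by positivity)]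
  have h6 : ‖γ‖ = 0 := by
    refine le_antisymm (not_lt.1 fun hp => ?_) (norm_nonneg _)
    nlinarith [mul_pos hp (mul_pos hA hσ3)]
  simpa using h6

lemma boundary {α : ℝ} (hα : 0 < α) {a b c β γ : ℂ} (ha : a ≠ 0) (hc : c ≠ 0)
    (hb : ‖a‖ + ‖c‖ = ‖b‖) (h : Cert1 α a b c β γ) : β = 0 ∧ γ = 0 := by
  obtain ⟨e, he, he2⟩ := exists_unit a
  obtain ⟨u, hu, hu2⟩ := exists_unit (b * e)
  obtain ⟨v, hv, hv2⟩ := exists_unit (c * e)
  have h1 := h.rotate he (u := -u) (by simpa using hu) hv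
  rw [he2, hv2, mul_neg, hu2, norm_mul, norm_mul, he, mul_one, mul_one, ← hb] at h1
  obtain ⟨h2, h3⟩ := boundary_real hα (norm_pos_iff.2 ha) (norm_pos_iff.2 hc) h1
  have e0 : e ≠ 0 := by rintro rfl; simp at he
  have u0 : u ≠ 0 := by rintro rfl; simp at hu
  have v0 : v ≠ 0 := by rintro rfl; simp at hv
  exact ⟨by simpa [e0, u0] using h2, by simpa [e0, v0] using h3⟩

theorem noCert1_of_line {α : ℝ} (hα : 0 < α) {n : ℕ} {f : PS} {p : Po} (hf : MemD α f)
    (hf0 : f ≠ 0) (h : IsOPA α n f p) (hp0 : p ≠ 0) {a b c : ℂ} (hb : b ≠ 0) (hcb : ‖c‖ ≤ ‖b‖)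
    (hl : Line a b c ⊆ Z p) {β γ : ℂ} (hC : Cert1 α a b c β γ) : β = 0 ∧ γ = 0 := by
  by_contra hne
  have hne' : β ≠ 0 ∨ γ ≠ 0 := by tauto
  have hbd := (line_bound hα.le hf hf0 h hp0 (Or.inl hb) hl).1
  obtain ⟨g, rfl⟩ := lin_dvd (Or.inl hb) hl
  obtain ⟨hpc, hfc⟩ := h.ne hf hf0 hp0
  rw [coeff_zero_mul, (coeff_lin _ _ _).1] at hpc
  have ha : a ≠ 0 := left_ne_zero_of_mul hpc
  have hle : ‖a‖ + ‖c‖ ≤ ‖b‖ := by
    by_contra hlt
    have := noCert_lin (a := a) (b := b) (c := c) (by rw [abs_of_nonneg] <;> linarith)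
      (lin 0 β γ) (deg_lin_le _ _ _) (coeff_lin _ _ _).1 fun z hz => hC.torus hz
    have h2 := deg_lin (a := 0) hne'
    rw [this] at h2; simp at h2
  rcases hle.eq_or_lt with heq | hlt
  · by_cases hc : c = 0
    · simp [hc] at heq hbd; linarith
    · exact hne (boundary hα ha hc heq hC)
  obtain ⟨ε, hε, hlow⟩ := WT_lower hα ha hlt hne' hC.WT_nonneg
  have hg : g ≠ 0 := right_ne_zero_of_mul hp0
  have hdp := h.1
  rw [MvPolynomial.totalDegree_mul_of_isDomain (left_ne_zero_of_mul hp0) hg,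
    deg_lin (Or.inl hb)] at hdp
  have h1 := h.lam hf (q := lin 0 β γ * g)
    ((MvPolynomial.totalDegree_mul _ _).trans (by have := deg_lin_le 0 β γ; omega))
  rw [coeff_zero_mul, (coeff_lin _ _ _).1, zero_mul, zero_mul, map_zero, Lam, MvPolynomial.coe_mul,
    MvPolynomial.coe_mul, mul_assoc, mul_assoc] at h1
  have hF : MemD α ((g : PS) * f) := hf.poly_mul g
  have hF0 : MvPowerSeries.coeff 0 ((g : PS) * f) ≠ 0 := by
    rw [coeff_zero_poly_mul]; exact mul_ne_zero (right_ne_zero_of_mul hpc) hfc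
  generalize (g : PS) * f = F at *
  have h2 := (Complex.continuous_re.tendsto _).comp
    (tendsto_sum_Lam hF ![lin a b c] ![lin 0 β γ])
  simp only [Fin.sum_univ_succ, Fin.sum_univ_zero, add_zero, Matrix.cons_val_zero] at h2
  have h3 : ε * ‖MvPowerSeries.coeff 0 F‖ ^ 2 ≤ (Lam α F (lin a b c) (lin 0 β γ)).re := by
    refine ge_of_tendsto h2 ((eventually_ge_atTop {0}).mono fun S hS => ?_)
    simp only [Function.comp]
    generalize hG : (∑ d ∈ S, MvPolynomial.monomial d (MvPowerSeries.coeff d F) : Po) = G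
    have h4 := hlow (E2 G)
    have h5 : mk2 (0, 0) = 0 := by ext i; fin_cases i <;> simp
    have h6 : G.coeff 0 = MvPowerSeries.coeff 0 F := by
      rw [← hG, MvPolynomial.coeff_sum]
      simp [MvPolynomial.coeff_monomial, Finset.singleton_subset_iff.1 hS]
    rw [coeff_E2, h5, h6, ← re_S2, ← map_mul, ← map_mul, ← ipw_eq_S2 α _ (wt α)
      (fun d => Real.mul_rpow (by positivity) (by positivity)), MvPolynomial.coe_mul,
      MvPolynomial.coe_mul] at h4
    exact h4
  rw [Lam, h1, Complex.zero_re] at h3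
  exact absurd h3 (not_le.2 (mul_pos hε (pow_pos (norm_pos_iff.2 hF0) 2)))

lemma swap_mem {α : ℝ} {n : ℕ} {S : Set (Fin 2 → ℂ)} (h : S ∈ Curves α n) :
    {z | z ∘ Equiv.swap 0 1 ∈ S} ∈ Curves α n := by
  obtain ⟨f, p, hf, hf0, hopa, hd, rfl⟩ := h
  let e : Fin 2 ↪ Fin 2 := (Equiv.swap 0 1).toEmbedding
  let τ : Ex ≃ Ex := Finsupp.equivCongrLeft (Equiv.swap 0 1)
  have hτ : ∀ (u : PS) d, MvPowerSeries.coeff (τ d) (MvPowerSeries.rename e u) =
      MvPowerSeries.coeff d u := fun u d => by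
    rw [← MvPowerSeries.coeff_embDomain_rename e u d, Finsupp.embDomain_eq_mapDomain]
    simp [τ, e, Finsupp.equivMapDomain_eq_mapDomain]
  have hw : ∀ d, wt α (τ d) = wt α d := fun d => by simp [wt, τ, mul_comm]
  have hip : ∀ u v : PS, ip α (MvPowerSeries.rename e u) (MvPowerSeries.rename e v) = ip α u v :=
    fun u v => by
      unfold ip
      rw [← τ.tsum_eq]
      simp only [hτ, hw]
  have hinv : ∀ q : Po, MvPolynomial.rename e (MvPolynomial.rename e q) = q := fun q => by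
    rw [MvPolynomial.rename_rename]
    have : (⇑e ∘ ⇑e) = id := by funext i; simp [e]
    rw [this, MvPolynomial.rename_id_apply]
  refine ⟨MvPowerSeries.rename e f, MvPolynomial.rename e p, ?_, ?_,
    ⟨(MvPolynomial.totalDegree_rename_le _ _).trans hopa.1, fun q hq => ?_⟩, ?_, ?_⟩
  · unfold MemD at hf ⊢
    rw [← τ.summable_iff]
    simpa only [Function.comp_def, hτ, hw] using hf
  · exact fun e0 => hf0 (MvPowerSeries.rename_injective e (by rw [e0, map_zero]))
  · have := hopa.2 _ ((MvPolynomial.totalDegree_rename_le e q).trans hq)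
    rw [← hip, map_sub, map_mul, map_mul, map_one, MvPowerSeries.rename_coe,
      MvPowerSeries.rename_coe, hinv] at this
    exact this
  · refine hd.trans_le ?_
    conv_lhs => rw [← hinv p]
    exact MvPolynomial.totalDegree_rename_le _ _
  · ext z
    simp [Z, MvPolynomial.eval_rename, e]

end Pool.Agent.Lib.MP_e9e3a0_an
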