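import Pool.Agent.Lib.MP_e9e3a0_an.OneVar

set_option autoImplicit false

namespace Pool.Agent.Lib.MP_e9e3a0_an

open ComplexConjugate Filter Topology Polynomial MeasureTheory

noncomputable def E2 : Po →ₐ[ℂ] ℂ[X][X] := MvPolynomial.aeval ![X, C X]

noncomputable def mk2 : ℕ × ℕ ≃ Ex :=
  (finTwoArrowEquiv ℕ).symm.trans Finsupp.equivFunOnFinite.symm

@[simp] lemma mk2_zero (x : ℕ × ℕ) : mk2 x 0 = x.1 := by simp [mk2]
@[simp] lemma mk2_one (x : ℕ × ℕ) : mk2 x 1 = x.2 := by simp [mk2]

lemma coeff_E2 (U : Po) (j k : ℕ) : ((E2 U).coeff j).coeff k = U.coeff (mk2 (j, k)) := by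
  induction U using MvPolynomial.induction_on' with
  | add p q hp hq => simp [hp, hq]
  | monomial s a =>
    have e : E2 (MvPolynomial.monomial s a) = monomial (s 0) (monomial (s 1) a) := by
      rw [E2, MvPolynomial.aeval_monomial, Finsupp.prod_fintype _ _ (by simp), Fin.prod_univ_two]
      simp only [Matrix.cons_val_zero, Matrix.cons_val_one, ← C_mul_X_pow_eq_monomial, map_mul,
        map_pow, Polynomial.algebraMap_apply, Algebra.algebraMap_self, RingHom.id_apply]
      ring
    rw [e, MvPolynomial.coeff_monomial, coeff_monomial]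
    by_cases h : s = mk2 (j, k)
    · simp [h]
    · rw [if_neg h]
      split_ifs with h0
      · rw [coeff_monomial, if_neg]
        intro h1
        exact h (by ext i; fin_cases i <;> simp [h0, h1])
      · simp

lemma E2_surj (A : ℂ[X][X]) : ∃ G, E2 G = A := by
  induction A using Polynomial.induction_on' with
  | add p q hp hq =>
    obtain ⟨G, rfl⟩ := hp
    obtain ⟨G', rfl⟩ := hq
    exact ⟨G + G', map_add _ _ _⟩
  | monomial n u =>
    refine ⟨aeval (MvPolynomial.X 1) u * MvPolynomial.X 0 ^ n, ?_⟩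
    rw [map_mul, map_pow, ← aeval_algHom_apply, ← C_mul_X_pow_eq_monomial]
    congr 1
    · have : E2 (MvPolynomial.X 1) = CAlgHom (R := ℂ) X := by simp [E2]
      rw [this, aeval_algHom_apply]; simp
    · simp [E2]

noncomputable def S2 (α : ℝ) (μ : ℕ → ℝ) (A B : ℂ[X][X]) : ℂ :=
  ∑' j, (μ j : ℂ) * ip1 α (A.coeff j) (B.coeff j)

lemma summable_S2 (α : ℝ) (μ : ℕ → ℝ) (A B : ℂ[X][X]) :
    Summable fun j => (μ j : ℂ) * ip1 α (A.coeff j) (B.coeff j) :=
  summable_of_ne_finset_zero (s := A.support) fun k hk => by simp [notMem_support_iff.1 hk]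

lemma summable_ipw (w : Ex → ℝ) (U : Po) (V : PS) : Summable fun d =>
    MvPowerSeries.coeff d (U : PS) * conj (MvPowerSeries.coeff d V) * (w d : ℂ) :=
  summable_of_ne_finset_zero (s := U.support) fun k hk => by
    simp [MvPolynomial.notMem_support_iff.1 hk]

lemma ipw_eq_S2 (α : ℝ) (μ : ℕ → ℝ) (w : Ex → ℝ) (hw : ∀ d, w d = μ (d 0) * ((d 1 : ℝ) + 1) ^ α)
    (U V : Po) : ipw w U V = S2 α μ (E2 U) (E2 V) := by
  rw [ipw, ← mk2.tsum_eq]
  refine ((mk2.summable_iff (f := fun d => MvPowerSeries.coeff d (U : PS) *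
    conj (MvPowerSeries.coeff d (V : PS)) * (w d : ℂ))).2 (summable_ipw w U V)).tsum_prod.trans ?_
  refine tsum_congr fun j => ?_
  rw [ip1, ← tsum_mul_left]
  refine tsum_congr fun k => ?_
  simp only [Function.comp, MvPolynomial.coeff_coe, coeff_E2, hw, mk2_zero, mk2_one]
  push_cast; ring

lemma E2_lin (a b c : ℂ) : E2 (lin a b c) = C (C a + C c * X) + C (C b) * X := by
  simp [E2, lin, Polynomial.algebraMap_apply]; ring

lemma coeff_lin_mul (L : ℂ[X]) (b : ℂ) (A : ℂ[X][X]) (j : ℕ) :
    ((C L + C (C b) * X) * A).coeff j = L * (X * A).coeff (j + 1) + C b * (X * A).coeff j := by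
  rw [add_mul, mul_assoc, coeff_add, coeff_C_mul, coeff_C_mul, coeff_X_mul]

lemma re_S2 (α : ℝ) (μ : ℕ → ℝ) (a b c β γ : ℂ) (A : ℂ[X][X]) :
    (S2 α μ (E2 (lin a b c) * A) (E2 (lin 0 β γ) * A)).re = WT α a b c β γ μ (X * A) := by
  rw [S2, Complex.re_tsum (summable_S2 _ _ _ _)]
  refine tsum_congr fun j => ?_
  rw [Complex.re_ofReal_mul, E2_lin, E2_lin, coeff_lin_mul, coeff_lin_mul, phi, map_zero, zero_add,
    add_comm (C γ * X * _)]

noncomputable abbrev hm : Measure UnitAddCircle := AddCircle.haarAddCircle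

noncomputable def sl (α : ℝ) (A B : ℂ[X][X]) (x : UnitAddCircle) : ℂ :=
  ip1 α (A.eval (C (fourier 1 x))) (B.eval (C (fourier 1 x)))

lemma fourier_nat (k : ℕ) (y : UnitAddCircle) : fourier (k : ℤ) y = fourier 1 y ^ k := by
  induction k with
  | zero => simp
  | succ k ih => rw [Nat.cast_succ, fourier_add, ih, pow_succ]

lemma integrable_circle {E : Type} [NormedAddCommGroup E] {φ : UnitAddCircle → E}
    (h : Continuous φ) : Integrable φ hm :=
  h.integrable_of_hasCompactSupport (HasCompactSupport.of_compactSpace _)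

lemma parseval1 (α : ℝ) (A B : ℂ[X][X]) :
    Continuous (sl α A B) ∧ S2 α 1 A B = ∫ x, sl α A B x ∂hm := by
  induction A using Polynomial.induction_on' with
  | add p q hp hq =>
    have e : sl α (p + q) B = fun x => sl α p B x + sl α q B x := by
      funext x; simp only [sl, eval_add, ip1_add_left]
    refine ⟨e ▸ hp.1.add hq.1, ?_⟩
    rw [e, integral_add (integrable_circle hp.1) (integrable_circle hq.1), ← hp.2, ← hq.2]
    simp only [S2, coeff_add, ip1_add_left, mul_add]
    exact (summable_S2 _ _ _ _).tsum_add (summable_S2 _ _ _ _)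
  | monomial n u =>
    induction B using Polynomial.induction_on' with
    | add p q hp hq =>
      have e : sl α (monomial n u) (p + q) =
          fun x => sl α (monomial n u) p x + sl α (monomial n u) q x := by
        funext x; simp only [sl, eval_add, ip1_add_right]
      refine ⟨e ▸ hp.1.add hq.1, ?_⟩
      rw [e, integral_add (integrable_circle hp.1) (integrable_circle hq.1), ← hp.2, ← hq.2]
      simp only [S2, coeff_add, ip1_add_right, mul_add]
      exact (summable_S2 _ _ _ _).tsum_add (summable_S2 _ _ _ _)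
    | monomial m v =>
      have e : sl α (monomial n u) (monomial m v) =
          fun x => ip1 α u v * (fourier (n : ℤ) x * conj (fourier (m : ℤ) x)) := by
        funext x
        simp only [sl, eval_monomial, ← C_pow, mul_comm u, mul_comm v, ip1_C_left, ip1_C_right,
          fourier_nat]
        ring
      refine ⟨by rw [e]; fun_prop, ?_⟩
      have h := orthonormal_iff_ite.1 (orthonormal_fourier (T := 1)) (m : ℤ) (n : ℤ)
      rw [ContinuousMap.inner_toLp] at h
      rw [e, integral_const_mul, h, S2, tsum_eq_single n]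
      · by_cases hmn : m = n
        · simp [hmn]
        · simp [coeff_monomial, hmn]
      · intro j hj
        simp [coeff_monomial, Ne.symm hj]

lemma sl_lin (α : ℝ) (a b c β γ : ℂ) (A : ℂ[X][X]) (x : UnitAddCircle) :
    sl α (E2 (lin a b c) * A) (E2 (lin 0 β γ) * A) x =
      ip1 α ((C (a + b * fourier 1 x) + C c * X) * A.eval (C (fourier 1 x)))
        ((C (β * fourier 1 x) + C γ * X) * A.eval (C (fourier 1 x))) := by
  simp only [sl, E2_lin, eval_mul, eval_add, eval_C, eval_X, map_add, map_mul, map_zero,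
    zero_add]
  congr 2 <;> ring

lemma WT_eq_integral (α : ℝ) (a b c β γ : ℂ) (A : ℂ[X][X]) : WT α a b c β γ 1 (X * A) =
    ∫ x, (sl α (E2 (lin a b c) * A) (E2 (lin 0 β γ) * A) x).re ∂hm := by
  rw [← re_S2, (parseval1 _ _ _).2, ← RCLike.re_to_complex,
    ← integral_re (integrable_circle (parseval1 _ _ _).1)]
  rfl

lemma Cert1.WT_nonneg {α : ℝ} {a b c β γ : ℂ} (h : Cert1 α a b c β γ) (A : ℂ[X][X]) :
    0 ≤ WT α a b c β γ 1 (X * A) := by
  rw [WT_eq_integral]
  refine integral_nonneg fun x => ?_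
  rw [Pi.zero_apply, sl_lin]
  exact h _ (by simp) _

lemma exists_WT_neg {α : ℝ} {a b c β γ : ℂ} (h : ¬ Cert1 α a b c β γ) :
    ∃ A, WT α a b c β γ 1 (X * A) < 0 := by
  unfold Cert1 at h
  push Not at h
  obtain ⟨ζ, hζ, g, hg⟩ := h
  obtain ⟨x₀, hx₀⟩ := (AddCircle.homeomorphCircle (T := 1) one_ne_zero).surjective
    ⟨ζ, mem_sphere_zero_iff_norm.2 hζ⟩
  rw [AddCircle.homeomorphCircle_apply] at hx₀
  have hx : fourier 1 x₀ = ζ := by rw [fourier_one, hx₀]
  have h1 : conj ζ * ζ = 1 := by rw [mul_comm, Complex.mul_conj', hζ]; simp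
  let k : UnitAddCircle → ℝ := fun x => ‖1 + conj ζ * fourier 1 x‖ ^ 2
  have hk0 : k x₀ = 4 := by simp only [k, hx, h1]; norm_num
  let φ : UnitAddCircle → ℝ := fun x => (sl α (E2 (lin a b c) * C g) (E2 (lin 0 β γ) * C g) x).re
  have hφ : Continuous φ := Complex.continuous_re.comp (parseval1 _ _ _).1
  have key := tendsto_setIntegral_pow_smul_of_unique_maximum_of_isCompact_of_continuousOn
    (μ := hm) (x₀ := x₀) (g := φ) (c := k) isCompact_univ
    (Continuous.continuousOn (by fun_prop)) (fun y _ hy => by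
      rw [hk0]
      refine one_add_lt (by simp [hζ]) fun e => hy ?_
      have h2 : fourier 1 y = fourier 1 x₀ :=
        (mul_left_cancel₀ (left_ne_zero_of_mul_eq_one h1) (e.trans h1.symm)).trans hx.symm
      simp only [fourier_one] at h2
      exact AddCircle.injective_toCircle one_ne_zero (Subtype.ext h2))
    (fun x _ => sq_nonneg _) (by rw [hk0]; norm_num) (by simp) hφ.continuousOn
  have hneg : φ x₀ < 0 := by simpa only [φ, sl_lin, hx, eval_C] using hg
  obtain ⟨n, hn⟩ := (key.eventually (gt_mem_nhds hneg)).exists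
  simp only [Measure.restrict_univ, smul_eq_mul] at hn
  have hneg : ∫ x, k x ^ n * φ x ∂hm < 0 := by
    by_contra hh
    exact absurd hn (not_lt.2 (mul_nonneg (inv_nonneg.2 (integral_nonneg fun x =>
      pow_nonneg (sq_nonneg _) _)) (not_lt.1 hh)))
  refine ⟨(1 + C (C (conj ζ)) * X) ^ n * C g, ?_⟩
  rw [WT_eq_integral]
  refine lt_of_eq_of_lt (integral_congr_ae (Eventually.of_forall fun x => ?_)) hneg
  have e : eval (C (fourier 1 x : ℂ)) ((1 + C (C (conj ζ)) * X) ^ n * C g) =
      C ((1 + conj ζ * fourier 1 x) ^ n) * g := by simp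
  simp only [φ, k, sl_lin, eval_C, e]
  rw [mul_left_comm, mul_left_comm _ (C _) g, ip1_C_left, ip1_C_right, ← mul_assoc,
    Complex.mul_conj', ← Complex.ofReal_pow, Complex.re_ofReal_mul, norm_pow]
  ring

lemma Cert1.hardy {α : ℝ} {a b c β γ : ℂ} (h : Cert1 α a b c β γ) : Cert1 0 a b c β γ := by
  intro ζ hζ g
  have key : ∀ u v : ℂ[X], Tendsto (fun N : ℕ => (((((N : ℝ) + 1) ^ α)⁻¹ : ℝ) : ℂ) *
      ip1 α (X ^ N * u) (X ^ N * v)) atTop (𝓝 (ip1 0 u v)) := by
    intro u v
    have e : ∀ N : ℕ, (((((N : ℝ) + 1) ^ α)⁻¹ : ℝ) : ℂ) * ip1 α (X ^ N * u) (X ^ N * v) =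
        ∑ k ∈ u.support, u.coeff k * conj (v.coeff k) *
          ((((((N + k : ℕ) : ℝ) + 1) / ((N : ℝ) + 1)) ^ α : ℝ) : ℂ) := fun N => by
      rw [ip1, ← (add_left_injective N).tsum_eq, tsum_eq_sum (s := u.support), Finset.mul_sum]
      · refine Finset.sum_congr rfl fun k _ => ?_
        rw [coeff_X_pow_mul, coeff_X_pow_mul, Real.div_rpow (by positivity) (by positivity),
          add_comm N k]
        push_cast; ring
      · intro k hk
        simp [coeff_X_pow_mul, notMem_support_iff.1 hk]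
      · intro k hk
        by_contra hh
        refine hk ?_
        have : ¬ N ≤ k := fun hle => hh ⟨k - N, Nat.sub_add_cancel hle⟩
        simp [coeff_X_pow_mul', this]
    simp only [e]
    rw [ip1, tsum_eq_sum (s := u.support) fun k hk => by simp [notMem_support_iff.1 hk]]
    refine tendsto_finsetSum _ fun k _ => Tendsto.const_mul _ ?_
    have := (tendsto_ratio k).rpow_const (p := α) (Or.inl one_ne_zero)
    rw [Real.one_rpow] at this
    rw [Real.rpow_zero]
    exact (Complex.continuous_ofReal.tendsto _).comp this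
  refine ge_of_tendsto' ((Complex.continuous_re.tendsto _).comp (key _ _)) fun N => ?_
  have := h ζ hζ (X ^ N * g)
  rw [mul_left_comm, mul_left_comm _ (X ^ N) g] at this
  simp only [Function.comp, Complex.re_ofReal_mul]
  exact mul_nonneg (by positivity) this

lemma Cert1.torus {α : ℝ} {a b c β γ : ℂ} (h : Cert1 α a b c β γ) {z : Fin 2 → ℂ}
    (hz : ∀ i, ‖z i‖ = 1) : 0 ≤ (MvPolynomial.eval z (lin a b c) *
      conj (MvPolynomial.eval z (lin 0 β γ))).re := by
  by_contra hn
  obtain ⟨g, hg⟩ := exists_poly_neg _ _ hz (not_le.1 hn)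
  have e := ipw_eq_S2 0 1 (wt 0) (fun d => by simp) (lin a b c * g) (lin 0 β γ * g)
  have h1 := h.hardy.WT_nonneg (E2 g)
  rw [← re_S2, ← map_mul, ← map_mul, ← e, MvPolynomial.coe_mul, MvPolynomial.coe_mul] at h1
  exact absurd hg (not_lt.2 h1)

lemma ipw_qOf {n : ℕ} (w : Ex → ℝ) (U g : Po) (c : Ix n → ℂ) :
    ipw w U ((qOf c * g : Po) : PS) =
      ∑ s, c s * ipw w U ((MvPolynomial.monomial s.1 1 * g : Po) : PS) := by
  simp only [ipw, ← tsum_mul_left]
  rw [← Summable.tsum_finsetSum fun s _ => (summable_ipw w U _).mul_left (c s)]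
  refine tsum_congr fun d => ?_
  simp only [qOf, Finset.sum_mul, MvPolynomial.coeff_coe, MvPolynomial.coeff_sum, map_sum,
    Finset.mul_sum]
  refine Finset.sum_congr rfl fun s _ => ?_
  rw [show MvPolynomial.monomial s.1 (conj (c s)) =
    MvPolynomial.C (conj (c s)) * MvPolynomial.monomial s.1 1 by
      rw [MvPolynomial.C_mul_monomial, mul_one], mul_assoc (MvPolynomial.C _),
    MvPolynomial.coeff_C_mul, map_mul, Complex.conj_conj]
  ring

theorem line_mem_of_noCert1 (α : ℝ) {a b c : ℂ} (hbc : b ≠ 0 ∨ c ≠ 0)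
    (h : ∀ β γ, Cert1 α a b c β γ → β = 0 ∧ γ = 0) : Line a b c ∈ Curves α 1 := by
  have hp0 : lin a b c ≠ 0 := by
    intro e
    have := deg_lin (a := a) hbc
    rw [e] at this; simp at this
  obtain ⟨f, t, hf, hf0, ht, hopa⟩ := exists_opa (α := α) (deg_lin_le a b c) hp0 fun v hv => by
    have hq := eq_lin (deg_qOf v)
    rw [coeff_qOf_of_not v (by simp)] at hq
    have hnc : ¬ Cert1 α a b c ((qOf v).coeff (Finsupp.single 0 1))
        ((qOf v).coeff (Finsupp.single 1 1)) := by
      intro hc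
      obtain ⟨h1, h2⟩ := h _ _ hc
      rw [h1, h2] at hq
      refine hv (funext fun s => ?_)
      have := coeff_qOf v s
      rw [hq] at this
      simpa [lin] using this.symm
    obtain ⟨A, hA⟩ := exists_WT_neg hnc
    obtain ⟨g, rfl⟩ := E2_surj A
    refine ⟨_, mem_asym α 1 (lin a b c) g (fun N => Finsupp.single 0 N) (fun N => by simp)
      (fun d => ((d 1 : ℝ) + 1) ^ α) fun d => ?_, ?_⟩
    · have := ((tendsto_ratio (d 0)).rpow_const (p := α) (Or.inl one_ne_zero)).mul_const
        (((d 1 : ℝ) + 1) ^ α)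
      rw [Real.one_rpow, one_mul] at this
      refine this.congr fun N => ?_
      rw [Real.div_rpow (by positivity) (by positivity), wt, wt,
        Real.mul_rpow (x := _ + 1) (y := ((Finsupp.single 0 N + d : Ex) 1 : ℝ) + 1)
          (by positivity) (by positivity)]
      simp [div_eq_inv_mul, mul_assoc]
    · rw [← re_S2, ← map_mul, ← map_mul, ← hq, ← ipw_eq_S2 α 1 (fun d => ((d 1 : ℝ) + 1) ^ α)
        (fun d => by simp), ipw_qOf] at hA
      exact hA
  refine ⟨f, _, hf, hf0, hopa, ?_, ?_⟩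
  · rw [MvPolynomial.totalDegree_mul_of_isDomain (by simpa using ht) hp0, deg_lin hbc]; omega
  · rw [← Z_lin]; ext z; simp [Z, ht]

end Pool.Agent.Lib.MP_e9e3a0_an
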