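import Pool.Agent.Lib.MP_e9e3a0_an.Basic

set_option autoImplicit false

namespace Pool.Agent.Lib.MP_e9e3a0_an

open ComplexConjugate Filter Topology MeasureTheory

lemma ip_add_left {α : ℝ} {f g h : PS} (hf : MemD α f) (hg : MemD α g) (hh : MemD α h) :
    ip α (f + g) h = ip α f h + ip α g h := by
  rw [ip_eq (hf.add hg) hh, ip_eq hf hh, ip_eq hg hh, J_add hf hg, inner_add_right]

lemma ip_sub_left {α : ℝ} {f g h : PS} (hf : MemD α f) (hg : MemD α g) (hh : MemD α h) :
    ip α (f - g) h = ip α f h - ip α g h := by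
  rw [ip_eq (hf.sub hg) hh, ip_eq hf hh, ip_eq hg hh, J_sub hf hg, inner_sub_right]

lemma ip_add_right {α : ℝ} {f g h : PS} (hf : MemD α f) (hg : MemD α g) (hh : MemD α h) :
    ip α h (f + g) = ip α h f + ip α h g := by
  rw [ip_eq hh (hf.add hg), ip_eq hh hf, ip_eq hh hg, J_add hf hg, inner_add_left]

lemma ip_smul_left {α : ℝ} {f h : PS} (c : ℂ) (hf : MemD α f) (hh : MemD α h) :
    ip α (c • f) h = c * ip α f h := by
  rw [ip_eq (hf.smul c) hh, ip_eq hf hh, J_smul c hf, inner_smul_right]

lemma ip_smul_right {α : ℝ} {f h : PS} (c : ℂ) (hf : MemD α f) (hh : MemD α h) :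
    ip α h (c • f) = conj c * ip α h f := by
  rw [ip_eq hh (hf.smul c), ip_eq hh hf, J_smul c hf, inner_smul_left]

lemma ip_self {α : ℝ} {f : PS} (hf : MemD α f) : ip α f f = ((‖J α f‖ ^ 2 : ℝ) : ℂ) := by
  rw [ip_eq hf hf, inner_self_eq_norm_sq_to_K]; simp

lemma eq_zero_of_ip_self {α : ℝ} {f : PS} (hf : MemD α f) (h : (ip α f f).re = 0) : f = 0 := by
  rw [ip_self hf, Complex.ofReal_re] at h
  exact J_eq_zero hf (by simpa using h)

@[simp] lemma ip_zero_left (α : ℝ) (g : PS) : ip α 0 g = 0 := by simp [ip]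
@[simp] lemma ip_zero_right (α : ℝ) (g : PS) : ip α g 0 = 0 := by simp [ip]

lemma ip_conj (α : ℝ) (f g : PS) : conj (ip α f g) = ip α g f := by
  unfold ip
  rw [Complex.conj_tsum]
  refine tsum_congr fun d => ?_
  simp only [map_mul, Complex.conj_conj, Complex.conj_ofReal]; ring

lemma coe_C_mul (c : ℂ) (p : Po) : ((MvPolynomial.C c * p : Po) : PS) = c • (p : PS) := by
  rw [MvPolynomial.coe_mul, MvPolynomial.coe_C, MvPowerSeries.smul_eq_C_mul]

abbrev T := UnitAddTorus (Fin 2)

/-- Haar probability measure on the torus -/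
noncomputable def μT : Measure T := Measure.pi fun _ => AddCircle.haarAddCircle

instance : IsProbabilityMeasure μT := by unfold μT; infer_instance
instance : Measure.IsOpenPosMeasure μT := by unfold μT; infer_instance

noncomputable def tau (x : T) : Fin 2 → ℂ := fun i => fourier 1 (x i)

lemma norm_tau (x : T) (i : Fin 2) : ‖tau x i‖ = 1 := by simp [tau]

lemma continuous_tau : Continuous tau := by
  unfold tau; fun_prop

lemma tau_surj {z : Fin 2 → ℂ} (hz : ∀ i, ‖z i‖ = 1) : ∃ x, tau x = z := by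
  have : ∀ i, ∃ y : UnitAddCircle, fourier 1 y = z i := fun i => by
    obtain ⟨y, hy⟩ := (AddCircle.homeomorphCircle (T := 1) one_ne_zero).surjective
      ⟨z i, mem_sphere_zero_iff_norm.2 (hz i)⟩
    refine ⟨y, ?_⟩
    rw [AddCircle.homeomorphCircle_apply] at hy
    rw [fourier_one, hy]
  choose x hx using this
  exact ⟨x, funext hx⟩

lemma tau_inj {x y : T} (h : tau x = tau y) : x = y := by
  funext i
  have := congrFun h i
  simp only [tau, fourier_one] at this
  exact AddCircle.injective_toCircle one_ne_zero (Subtype.ext this)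

noncomputable def ev (p : Po) (x : T) : ℂ := MvPolynomial.eval (tau x) p

lemma continuous_ev (p : Po) : Continuous (ev p) :=
  (MvPolynomial.continuous_eval p).comp continuous_tau

lemma integrable_of_cont {E : Type} [NormedAddCommGroup E] {φ : T → E} (h : Continuous φ) :
    Integrable φ μT :=
  h.integrable_of_hasCompactSupport (HasCompactSupport.of_compactSpace _)

lemma ev_monomial (s : Ex) (a : ℂ) (x : T) :
    ev (MvPolynomial.monomial s a) x = a * UnitAddTorus.mFourier (fun i => (s i : ℤ)) x := by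
  have h : ∀ (k : ℕ) (y : UnitAddCircle), fourier (k : ℤ) y = fourier 1 y ^ k := by
    intro k y
    induction k with
    | zero => simp
    | succ k ih => rw [Nat.cast_succ, fourier_add, ih, pow_succ]
  simp only [ev, MvPolynomial.eval_monomial, UnitAddTorus.mFourier, ContinuousMap.coe_mk, h, tau]
  rw [Finsupp.prod_fintype _ _ (by simp)]

lemma integral_monomial (s t : Ex) (a b : ℂ) :
    ∫ x, ev (MvPolynomial.monomial s a) x * conj (ev (MvPolynomial.monomial t b) x) ∂μT =
      if s = t then a * conj b else 0 := by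
  have h := orthonormal_iff_ite.1 (UnitAddTorus.orthonormal_mFourier (d := Fin 2))
    (fun i => (t i : ℤ)) (fun i => (s i : ℤ))
  rw [ContinuousMap.inner_toLp] at h
  have h2 : ∫ x, UnitAddTorus.mFourier (fun i => (s i : ℤ)) x *
      conj (UnitAddTorus.mFourier (fun i => (t i : ℤ)) x) ∂μT =
      if (fun i => (t i : ℤ)) = (fun i => (s i : ℤ)) then 1 else 0 := by
    convert h <;> rfl
  have e : ((fun i => (t i : ℤ)) = (fun i => (s i : ℤ))) ↔ s = t := by
    constructor
    · intro h; ext i; exact_mod_cast (congrFun h i).symm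
    · rintro rfl; rfl
  simp only [ev_monomial, map_mul]
  have e2 : ∀ x, a * UnitAddTorus.mFourier (fun i => (s i : ℤ)) x *
      (conj b * conj (UnitAddTorus.mFourier (fun i => (t i : ℤ)) x)) = (a * conj b) *
      (UnitAddTorus.mFourier (fun i => (s i : ℤ)) x *
      conj (UnitAddTorus.mFourier (fun i => (t i : ℤ)) x)) := fun x => by ring
  simp only [e2, integral_const_mul, h2, e]
  split_ifs <;> simp

lemma ip_monomial (s t : Ex) (a b : ℂ) :
    ip 0 ((MvPolynomial.monomial s a : Po) : PS) ((MvPolynomial.monomial t b : Po) : PS) =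
      if s = t then a * conj b else 0 := by
  unfold ip
  rw [tsum_eq_single s]
  · simp only [MvPolynomial.coeff_coe, MvPolynomial.coeff_monomial, wt_hardy]
    by_cases h : s = t
    · simp [h]
    · simp [h, Ne.symm h]
  · intro d hd
    simp only [MvPolynomial.coeff_coe, MvPolynomial.coeff_monomial, if_neg (Ne.symm hd), zero_mul]

lemma ev_add (p q : Po) (x : T) : ev (p + q) x = ev p x + ev q x := by simp [ev]
lemma ev_mul (p q : Po) (x : T) : ev (p * q) x = ev p x * ev q x := by simp [ev]

lemma parseval (u v : Po) : ip 0 (u : PS) (v : PS) = ∫ x, ev u x * conj (ev v x) ∂μT := by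
  have hc : ∀ u v : Po, Integrable (fun x => ev u x * conj (ev v x)) μT := fun u v =>
    integrable_of_cont ((continuous_ev u).mul (Complex.continuous_conj.comp (continuous_ev v)))
  induction u using MvPolynomial.induction_on' with
  | add p q hp hq =>
    rw [MvPolynomial.coe_add, ip_add_left (memD_poly _ _) (memD_poly _ _) (memD_poly _ _), hp, hq,
      ← integral_add (hc _ _) (hc _ _)]
    simp only [ev_add, add_mul]
  | monomial s a =>
    induction v using MvPolynomial.induction_on' with
    | add p q hp hq =>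
      rw [MvPolynomial.coe_add, ip_add_right (memD_poly _ _) (memD_poly _ _) (memD_poly _ _), hp,
        hq, ← integral_add (hc _ _) (hc _ _)]
      simp only [ev_add, map_add, mul_add]
    | monomial t b => rw [ip_monomial, integral_monomial]

/-- the form `⟨r f, s f⟩` -/
noncomputable def Lam (α : ℝ) (f : PS) (r s : Po) : ℂ := ip α ((r : PS) * f) ((s : PS) * f)

lemma sum_Lam_poly {k : ℕ} (r s : Fin k → Po) (g : Po) :
    ∑ i, Lam 0 (g : PS) (r i) (s i) =
      ∫ x, (∑ i, ev (r i) x * conj (ev (s i) x)) * ((‖ev g x‖ ^ 2 : ℝ) : ℂ) ∂μT := by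
  simp only [Lam, ← MvPolynomial.coe_mul, parseval]
  have hc : ∀ u v : Po, Integrable (fun x => ev u x * conj (ev v x)) μT := fun u v =>
    integrable_of_cont ((continuous_ev u).mul (Complex.continuous_conj.comp (continuous_ev v)))
  rw [← integral_finsetSum _ fun i _ => hc _ _]
  refine integral_congr_ae (Eventually.of_forall fun x => ?_)
  simp only [Finset.sum_mul, ev_mul, map_mul]
  refine Finset.sum_congr rfl fun i _ => ?_
  rw [Complex.ofReal_pow, ← Complex.mul_conj']; ring

lemma tendsto_sum_Lam {α : ℝ} {f : PS} (hf : MemD α f) {k : ℕ} (r s : Fin k → Po) :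
    Tendsto (fun F : Finset Ex => ∑ i,
      Lam α ((∑ d ∈ F, MvPolynomial.monomial d (MvPowerSeries.coeff d f) : Po) : PS) (r i) (s i))
      atTop (𝓝 (∑ i, Lam α f (r i) (s i))) := by
  refine tendsto_finsetSum _ fun i _ => ?_
  have h := exists_poly_tendsto hf
  have h1 := tendsto_poly_mul hf (fun _ => memD_poly _ _) h (r i)
  have h2 := tendsto_poly_mul hf (fun _ => memD_poly _ _) h (s i)
  simp only [Lam]
  rw [ip_eq (hf.poly_mul _) (hf.poly_mul _)]
  refine (h2.inner h1).congr fun F => ?_
  rw [ip_eq ((memD_poly _ _).poly_mul _) ((memD_poly _ _).poly_mul _)]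

/-- transfer of inequalities from the torus to the Hardy space -/
lemma transfer_nonneg {f : PS} (hf : MemD 0 f) {k : ℕ} (r s : Fin k → Po)
    (h : ∀ z : Fin 2 → ℂ, (∀ i, ‖z i‖ = 1) →
      0 ≤ (∑ i, MvPolynomial.eval z (r i) * conj (MvPolynomial.eval z (s i))).re) :
    0 ≤ (∑ i, Lam 0 f (r i) (s i)).re := by
  refine ge_of_tendsto' ((Complex.continuous_re.tendsto _).comp (tendsto_sum_Lam hf r s))
    fun F => ?_
  simp only [Function.comp, sum_Lam_poly]
  rw [← RCLike.re_to_complex, ← integral_re]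
  · refine integral_nonneg fun x => ?_
    simp only [RCLike.re_to_complex, Pi.zero_apply, Complex.re_mul_ofReal]
    exact mul_nonneg (h _ (norm_tau x)) (sq_nonneg _)
  · refine integrable_of_cont (Continuous.mul (continuous_finsetSum _ fun i _ =>
      (continuous_ev _).mul (Complex.continuous_conj.comp (continuous_ev _))) ?_)
    exact Complex.continuous_ofReal.comp ((continuous_ev _).norm.pow 2)

/-- transfer of identities from the torus to the Hardy space -/
lemma transfer_zero {f : PS} (hf : MemD 0 f) {k : ℕ} (r s : Fin k → Po)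
    (h : ∀ z : Fin 2 → ℂ, (∀ i, ‖z i‖ = 1) →
      ∑ i, MvPolynomial.eval z (r i) * conj (MvPolynomial.eval z (s i)) = 0) :
    ∑ i, Lam 0 f (r i) (s i) = 0 := by
  refine tendsto_nhds_unique (tendsto_sum_Lam hf r s) (tendsto_const_nhds.congr fun F => ?_)
  rw [sum_Lam_poly]
  simp only [ev, h _ (norm_tau _), zero_mul, integral_zero]

lemma one_add_lt {w : ℂ} (hw : ‖w‖ = 1) (h1 : w ≠ 1) : ‖1 + w‖ ^ 2 < 4 := by
  have h2 : ‖1 - w‖ ≠ 0 := norm_ne_zero_iff.2 (sub_ne_zero.2 h1.symm)
  have h3 := parallelogram_law_with_norm ℂ (1 : ℂ) w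
  rw [hw, norm_one] at h3
  have h4 : 0 < ‖1 - w‖ * ‖1 - w‖ := mul_self_pos.2 h2
  nlinarith

/-- a negative value on the torus is detected by a polynomial -/
lemma exists_poly_neg (p q : Po) {z : Fin 2 → ℂ} (hz : ∀ i, ‖z i‖ = 1)
    (h : (MvPolynomial.eval z p * conj (MvPolynomial.eval z q)).re < 0) :
    ∃ g : Po, (Lam 0 (g : PS) p q).re < 0 := by
  obtain ⟨x₀, rfl⟩ := tau_surj hz
  let u : Fin 2 → Po := fun i => 1 + MvPolynomial.C (conj (tau x₀ i)) * MvPolynomial.X i
  have hu : ∀ i x, ev (u i) x = 1 + conj (tau x₀ i) * tau x i := fun i x => by simp [u, ev]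
  have hn : ∀ i x, ‖conj (tau x₀ i) * tau x i‖ = 1 := fun i x => by simp [norm_tau]
  have h1 : ∀ i, conj (tau x₀ i) * tau x₀ i = 1 := fun i => by
    rw [mul_comm, Complex.mul_conj', norm_tau]; simp
  have hle : ∀ i x, ‖ev (u i) x‖ ^ 2 ≤ 4 := fun i x => by
    have : ‖ev (u i) x‖ ≤ 2 := by
      rw [hu]; refine (norm_add_le _ _).trans ?_; rw [hn, norm_one]; norm_num
    nlinarith [norm_nonneg (ev (u i) x)]
  have hlt : ∀ i x, tau x i ≠ tau x₀ i → ‖ev (u i) x‖ ^ 2 < 4 := fun i x hx => by
    rw [hu]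
    refine one_add_lt (hn i x) fun e => hx ?_
    have h0 : conj (tau x₀ i) ≠ 0 := left_ne_zero_of_mul_eq_one e
    exact mul_left_cancel₀ h0 (e.trans (h1 i).symm)
  let c : T → ℝ := fun x => ‖ev (u 0 * u 1) x‖ ^ 2
  have hc : ∀ x, c x = ‖ev (u 0) x‖ ^ 2 * ‖ev (u 1) x‖ ^ 2 := fun x => by
    simp only [c, ev_mul, norm_mul, mul_pow]
  have hc0 : c x₀ = 16 := by
    rw [hc, hu, hu, h1, h1]; norm_num
  have hcc : Continuous c := (continuous_ev _).norm.pow 2
  let φ : T → ℝ := fun x => (ev p x * conj (ev q x)).re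
  have hφ : Continuous φ := Complex.continuous_re.comp
    ((continuous_ev p).mul (Complex.continuous_conj.comp (continuous_ev q)))
  have key := tendsto_setIntegral_pow_smul_of_unique_maximum_of_isCompact_of_continuousOn
    (μ := μT) (x₀ := x₀) (g := φ) (c := c) isCompact_univ hcc.continuousOn (fun y _ hy => by
      rw [hc0, hc]
      have : tau y 0 ≠ tau x₀ 0 ∨ tau y 1 ≠ tau x₀ 1 := by
        by_contra hh
        push Not at hh
        exact hy (tau_inj (funext fun i => by fin_cases i; exacts [hh.1, hh.2]))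
      have a0 := sq_nonneg ‖ev (u 0) y‖
      have a1 := sq_nonneg ‖ev (u 1) y‖
      rcases this with h | h
      · nlinarith [hlt 0 y h, hle 1 y]
      · nlinarith [hlt 1 y h, hle 0 y])
    (fun x _ => sq_nonneg _) (by rw [hc0]; norm_num) (by simp) hφ.continuousOn
  obtain ⟨n, hn⟩ := (key.eventually (gt_mem_nhds h)).exists
  simp only [Measure.restrict_univ, smul_eq_mul] at hn
  have hneg : ∫ x, c x ^ n * φ x ∂μT < 0 := by
    by_contra hh
    exact absurd hn (not_lt.2 (mul_nonneg (inv_nonneg.2 (integral_nonneg fun x =>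
      pow_nonneg (sq_nonneg _) _)) (not_lt.1 hh)))
  refine ⟨(u 0 * u 1) ^ n, ?_⟩
  have e := sum_Lam_poly ![p] ![q] ((u 0 * u 1) ^ n)
  simp only [Fin.sum_univ_succ, Fin.sum_univ_zero, add_zero, Matrix.cons_val_zero] at e
  rw [e, ← RCLike.re_to_complex, ← integral_re]
  · refine lt_of_eq_of_lt (integral_congr_ae (Eventually.of_forall fun x => ?_)) hneg
    simp only [RCLike.re_to_complex, Complex.re_mul_ofReal, c, φ, ev, map_pow, norm_pow]
    ring
  · refine integrable_of_cont (Continuous.mul
      ((continuous_ev _).mul (Complex.continuous_conj.comp (continuous_ev _))) ?_)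
    exact Complex.continuous_ofReal.comp ((continuous_ev _).norm.pow 2)

lemma poly_eq_of_torus {p q : Po}
    (h : ∀ z : Fin 2 → ℂ, (∀ i, ‖z i‖ = 1) → MvPolynomial.eval z p = MvPolynomial.eval z q) :
    p = q := by
  refine MvPolynomial.funext_set (fun _ => Metric.sphere (0 : ℂ) 1) (fun _ => ?_) fun z hz =>
    h z fun i => by simpa using hz i trivial
  have : IsPreconnected (Metric.sphere (0 : ℂ) 1) :=
    isPreconnected_sphere (by rw [Complex.rank_real_complex]; norm_num) _ _
  exact this.infinite_of_nontrivial ⟨1, by simp, -1, by simp, by norm_num⟩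

end Pool.Agent.Lib.MP_e9e3a0_an
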